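import Pool.Agent.L7h90.JG.Val

/-! The normal part of a rapidly oscillating deformation. -/

set_option autoImplicit false
set_option linter.unusedSectionVars false
set_option linter.unusedVariables false

open Filter Topology Set Metric

namespace Pool.Agent.L7h90.JG

variable {l : Filter ℕ} [l.NeBot] {z : ℂ} {a : ℕ → ℂ} {w t : ℕ → ℂ → ℂ}
  {X X' Y Y' : ℕ → ℂ → ℂ} {ξ η : ℂ → ℂ} {γ : ℂ}
  {S : Finset (ℕ →₀ ℕ)} {H H' : (ℕ →₀ ℕ) → ℕ → ℂ → ℂ} {h : (ℕ →₀ ℕ) → ℂ → ℂ}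
  {F G : ℕ → ℂ → ℂ}

/-- the hypotheses -/
structure DtB (l : Filter ℕ) (z : ℂ) (a : ℕ → ℂ) (w t X X' Y Y' : ℕ → ℂ → ℂ) (ξ η : ℂ → ℂ) (γ : ℂ)
    (S : Finset (ℕ →₀ ℕ)) (H H' : (ℕ →₀ ℕ) → ℕ → ℂ → ℂ) (h : (ℕ →₀ ℕ) → ℂ → ℂ) : Prop where
  ha : Inf l a
  d : Dta l z a (Md l z a) (Ng l z a) w t X X' ξ (fun _ => γ)
  hY : Ad l z w (Md l z a) (Ng l z a) Y Y' η
  h0 : Sm l z a 0 (Er w t Y Y')
  hS : ∀ s ∈ S, Ad l z w (Md l z a) (Ng l z a) (H s) (H' s) (h s) ∧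
      ∀ i, Sm l z a i (Er w t Y Y') → Sm l z a i (Er w t (H s) (H' s))

variable (b : DtB l z a w t X X' Y Y' ξ η γ S H H' h)

include b in
theorem DtB.cV (k q : ℕ) : CH l z (fun m => fV S (fun s => H s m) (X m) (Y m) k q)
    (fV S h ξ η k q) :=
  (sm_V b.ha b.d b.hY b.h0 (fun s hs => ⟨(b.hS s hs).1, (b.hS s hs).2 0⟩) k q).ad.cP

include b in
theorem DtB.dt : Sm l z a 0 (fun m => deriv (t m)) := by
  rw [Sm.zero_iff]
  have := b.d.ht.deriv
  rwa [show deriv (fun _ : ℂ => γ) = fun _ => 0 from funext fun w => deriv_const w γ] at this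

/-- the coefficient of the leading term -/
noncomputable def bS (S : Finset (ℕ →₀ ℕ)) (H : (ℕ →₀ ℕ) → ℂ → ℂ) (X Y : ℂ → ℂ) (k q n : ℕ)
    (x : ℂ) : ℂ :=
  deriv X x ^ n * fV S H X Y k q x * (-(deriv X x)⁻¹) ^ (k + 1)

include b in
theorem DtB.cB (k q n : ℕ) : CH l z (fun m => bS S (fun s => H s m) (X m) (Y m) k q n)
    (bS S h ξ η k q n) :=
  ((((b.d.hX.deriv b.d.c b.d.hw).cP.pow n).mul (b.cV k q)).mul
    (((b.d.hX.deriv b.d.c b.d.hw).cP.inv b.d.hξ).neg.pow (k + 1)))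

include b in
theorem DtB.bne {k q n : ℕ} (hv : fV S h ξ η k q z ≠ 0) : bS S h ξ η k q n z ≠ 0 :=
  mul_ne_zero (mul_ne_zero (pow_ne_zero _ b.d.hξ) hv)
    (pow_ne_zero _ (neg_ne_zero.2 (inv_ne_zero b.d.hξ)))

include b in
/-- the main relation -/
theorem DtB.rel {k n : ℕ} {e : ℂ}
    (hP : ∀ᶠ p : ℕ × ℂ in l ×ˢ 𝓝 z,
      deriv (X p.1) p.2 ^ n * fV S (fun s => H s p.1) (X p.1) (Y p.1) k 0 p.2 = e)
    (hQ : ∀ᶠ p : ℕ × ℂ in l ×ˢ 𝓝 z,
      deriv (X' p.1) p.2 ^ n * fV S (fun s => H' s p.1) (X' p.1) (Y' p.1) k 0 p.2 = e)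
    {i : ℤ} (hi : Sm l z a i (Er w t Y Y')) (hik : i ≤ k - 1) :
    Sm l z a (i - k) (fun m x => a m ^ (k + 1) *
      (bS S (fun s => H s m) (X m) (Y m) k 1 n x * Er w t Y Y' m x) - n * e * γ * a m) := by
  have hi' : Sm l z a i (Er w t Y Y') := hi
  have hS' : ∀ s ∈ S, Ad l z w (Md l z a) (Ng l z a) (H s) (H' s) (h s) ∧
      (Sm l z a i (Er w t Y Y') → Sm l z a i (Er w t (H s) (H' s))) :=
    fun s hs => ⟨(b.hS s hs).1, (b.hS s hs).2 i⟩
  have hV := sm_V b.ha b.d b.hY b.h0 (fun s hs => ⟨(b.hS s hs).1, (b.hS s hs).2 0⟩) k 0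
  have h1 := b.d.main hV.ad hP hQ (i - k)
  have h2 := (sm_V_top b.ha b.d b.hY hi' hS' k 0).ch ((b.d.hX.deriv b.d.c b.d.hw).cP.pow n)
  have h3 := (b.dt.mono b.ha (show i - k ≤ 0 by omega)).ch (CH.const ((n : ℂ) * e))
  have h4 : Sm l z a 0 (fun m x => t m x - γ) := by
    rw [Sm.zero_iff]
    have := b.d.ht.sub (CH.const γ)
    unfold CZ
    simpa using this
  have h5 := ((h4.sa b.ha).mono b.ha (show i - k ≤ 0 - 1 by omega)).ch
    (CH.const ((n : ℂ) * e))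
  refine (((h1.sub h2).sub h3).add h5).congr (Eventually.of_forall fun p => ?_)
  have h6 : bS S (fun s => H s p.1) (X p.1) (Y p.1) k 1 n p.2 =
    deriv (X p.1) p.2 ^ n * fV S (fun s => H s p.1) (X p.1) (Y p.1) k (0 + 1) p.2 *
      (-(deriv (X p.1) p.2)⁻¹) ^ (k + 1) := rfl
  have h7 : (-a p.1 * (deriv (X p.1) p.2)⁻¹) ^ (k + 1) =
      a p.1 ^ (k + 1) * (-(deriv (X p.1) p.2)⁻¹) ^ (k + 1) := by
    rw [← mul_pow]
    congr 1
    ring
  rw [h6, h7]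
  ring

include b in
/-- the order of the normal part -/
theorem DtB.ord {k n : ℕ} {e : ℂ}
    (hP : ∀ᶠ p : ℕ × ℂ in l ×ˢ 𝓝 z,
      deriv (X p.1) p.2 ^ n * fV S (fun s => H s p.1) (X p.1) (Y p.1) k 0 p.2 = e)
    (hQ : ∀ᶠ p : ℕ × ℂ in l ×ˢ 𝓝 z,
      deriv (X' p.1) p.2 ^ n * fV S (fun s => H' s p.1) (X' p.1) (Y' p.1) k 0 p.2 = e)
    (hv : fV S h ξ η k 1 z ≠ 0) :
    ∀ i : ℕ, i ≤ k - 1 → Sm l z a i (Er w t Y Y') := by
  intro i
  induction i with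
  | zero => exact fun _ => b.h0
  | succ i ih =>
    intro hik
    have h1 := b.rel hP hQ (ih (by omega)) (by omega)
    have h2 : Sm l z a ((i : ℤ) - k) (fun m _ => (n : ℂ) * e * γ * a m) := by
      have h3 : Sm l z a (-1 - 1) (fun m x => a m * ((n : ℂ) * e * γ)) :=
        (Sm.of_ch b.ha (CH.const ((n : ℂ) * e * γ))).sa b.ha
      exact (h3.mono b.ha (by omega)).congr (Eventually.of_forall fun p => by ring)
    have h3 := h1.add h2
    have h4 : Sm l z a ((i : ℤ) - k + (k + 1 : ℕ)) (fun m x =>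
        bS S (fun s => H s m) (X m) (Y m) k 1 n x * Er w t Y Y' m x) :=
      Sm.of_apow b.ha (h3.congr (Eventually.of_forall fun p => by ring))
    have h5 := h4.ch ((b.cB k 1 n).inv (b.bne hv))
    rw [show (i : ℤ) - k + (k + 1 : ℕ) = (i + 1 : ℕ) by push_cast; ring] at h5
    refine h5.congr ?_
    filter_upwards [(b.cB k 1 n).ne (b.bne hv)] with p hp
    field_simp

include b in
/-- **The first case.** -/
theorem DtB.lim {k n : ℕ} {e : ℂ}
    (hP : ∀ᶠ p : ℕ × ℂ in l ×ˢ 𝓝 z,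
      deriv (X p.1) p.2 ^ n * fV S (fun s => H s p.1) (X p.1) (Y p.1) k 0 p.2 = e)
    (hQ : ∀ᶠ p : ℕ × ℂ in l ×ˢ 𝓝 z,
      deriv (X' p.1) p.2 ^ n * fV S (fun s => H' s p.1) (X' p.1) (Y' p.1) k 0 p.2 = e)
    (hv : fV S h ξ η k 1 z ≠ 0) :
    CH l z (fun m x => a m ^ k * (deriv (X m) x * Er w t Y Y' m x))
      (fun x => n * e * γ * (deriv ξ x / bS S h ξ η k 1 n x)) := by
  have h1 : Sm l z a ((k : ℤ) - 1) (Er w t Y Y') := by
    rcases Nat.eq_zero_or_pos k with rfl | hk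
    · exact b.h0.mono b.ha (by omega)
    · have := b.ord hP hQ hv (k - 1) le_rfl
      rwa [Nat.cast_sub hk, Nat.cast_one] at this
  have h2 := b.rel hP hQ h1 le_rfl
  rw [show (k : ℤ) - 1 - k = -1 by ring] at h2
  have h3 : CH l z (fun m x => a m ^ k *
      (bS S (fun s => H s m) (X m) (Y m) k 1 n x * Er w t Y Y' m x) - n * e * γ)
      (fun _ => 0) := by
    refine CH.congr' h2 ?_
    filter_upwards [tendsto_fst.eventually b.ha.ne] with p hp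
    rw [zpow_neg_one, pow_succ]
    field_simp
  have hD := (b.d.hX.deriv b.d.c b.d.hw).cP
  have h4 := (h3.add (CH.const ((n : ℂ) * e * γ))).mul (hD.div (b.cB k 1 n) (b.bne hv))
  refine h4.congr ?_ ?_
  · filter_upwards [(b.cB k 1 n).ne (b.bne hv)] with p hp
    field_simp
    ring
  · filter_upwards with x
    ring

include b in
/-- **The second case.** -/
theorem DtB.zero {k n q : ℕ} {e : ℂ}
    (hP : ∀ᶠ p : ℕ × ℂ in l ×ˢ 𝓝 z,
      deriv (X p.1) p.2 ^ n * fV S (fun s => H s p.1) (X p.1) (Y p.1) k 0 p.2 = e)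
    (hQ : ∀ᶠ p : ℕ × ℂ in l ×ˢ 𝓝 z,
      deriv (X' p.1) p.2 ^ n * fV S (fun s => H' s p.1) (X' p.1) (Y' p.1) k 0 p.2 = e)
    (hPq : ∀ᶠ p : ℕ × ℂ in l ×ˢ 𝓝 z, fV S (fun s => H s p.1) (X p.1) (Y p.1) k q p.2 = 0)
    (hQq : ∀ᶠ p : ℕ × ℂ in l ×ˢ 𝓝 z, fV S (fun s => H' s p.1) (X' p.1) (Y' p.1) k q p.2 = 0)
    (hv : fV S h ξ η k (q + 1) z ≠ 0) (hn : 0 < n) (he : e ≠ 0) : γ = 0 := by
  have hE : ∀ᶠ p : ℕ × ℂ in l ×ˢ 𝓝 z,
      Er w t (fun m => fV S (fun s => H s m) (X m) (Y m) k q)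
        (fun m => fV S (fun s => H' s m) (X' m) (Y' m) k q) p.1 p.2 = 0 := by
    have h3 := er_congr (w := w) (t := t)
      (F := fun m => fV S (fun s => H s m) (X m) (Y m) k q) (F' := fun _ _ => 0)
      (G := fun m => fV S (fun s => H' s m) (X' m) (Y' m) k q) (G' := fun _ _ => 0) hPq hQq
    filter_upwards [h3] with p hp
    rw [hp]
    unfold Er dq
    simp
  have hord : ∀ i : ℕ, Sm l z a i (Er w t Y Y') := by
    intro i
    induction i with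
    | zero => exact b.h0
    | succ i ih =>
      have h1 := sm_V_top b.ha b.d b.hY ih (fun s hs => ⟨(b.hS s hs).1, (b.hS s hs).2 i⟩) k q
      have h2 : Sm l z a ((i : ℤ) - k) (fun m x => a m ^ (k + 1) *
          (bS S (fun s => H s m) (X m) (Y m) k (q + 1) 0 x * Er w t Y Y' m x)) := by
        refine h1.neg.congr ?_
        filter_upwards [hE] with p hp
        rw [hp]
        have h7 : (-a p.1 * (deriv (X p.1) p.2)⁻¹) ^ (k + 1) =
            a p.1 ^ (k + 1) * (-(deriv (X p.1) p.2)⁻¹) ^ (k + 1) := by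
          rw [← mul_pow]
          congr 1
          ring
        unfold bS
        rw [h7]
        ring
      have h4 := Sm.of_apow b.ha h2
      have h5 := h4.ch ((b.cB k (q + 1) 0).inv (b.bne hv))
      rw [show (i : ℤ) - k + (k + 1 : ℕ) = (i + 1 : ℕ) by push_cast; ring] at h5
      refine h5.congr ?_
      filter_upwards [(b.cB k (q + 1) 0).ne (b.bne hv)] with p hp
      field_simp
  have h1 := sm_V b.ha b.d b.hY (hord (k + 1))
    (fun s hs => ⟨(b.hS s hs).1, (b.hS s hs).2 _⟩) k 0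
  have h2 := h1.er
  rw [sub_self] at h2
  have h3 := b.d.main h1.ad hP hQ 0
  have h4 := h2.ch ((b.d.hX.deriv b.d.c b.d.hw).cP.pow n)
  have h5 := b.dt.ch (CH.const ((n : ℂ) * e))
  have h6 : Sm l z a 0 (fun m x => a m ^ 1 * ((n : ℂ) * e * t m x)) := by
    refine ((h4.add h5).sub h3).congr (Eventually.of_forall fun p => ?_)
    ring
  have h7 := Sm.of_apow b.ha h6
  have h8 : CZ l z (fun m x => (n : ℂ) * e * t m x) :=
    Sm.zero_iff.1 (h7.mono b.ha (by norm_num))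
  have h9 : CH l z (fun m x => (n : ℂ) * e * t m x) (fun _ => (n : ℂ) * e * γ) :=
    (CH.const ((n : ℂ) * e)).mul b.d.ht
  have h10 := (CH.unique h9 h8).self_of_nhds
  have hn' : (n : ℂ) ≠ 0 := by exact_mod_cast hn.ne'
  exact (mul_eq_zero.1 h10).resolve_left (mul_ne_zero hn' he)

end Pool.Agent.L7h90.JG
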