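import Pool.Agent.L7h90.JG.Asy
import Pool.Agent.L7h90.JT.Rig

/-! Invariant differential expressions along curves. -/

set_option autoImplicit false
set_option linter.unusedSectionVars false
set_option linter.unusedVariables false

open Filter Topology Set Metric MvPolynomial FF

namespace Pool.Agent.L7h90.JG

open Pool.Agent.N155 Pool.Agent.Y190.OP Pool.Agent.W602.GT Pool.Agent.TH143.GT
open Pool.Agent.L7h90.WR

/-! ### functions -/

section

variable {X Y : ℂ → ℂ} {z : ℂ}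

theorem fY_an (hX : AnalyticAt ℂ X z) (hY : AnalyticAt ℂ Y z) (h0 : deriv X z ≠ 0) (j : ℕ) :
    AnalyticAt ℂ (fY X Y j) z := by
  induction j with
  | zero => exact hY
  | succ j ih => exact ih.deriv.div hX.deriv h0

theorem fY_mero (hX : Meromorphic X) (hY : Meromorphic Y) (j : ℕ) : Meromorphic (fY X Y j) := by
  induction j with
  | zero => exact hY
  | succ j ih => exact ih.deriv.div hX.deriv

variable {S : Finset (ℕ →₀ ℕ)} {H : (ℕ →₀ ℕ) → ℂ → ℂ}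

theorem fV_an (hX : AnalyticAt ℂ X z) (hY : AnalyticAt ℂ Y z) (h0 : deriv X z ≠ 0)
    (hH : ∀ s ∈ S, AnalyticAt ℂ (H s) z) (k q : ℕ) : AnalyticAt ℂ (fV S H X Y k q) z := by
  refine Finset.analyticAt_fun_sum _ fun s hs => ?_
  exact ((analyticAt_const.mul (hH s hs)).mul (Finset.analyticAt_fun_prod _ fun j _ =>
    (fY_an hX hY h0 (j + 1)).pow _)).mul ((fY_an hX hY h0 (k + 1)).pow _)

theorem mero_prod' {ι : Type} (s : Finset ι) {f : ι → ℂ → ℂ} (hf : ∀ i, Meromorphic (f i)) :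
    Meromorphic fun z => ∏ i ∈ s, f i z := by
  classical
  induction s using Finset.induction_on with
  | empty =>
    simp only [Finset.prod_empty]
    exact Meromorphic.const 1
  | insert b s hb ih =>
    simp only [Finset.prod_insert hb]
    exact (hf b).mul ih

theorem fV_mero (hX : Meromorphic X) (hY : Meromorphic Y) (hH : ∀ s, Meromorphic (H s))
    (k q : ℕ) : Meromorphic (fV S H X Y k q) := by
  unfold fV
  refine mero_sum' _ fun s => ?_
  have h1 : Meromorphic (fM X Y k s) := mero_prod' _ fun j z =>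
    (fY_mero hX hY (j + 1) z).pow _
  intro z
  exact (((MeromorphicAt.const _ z).mul (hH s z)).mul (h1 z)).mul
    ((fY_mero hX hY (k + 1) z).pow _)

theorem deriv_shift (f : ℂ → ℂ) (u : ℂ) : deriv (fun w => f (u + w)) = fun w => deriv f (u + w) :=
  funext fun w => deriv_comp_const_add f u w

theorem fY_shift (X Y : ℂ → ℂ) (u : ℂ) (j : ℕ) :
    fY (fun w => X (u + w)) (fun w => Y (u + w)) j = fun z => fY X Y j (u + z) := by
  induction j with
  | zero => rfl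
  | succ j ih =>
    funext z
    change deriv (fY (fun w => X (u + w)) (fun w => Y (u + w)) j) z /
      deriv (fun w => X (u + w)) z = deriv (fY X Y j) (u + z) / deriv X (u + z)
    rw [ih, deriv_shift, deriv_shift]

theorem fV_shift (S : Finset (ℕ →₀ ℕ)) (H : (ℕ →₀ ℕ) → ℂ → ℂ) (X Y : ℂ → ℂ) (u : ℂ) (k q : ℕ)
    (z : ℂ) : fV S (fun s w => H s (u + w)) (fun w => X (u + w)) (fun w => Y (u + w)) k q z =
      fV S H X Y k q (u + z) := by
  unfold fV fT fM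
  simp only [fY_shift]

theorem deriv_aff (f : ℂ → ℂ) (ρ : ℝ) :
    deriv (fun w => f (aff 0 ρ w)) = fun w => ρ * deriv f (aff 0 ρ w) := by
  funext w
  have h3 := deriv_comp_mul_left (ρ : ℂ) f w
  unfold aff
  simp only [zero_add]
  rw [h3, smul_eq_mul]

theorem fY_aff (X Y : ℂ → ℂ) {ρ : ℝ} (hρ : (ρ : ℂ) ≠ 0) (j : ℕ) :
    fY (fun w => X (aff 0 ρ w)) (fun w => Y (aff 0 ρ w)) j = fun z => fY X Y j (aff 0 ρ z) := by
  induction j with
  | zero => rfl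
  | succ j ih =>
    funext z
    change deriv (fY (fun w => X (aff 0 ρ w)) (fun w => Y (aff 0 ρ w)) j) z /
      deriv (fun w => X (aff 0 ρ w)) z = deriv (fY X Y j) (aff 0 ρ z) / deriv X (aff 0 ρ z)
    rw [ih, deriv_aff, deriv_aff, mul_div_mul_left _ _ hρ]

theorem fV_aff (S : Finset (ℕ →₀ ℕ)) (H : (ℕ →₀ ℕ) → ℂ → ℂ) (X Y : ℂ → ℂ) {ρ : ℝ}
    (hρ : (ρ : ℂ) ≠ 0) (k q : ℕ) (z : ℂ) :
    fV S (fun s w => H s (aff 0 ρ w)) (fun w => X (aff 0 ρ w)) (fun w => Y (aff 0 ρ w)) k q z =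
      fV S H X Y k q (aff 0 ρ z) := by
  unfold fV fT fM
  simp only [fY_aff X Y hρ]

variable {l : Filter ℕ} [l.NeBot] {F G : ℕ → ℂ → ℂ} {K : (ℕ →₀ ℕ) → ℕ → ℂ → ℂ}

theorem ch_Y (hX : CH l z F X) (hY : CH l z G Y) (h0 : deriv X z ≠ 0) (j : ℕ) :
    CH l z (fun m => fY (F m) (G m) j) (fY X Y j) := by
  induction j with
  | zero => exact hY
  | succ j ih => exact ih.deriv.div hX.deriv h0

theorem ch_V (hX : CH l z F X) (hY : CH l z G Y) (h0 : deriv X z ≠ 0)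
    (hH : ∀ s ∈ S, CH l z (K s) (H s)) (k q : ℕ) :
    CH l z (fun m => fV S (fun s => K s m) (F m) (G m) k q) (fV S H X Y k q) := by
  refine CH.sum S (F := fun s m x => fT (K s m) s (F m) (G m) k q x)
    (f := fun s x => fT (H s) s X Y k q x) fun s hs => ?_
  exact (((CH.const _).mul (hH s hs)).mul (CH.prod (Finset.range k) fun j _ =>
    (ch_Y hX hY h0 (j + 1)).pow _)).mul ((ch_Y hX hY h0 (k + 1)).pow _)


end

/-! ### expressions -/

/-- polynomials in the derivatives of a function with respect to another one -/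
structure Ex (K : Type) [Field K] [Algebra ℂ K] where
  n : ℕ
  k : ℕ
  S : Finset (ℕ →₀ ℕ)
  h : (ℕ →₀ ℕ) → K
  x : K
  y : K
  alg : AlgebraicIndependent ℂ ![x, y]

variable {n : ℕ} {K : Type} [Field K] [Algebra ℂ K] {y : Fin (n + 1) → K}
  (R : ∀ h : K, Frac y h)

/-- the value of the polynomial -/
noncomputable def gv (σ : Ex K) (q : ℕ) (φ : ℂ → Mat (n + 1)) (z : ℂ) : ℂ :=
  fV σ.S (fun s w => ev R (σ.h s) (φ w)) (fun w => ev R σ.x (φ w)) (fun w => ev R σ.y (φ w))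
    σ.k q z

/-- the coefficients are defined -/
def gg (σ : Ex K) (φ : ℂ → Mat (n + 1)) (z : ℂ) : Prop :=
  ((∀ s ∈ σ.S, good R (σ.h s) (φ z)) ∧ good R σ.x (φ z) ∧ good R σ.y (φ z)) ∧
    deriv (fun w => ev R σ.x (φ w)) z ≠ 0

/-- the differential equation -/
def GEq (σ : Ex K) (c : ℂ) (φ : ℂ → Mat (n + 1)) : Prop :=
  ∀ z, gg R σ φ z → deriv (fun w => ev R σ.x (φ w)) z ^ σ.n * gv R σ 0 φ z = c

/-- the derived differential equation -/
def GEt (σ : Ex K) (q : ℕ) (φ : ℂ → Mat (n + 1)) : Prop :=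
  ∀ z, gg R σ φ z → gv R σ q φ z = 0

variable {φ : ℂ → Mat (n + 1)}

theorem dx_mero_ne (h : Cv y φ) {x : K} (hx : Transcendental ℂ x) :
    ∀ᶠ z in codiscrete ℂ, deriv (fun w => ev R x (φ w)) z ≠ 0 := by
  apply mero_ne (h.mero R x).deriv
  intro h0
  have h1 : MD (h.emb R x) = 0 := by
    rw [Cv.emb_apply, MD_cl, cl_eq_zero]
    exact h0
  obtain ⟨c, hc⟩ := MD_eq_zero h1
  apply hx
  have h2 : x = algebraMap ℂ K c := (h.emb R).toRingHom.injective (by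
    change h.emb R _ = h.emb R _
    rw [hc, (h.emb R).commutes])
  rw [h2]
  exact isAlgebraic_algebraMap _

theorem gg_codis (h : Cv y φ) (σ : Ex K) : ∀ᶠ z in codiscrete ℂ, gg R σ φ z := by
  have h1 : ∀ᶠ z in codiscrete ℂ, ∀ s ∈ σ.S, good R (σ.h s) (φ z) := by
    rw [Filter.eventually_all_finset]
    exact fun s _ => h.good R _
  filter_upwards [h1, h.good R σ.x, h.good R σ.y, dx_mero_ne R h (σ.alg.transcendental 0)]
    with z h1 h2 h3 h4 using ⟨⟨h1, h2, h3⟩, h4⟩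

theorem gv_mero (h : Cv y φ) (σ : Ex K) (q : ℕ) : Meromorphic (gv R σ q φ) :=
  fV_mero (h.mero R _) (h.mero R _) (fun s => h.mero R _) _ _

theorem gv_an (h : Cv y φ) {σ : Ex K} (q : ℕ) {z : ℂ} (hz : gg R σ φ z) :
    AnalyticAt ℂ (gv R σ q φ) z :=
  fV_an (h.an R hz.1.2.1) (h.an R hz.1.2.2) hz.2 (fun s hs => h.an R (hz.1.1 s hs)) _ _

theorem gv_shift (σ : Ex K) (q : ℕ) (φ : ℂ → Mat (n + 1)) (u z : ℂ) :
    gv R σ q (fun w => φ (u + w)) z = gv R σ q φ (u + z) :=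
  fV_shift σ.S (fun s w => ev R (σ.h s) (φ w)) (fun w => ev R σ.x (φ w))
    (fun w => ev R σ.y (φ w)) u σ.k q z

theorem dx_shift (x : K) (φ : ℂ → Mat (n + 1)) (u z : ℂ) :
    deriv (fun w => ev R x (φ (u + w))) z = deriv (fun w => ev R x (φ w)) (u + z) :=
  congrFun (deriv_shift (fun w => ev R x (φ w)) u) z

theorem gg_shift {σ : Ex K} {φ : ℂ → Mat (n + 1)} {u z : ℂ} (h : gg R σ (fun w => φ (u + w)) z) :
    gg R σ φ (u + z) := by
  obtain ⟨h1, h2⟩ := h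
  rw [dx_shift] at h2
  exact ⟨h1, h2⟩

theorem GEq.shift {σ : Ex K} {c : ℂ} (h : GEq R σ c φ) (u : ℂ) :
    GEq R σ c (fun w => φ (u + w)) := by
  intro z hz
  rw [gv_shift, dx_shift]
  exact h (u + z) (gg_shift R hz)

theorem GEt.shift {σ : Ex K} {q : ℕ} (h : GEt R σ q φ) (u : ℂ) :
    GEt R σ q (fun w => φ (u + w)) := by
  intro z hz
  rw [gv_shift]
  exact h (u + z) (gg_shift R hz)

/-! ### limits -/

theorem ch_ev {l : Filter ℕ} [l.NeBot] {P : ℕ → ℂ → Mat (n + 1)}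
    (hc : CConv l univ P φ) (hP : ∀ m, HolP univ (P m)) (hφ : HolP univ φ) {f : K} {z : ℂ}
    (hz : good R f (φ z)) : CH l z (fun m w => ev R f (P m w)) (fun w => ev R f (φ w)) := by
  have hcont : Continuous φ := continuous_iff_continuousAt.2 fun _ => hφ.continuousAt (mem_univ _)
  have hU : IsOpen {w | nz (R f).G0 (φ w)} := (isOpen_nz _).preimage hcont
  exact CH.of_cc hU hz (cc_qv hc) (fun z hz => cc_diff hc hP (R f).h1 (R f).h0 hz)

theorem good_ev {l : Filter ℕ} {P : ℕ → ℂ → Mat (n + 1)}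
    (hc : CConv l univ P φ) {f : K} {z : ℂ} (hz : good R f (φ z)) :
    ∀ᶠ p : ℕ × ℂ in l ×ˢ 𝓝 z, good R f (P p.1 p.2) :=
  (hc z (mem_univ z)).eventually ((isOpen_good R f).mem_nhds hz)

theorem gg_lim {l : Filter ℕ} [l.NeBot] {P : ℕ → ℂ → Mat (n + 1)}
    (hc : CConv l univ P φ) (hP : ∀ m, HolP univ (P m)) (hφ : HolP univ φ) {σ : Ex K}
    {z : ℂ} (hz : gg R σ φ z) : ∀ᶠ p : ℕ × ℂ in l ×ˢ 𝓝 z, gg R σ (P p.1) p.2 := by
  have h1 : ∀ᶠ p : ℕ × ℂ in l ×ˢ 𝓝 z, ∀ s ∈ σ.S, good R (σ.h s) (P p.1 p.2) := by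
    rw [Filter.eventually_all_finset]
    exact fun s hs => good_ev R hc (hz.1.1 s hs)
  filter_upwards [h1, good_ev R hc hz.1.2.1, good_ev R hc hz.1.2.2,
    (ch_ev R hc hP hφ hz.1.2.1).deriv.ne hz.2] with p k1 k2 k3 k4 using ⟨⟨k1, k2, k3⟩, k4⟩

theorem gv_lim {l : Filter ℕ} [l.NeBot] {P : ℕ → ℂ → Mat (n + 1)}
    (hc : CConv l univ P φ) (hP : ∀ m, HolP univ (P m)) (hφ : HolP univ φ) {σ : Ex K} (q : ℕ)
    {z : ℂ} (hz : gg R σ φ z) : CH l z (fun m => gv R σ q (P m)) (gv R σ q φ) :=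
  ch_V (ch_ev R hc hP hφ hz.1.2.1) (ch_ev R hc hP hφ hz.1.2.2) hz.2
    (fun s hs => ch_ev R hc hP hφ (hz.1.1 s hs)) _ _

theorem eq_lim {l : Filter ℕ} [l.NeBot] {F : ℕ → ℂ → ℂ} {f : ℂ → ℂ} {z c : ℂ} (h : CH l z F f)
    (he : ∀ᶠ p : ℕ × ℂ in l ×ˢ 𝓝 z, F p.1 p.2 = c) : f z = c := by
  have h3 := h.congr' (G := fun _ _ => c) he
  exact (CH.unique h3 (CH.const c)).self_of_nhds

/-- the differential equation is closed -/
theorem GEq.lim {l : Filter ℕ} [l.NeBot] {P : ℕ → ℂ → Mat (n + 1)}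
    (hc : CConv l univ P φ) (hP : ∀ m, HolP univ (P m)) (hφ : HolP univ φ) {σ : Ex K} {c : ℂ}
    (h : ∀ m, GEq R σ c (P m)) : GEq R σ c φ := by
  intro z hz
  refine eq_lim (f := fun z => deriv (fun w => ev R σ.x (φ w)) z ^ σ.n * gv R σ 0 φ z)
    (((ch_ev R hc hP hφ hz.1.2.1).deriv.pow σ.n).mul (gv_lim R hc hP hφ 0 hz)) ?_
  filter_upwards [gg_lim R hc hP hφ hz] with p hp using h p.1 p.2 hp

theorem GEt.lim {l : Filter ℕ} [l.NeBot] {P : ℕ → ℂ → Mat (n + 1)}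
    (hc : CConv l univ P φ) (hP : ∀ m, HolP univ (P m)) (hφ : HolP univ φ) {σ : Ex K} {q : ℕ}
    (h : ∀ m, GEt R σ q (P m)) : GEt R σ q φ := by
  intro z hz
  refine eq_lim (f := gv R σ q φ) (gv_lim R hc hP hφ q hz) ?_
  filter_upwards [gg_lim R hc hP hφ hz] with p hp using h p.1 p.2 hp

theorem GEt.of_codis (h : Cv y φ) {σ : Ex K} {q : ℕ}
    (h0 : ∀ᶠ z in codiscrete ℂ, gv R σ q φ z = 0) : GEt R σ q φ := fun z hz =>
  eq_of_codis h0 (gv_an R h q hz).continuousAt continuousAt_const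

theorem gx_an (h : Cv y φ) {σ : Ex K} {z : ℂ} (hz : gg R σ φ z) :
    AnalyticAt ℂ (fun z => deriv (fun w => ev R σ.x (φ w)) z ^ σ.n * gv R σ 0 φ z) z :=
  ((h.an R hz.1.2.1).deriv.pow _).mul (gv_an R h 0 hz)

theorem GEq.of_codis (h : Cv y φ) {σ : Ex K} {c : ℂ}
    (h0 : ∀ᶠ z in codiscrete ℂ, deriv (fun w => ev R σ.x (φ w)) z ^ σ.n * gv R σ 0 φ z = c) :
    GEq R σ c φ := fun z hz =>
  eq_of_codis h0 (gx_an R h hz).continuousAt continuousAt_const

end Pool.Agent.L7h90.JG
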