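import Pool.Agent.L7h90.JG.Reg
import Pool.Agent.L7h90.JG.Crv
import Pool.Agent.L7h90.WR.Bnd

/-! Regular invariant differential expressions are constant on curves of bounded derivative. -/

set_option autoImplicit false
set_option linter.unusedSectionVars false

open Filter Topology Set Metric MvPolynomial FF

namespace Pool.Agent.L7h90.JG

open Pool.Agent.N155 Pool.Agent.Y190.OP Pool.Agent.W602.GT Pool.Agent.TH143.GT
open Pool.Agent.L7h90.WR

/-! ### classes -/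

theorem iter_mero {f : ℂ → ℂ} (hf : Meromorphic f) (j : ℕ) : Meromorphic (iteratedDeriv j f) := by
  induction j with
  | zero =>
    rw [iteratedDeriv_zero]
    exact hf
  | succ j ih =>
    rw [iteratedDeriv_succ]
    exact ih.deriv

theorem MD_iter {f : ℂ → ℂ} (hf : Meromorphic f) (j : ℕ) :
    MD^[j] (cl f hf) = cl (iteratedDeriv j f) (iter_mero hf j) := by
  induction j with
  | zero =>
    rw [Function.iterate_zero, id_eq, cl_eq]
    exact Eventually.of_forall fun z => by rw [iteratedDeriv_zero]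
  | succ j ih =>
    rw [Function.iterate_succ_apply', ih, MD_cl, cl_eq]
    exact Eventually.of_forall fun z => by rw [iteratedDeriv_succ]

theorem dY_cl {X Y : ℂ → ℂ} (hX : Meromorphic X) (hY : Meromorphic Y) (j : ℕ) :
    (fun c => (MD (cl X hX))⁻¹ * MD c)^[j] (cl Y hY) = cl (fY X Y j) (fY_mero hX hY j) := by
  induction j with
  | zero => rfl
  | succ j ih =>
    rw [Function.iterate_succ_apply', ih]
    rw [MD_cl, MD_cl, cl_inv, cl_mul, cl_eq]
    refine Eventually.of_forall fun z => ?_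
    change (deriv X z)⁻¹ * deriv (fY X Y j) z = deriv (fY X Y j) z / deriv X z
    rw [div_eq_mul_inv, mul_comm]

theorem iter_codis {f g : ℂ → ℂ} (h : ∀ᶠ z in codiscrete ℂ, f z = g z) (j : ℕ) :
    ∀ᶠ z in codiscrete ℂ, iteratedDeriv j f z = iteratedDeriv j g z := by
  induction j with
  | zero =>
    rw [iteratedDeriv_zero, iteratedDeriv_zero]
    exact h
  | succ j ih =>
    rw [iteratedDeriv_succ, iteratedDeriv_succ]
    exact deriv_codis ih

variable {n : ℕ} {K : Type} [Field K] [Algebra ℂ K] {y : Fin (n + 1) → K}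
  (R : ∀ h : K, Frac y h) {φ : ℂ → Mat (n + 1)} {ι : Type}

/-- the value of a polynomial on the curve -/
noncomputable def mv (p : MvPolynomial ι K) (F : ι → ℂ → ℂ) (φ : ℂ → Mat (n + 1)) (z : ℂ) : ℂ :=
  ∑ s ∈ p.support, ev R (p.coeff s) (φ z) * ∏ i ∈ s.support, F i z ^ s i

theorem mv_term (h : Cv y φ) (p : MvPolynomial ι K) {F : ι → ℂ → ℂ} (hF : ∀ i, Meromorphic (F i))
    (s : ι →₀ ℕ) :
    Meromorphic (fun z => ev R (p.coeff s) (φ z) * ∏ i ∈ s.support, F i z ^ s i) :=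
  (h.mero R _).mul (mero_prod' _ fun i z => (hF i z).pow _)

theorem mv_mero (h : Cv y φ) (p : MvPolynomial ι K) {F : ι → ℂ → ℂ}
    (hF : ∀ i, Meromorphic (F i)) : Meromorphic (mv R p F φ) :=
  mero_sum' _ fun s => mv_term R h p hF s

theorem cl_mv (h : Cv y φ) (p : MvPolynomial ι K) {F : ι → ℂ → ℂ}
    (hF : ∀ i, Meromorphic (F i)) : eval₂ (h.emb R : K →+* MK) (fun i => cl (F i) (hF i)) p =
      cl (mv R p F φ) (mv_mero R h p hF) := by
  rw [eval₂_eq]
  have h1 : ∀ s : ι →₀ ℕ, cl _ (mv_term R h p hF s) =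
      (h.emb R : K →+* MK) (p.coeff s) * ∏ i ∈ s.support, cl (F i) (hF i) ^ s i := by
    intro s
    have h2 : ∏ i ∈ s.support, cl (F i) (hF i) ^ s i =
        cl (fun z => ∏ i ∈ s.support, F i z ^ s i)
          (N155.mero_prod' _ fun i z => (hF i z).pow _) := by
      rw [cl_prod s.support (f := fun i z => F i z ^ s i) fun i z => (hF i z).pow _]
      refine Finset.prod_congr rfl fun i _ => ?_
      rw [cl_pow']
    rw [h2]
    change _ = h.emb R (p.coeff s) * _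
    rw [Cv.emb_apply, cl_mul]
    rfl
  rw [← Finset.sum_congr rfl fun s _ => h1 s, ← cl_sum]
  rfl

/-- the value of the differential expression on the curve -/
noncomputable def kc (h : Cv y φ) (p : MvPolynomial (K × ℕ) K) : MK :=
  eval₂ (h.emb R : K →+* MK) (fun i : K × ℕ => MD^[i.2 + 1] (h.emb R i.1)) p

/-- the value of the differential expression on the curve, as a function -/
noncomputable def pv (p : MvPolynomial (K × ℕ) K) (φ : ℂ → Mat (n + 1)) : ℂ → ℂ :=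
  mv R p (fun i z => iteratedDeriv (i.2 + 1) (fun w => ev R i.1 (φ w)) z) φ

theorem pv_mero (h : Cv y φ) (p : MvPolynomial (K × ℕ) K) : Meromorphic (pv R p φ) :=
  mv_mero R h p fun i => iter_mero (h.mero R i.1) (i.2 + 1)

theorem kc_pv (h : Cv y φ) (p : MvPolynomial (K × ℕ) K) :
    kc R h p = cl (pv R p φ) (pv_mero R h p) := by
  have hF : ∀ i : K × ℕ, Meromorphic fun z =>
      iteratedDeriv (i.2 + 1) (fun w => ev R i.1 (φ w)) z := fun i =>
    iter_mero (h.mero R i.1) (i.2 + 1)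
  have h1 : (fun i : K × ℕ => MD^[i.2 + 1] (h.emb R i.1)) = fun i => cl _ (hF i) := by
    funext i
    rw [Cv.emb_apply, MD_iter]
  unfold kc
  rw [h1, cl_mv]
  rfl

theorem kc_app (h : Cv y φ) (p : MvPolynomial (K × ℕ) K) :
    letI : Algebra K MK := (h.emb R).toRingHom.toAlgebra
    app p MDer = kc R h p := rfl

theorem kc_loc (h : Cv y φ) {x : Fin 2 → K} {E : Fin 2 → Derivation ℂ K K} (hx : Dual x E)
    (p : MvPolynomial (K × ℕ) K) : kc R h p = eval₂ (h.emb R : K →+* MK)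
      (fun v : Fin 2 × ℕ => MD^[v.2 + 1] (h.emb R (x v.1))) (app p (dj E)) := by
  let _ : Algebra K MK := (h.emb R).toRingHom.toAlgebra
  have _ : IsScalarTower ℂ K MK := IsScalarTower.of_algebraMap_eq fun c => by
    change algebraMap ℂ MK c = h.emb R (algebraMap ℂ K c)
    rw [(h.emb R).commutes]
  exact (ep_app hx MDer p).symm

theorem kc_nf (h : Cv y φ) {x : Fin 2 → K} {E : Fin 2 → Derivation ℂ K K} (hx : Dual x E)
    (σ : Jet K) (h0 : MD (h.emb R (x 0)) ≠ 0) : kc R h σ.p = MD (h.emb R (x 0)) ^ σ.m *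
      eval₂ (h.emb R : K →+* MK)
        (fun i : ℕ => (fun c => (MD (h.emb R (x 0)))⁻¹ * MD c)^[i + 1] (h.emb R (x 1)))
        (nf (app σ.p (dj E))) := by
  let _ : Algebra K MK := (h.emb R).toRingHom.toAlgebra
  have _ : IsScalarTower ℂ K MK := IsScalarTower.of_algebraMap_eq fun c => by
    change algebraMap ℂ MK c = h.emb R (algebraMap ℂ K c)
    rw [(h.emb R).commutes]
  exact app_nf hx σ MDer h0

/-! ### the normal form -/

/-- the differential expression in terms of the derivatives of the second coordinate with respect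
to the first one -/
noncomputable def Jet.ex (σ : Jet K) {x : Fin 2 → K} {E : Fin 2 → Derivation ℂ K K}
    (hx : Dual x E) : Ex K where
  n := σ.m
  k := (nf (app σ.p (dj E))).support.sup fun s => s.support.sup id
  S := (nf (app σ.p (dj E))).support
  h := (nf (app σ.p (dj E))).coeff
  x := x 0
  y := x 1
  alg := by
    have h2 : ![x 0, x 1] = x := by
      funext i
      fin_cases i <;> rfl
    rw [h2]
    exact hx.1.1

theorem gv_ex (σ : Jet K) {x : Fin 2 → K} {E : Fin 2 → Derivation ℂ K K}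
    (hx : Dual x E) (φ : ℂ → Mat (n + 1)) (z : ℂ) : gv R (σ.ex hx) 0 φ z =
      mv R (nf (app σ.p (dj E))) (fun i => fY (fun w => ev R (x 0) (φ w))
        (fun w => ev R (x 1) (φ w)) (i + 1)) φ z := by
  unfold gv fV mv
  refine Finset.sum_congr rfl fun s hs => ?_
  unfold fT fM
  rw [Nat.descFactorial_zero, Nat.cast_one, one_mul, Nat.sub_zero, mul_assoc]
  congr 1
  rw [← Finset.prod_range_succ (fun j => fY (fun w => ev R (σ.ex hx).x (φ w))
    (fun w => ev R (σ.ex hx).y (φ w)) (j + 1) z ^ s j)]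
  symm
  apply Finset.prod_subset
  · intro i hi
    rw [Finset.mem_range, Nat.lt_succ_iff]
    exact (Finset.le_sup (f := id) hi).trans
      (Finset.le_sup (f := fun s : ℕ →₀ ℕ => s.support.sup id) hs)
  · intro i _ hi
    rw [Finsupp.notMem_support_iff.1 hi, pow_zero]

/-- the class of the normal form -/
theorem kc_ex (h : Cv y φ) (σ : Jet K) {x : Fin 2 → K} {E : Fin 2 → Derivation ℂ K K}
    (hx : Dual x E) (hm : Meromorphic fun z => deriv (fun w => ev R (σ.ex hx).x (φ w)) z ^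
      (σ.ex hx).n * gv R (σ.ex hx) 0 φ z) : kc R h σ.p = cl _ hm := by
  have hX : MD (h.emb R (x 0)) ≠ 0 := by
    intro h1
    obtain ⟨c, hc⟩ := MD_eq_zero h1
    apply hx.1.1.transcendental 0
    have h2 : x 0 = algebraMap ℂ K c := (h.emb R).toRingHom.injective (by
      change h.emb R _ = h.emb R _
      rw [hc, (h.emb R).commutes])
    rw [h2]
    exact isAlgebraic_algebraMap _
  have hF : ∀ i : ℕ, Meromorphic (fY (fun w => ev R (x 0) (φ w)) (fun w => ev R (x 1) (φ w))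
      (i + 1)) := fun i => fY_mero (h.mero R _) (h.mero R _) (i + 1)
  have h2 : (fun i : ℕ => (fun c => (MD (h.emb R (x 0)))⁻¹ * MD c)^[i + 1] (h.emb R (x 1))) =
      fun i => cl _ (hF i) := funext fun i => dY_cl (h.mero R _) (h.mero R _) (i + 1)
  rw [kc_nf R h hx σ hX, h2, cl_mv, Cv.emb_apply, MD_cl, cl_pow', cl_mul, cl_eq]
  refine Eventually.of_forall fun z => ?_
  rw [gv_ex]
  rfl

/-! ### bounds -/

/-- bounds for the derivatives of a coordinate -/
theorem iter_qv (hol : HolP univ φ) (hB : ∀ z, ‖fderiv ℝ φ z‖ ≤ 2) {i j : Fin (n + 1)}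
    {M0 : Mat (n + 1)} {δ : ℝ} (hδ : 0 < δ) {C : ℝ} (hC : 0 ≤ C)
    (hL : ∀ M ∈ ball M0 (2 * δ), ∀ M' ∈ ball M0 (2 * δ),
      ‖qv (X j) (X i) M - qv (X j) (X i) M'‖ ≤ C * ‖M - M'‖)
    (hnz : ∀ M ∈ ball M0 (2 * δ), nz (X i) M) {z : ℂ} (hz : φ z ∈ ball M0 δ) (m : ℕ) :
    ‖iteratedDeriv (m + 1) (fun w => qv (X j) (X i) (φ w)) z‖ ≤
      m.factorial * (C * 2) / (δ / 4) ^ m := by
  have hlip : ∀ w, ‖φ w - φ z‖ ≤ 2 * ‖w - z‖ := fun w =>
    (convex_univ).norm_image_sub_le_of_norm_fderiv_le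
      (fun x _ => hol.differentiableAt (mem_univ x)) (fun x _ => hB x) (mem_univ z) (mem_univ w)
  have hmem : ∀ w ∈ ball z (δ / 2), φ w ∈ ball M0 (2 * δ) := by
    intro w hw
    rw [mem_ball, dist_eq_norm] at hw hz ⊢
    have h1 := hlip w
    have h2 := norm_add_le (φ w - φ z) (φ z - M0)
    rw [sub_add_sub_cancel] at h2
    linarith
  have hdiff : DifferentiableOn ℂ (fun w => qv (X j) (X i) (φ w)) (ball z (δ / 2)) :=
    fun w hw => (an_qv hol (mem_univ w) (isHomogeneous_X ℂ j) (isHomogeneous_X ℂ i)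
      (hnz _ (hmem w hw))).differentiableAt.differentiableWithinAt
  have hsub : closedBall z (δ / 4) ⊆ ball z (δ / 2) := closedBall_subset_ball (by linarith)
  rw [iteratedDeriv_succ']
  apply Complex.norm_iteratedDeriv_le_of_forall_mem_sphere_norm_le m (by positivity)
  · exact (((hdiff.deriv isOpen_ball).mono hsub)).diffContOnCl_ball (subset_refl _)
  · intro w hw
    refine (deriv_qv hol isOpen_ball hC hL hnz (hmem w (hsub (sphere_subset_closedBall hw)))).trans ?_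
    exact mul_le_mul_of_nonneg_left (hB w) hC

theorem prod_le (s : ι →₀ ℕ) {a : ι → ℝ} (ha : ∀ i, 0 ≤ a i) {B : ℝ} (hB : 1 ≤ B)
    (hab : ∀ i ∈ s.support, a i ≤ B) {i0 : ι} (h0 : s i0 ≠ 0) {e : ℝ} (he : 0 ≤ e)
    (hi0 : a i0 ≤ e) : ∏ i ∈ s.support, a i ^ s i ≤ e * ∏ i ∈ s.support, B ^ s i := by
  classical
  have hmem : i0 ∈ s.support := Finsupp.mem_support_iff.2 h0
  rw [← Finset.mul_prod_erase s.support (fun i => a i ^ s i) hmem,
    ← Finset.mul_prod_erase s.support (fun i => B ^ s i) hmem, ← mul_assoc]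
  have hB0 : 0 ≤ B := by linarith
  apply mul_le_mul
  · obtain ⟨N, hN⟩ : ∃ N, s i0 = N + 1 := ⟨s i0 - 1, by omega⟩
    rw [hN, pow_succ, pow_succ]
    have h1 : a i0 ^ N ≤ B ^ N := pow_le_pow_left₀ (ha i0) (hab i0 hmem) N
    have h2 : a i0 ^ N * a i0 ≤ B ^ N * e :=
      mul_le_mul h1 hi0 (ha i0) (pow_nonneg hB0 N)
    have h3 : B ^ N * e ≤ e * (B ^ N * B) := by
      have h4 : 0 ≤ e * B ^ N := mul_nonneg he (pow_nonneg hB0 N)
      nlinarith
    exact h2.trans h3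
  · refine Finset.prod_le_prod (fun i _ => pow_nonneg (ha i) _) fun i hi => ?_
    exact pow_le_pow_left₀ (ha i) (hab i (Finset.mem_of_mem_erase hi)) _
  · exact Finset.prod_nonneg fun i _ => pow_nonneg (ha i) _
  · exact mul_nonneg he (pow_nonneg hB0 _)

/-- the value in local coordinates, as a function -/
theorem pv_loc (h : Cv y φ) {i : Fin (n + 1)} {c : Fin 2 → Fin (n + 1)} (hi : y i ≠ 0)
    {E : Fin 2 → Derivation ℂ K K} (hx : Dual (fun a => y (c a) / y i) E)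
    (p : MvPolynomial (K × ℕ) K) : ∀ᶠ z in codiscrete ℂ, pv R p φ z =
      ∑ s ∈ (app p (dj E)).support, ev R ((app p (dj E)).coeff s) (φ z) *
        ∏ v ∈ s.support, iteratedDeriv (v.2 + 1) (fun w => qv (X (c v.1)) (X i) (φ w)) z ^ s v := by
  have hq : ∀ l : Fin (n + 1), ∀ᶠ z in codiscrete ℂ, ev R (y l / y i) (φ z) =
      qv (X l) (X i) (φ z) := by
    intro l
    have h2 : ∀ᶠ z in codiscrete ℂ, nz (X i) (φ z) :=
      h.nz ⟨1, isHomogeneous_X _ _⟩ (by rwa [val_X'])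
    filter_upwards [h.good R (y l / y i), h2] with z z1 z2
    exact ev_ratio R l hi (h.mem z) z1 z2
  have hF : ∀ v : Fin 2 × ℕ, Meromorphic fun z =>
      iteratedDeriv (v.2 + 1) (fun w => ev R (y (c v.1) / y i) (φ w)) z := fun v =>
    iter_mero (h.mero R _) (v.2 + 1)
  have h1 := kc_loc R h hx p
  have h2 : (fun v : Fin 2 × ℕ => MD^[v.2 + 1] (h.emb R (y (c v.1) / y i))) = fun v =>
      cl _ (hF v) := by
    funext v
    rw [Cv.emb_apply, MD_iter]
  have h3 : kc R h p = eval₂ (h.emb R : K →+* MK)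
      (fun v : Fin 2 × ℕ => MD^[v.2 + 1] (h.emb R (y (c v.1) / y i))) (app p (dj E)) := h1
  rw [h2, cl_mv, kc_pv, cl_eq] at h3
  have h4 : ∀ᶠ z in codiscrete ℂ, ∀ s ∈ (app p (dj E)).support, ∀ v ∈ s.support,
      iteratedDeriv (v.2 + 1) (fun w => ev R (y (c v.1) / y i) (φ w)) z =
        iteratedDeriv (v.2 + 1) (fun w => qv (X (c v.1)) (X i) (φ w)) z := by
    rw [Filter.eventually_all_finset]
    intro s _
    rw [Filter.eventually_all_finset]
    exact fun v _ => iter_codis (hq _) _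
  filter_upwards [h3, h4] with z z1 z2
  rw [z1]
  unfold mv
  refine Finset.sum_congr rfl fun s hs => ?_
  congr 1
  refine Finset.prod_congr rfl fun v hv => ?_
  exact congrArg (· ^ s v) (z2 s hs v hv)

/-- **The local bound.** -/
theorem pv_bd {M0 : Mat (n + 1)} (hLB : LBa R M0) {σ : Jet K}
    (hreg : σ.Regular 2) : ∃ O : Set (Mat (n + 1)), IsOpen O ∧ M0 ∈ O ∧ ∃ C : ℝ, 0 ≤ C ∧
      ∀ φ : ℂ → Mat (n + 1), Cv y φ → (∀ z, ‖fderiv ℝ φ z‖ ≤ 2) → ∀ᶠ z in codiscrete ℂ,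
        φ z ∈ O → ‖pv R σ.p φ z‖ ≤ C * ‖fderiv ℝ φ z‖ := by
  obtain ⟨i, j, k, E, hyi, hnzi, hdual, hbd⟩ := hLB
  set r := app σ.p (dj E) with hr
  set c : Fin 2 → Fin (n + 1) := ![j, k] with hc
  have hcx : (fun a => y (c a) / y i) = ![y j / y i, y k / y i] := by
    funext a
    fin_cases a <;> rfl
  have hdual' : Dual (fun a => y (c a) / y i) E := by rwa [hcx]
  have hq : ∀ s : Fin 2 × ℕ →₀ ℕ, ∃ O ∈ 𝓝 M0, ∃ C : ℝ, ∀ M ∈ O ∩ TX y,
      N155.good R (r.coeff s) M → ‖ev R (r.coeff s) M‖ ≤ C := fun s =>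
    hbd _ fun v hv hcc hE => JG.reg_coeff (hreg v hv) hdual hE (hcc j) s
  choose O hO C hC using hq
  obtain ⟨L0, O2, hL0, hO2, hLip0⟩ := lip_qv (G1 := X j) hnzi
  obtain ⟨L1, O3, hL1, hO3, hLip1⟩ := lip_qv (G1 := X k) hnzi
  have hnb : {M : Mat (n + 1) | nz (X i) M} ∈ 𝓝 M0 := (isOpen_nz (X i)).mem_nhds hnzi
  have hOs : (⋂ s ∈ r.support, O s) ∈ 𝓝 M0 :=
    (Filter.biInter_finset_mem _).2 fun s _ => hO s
  obtain ⟨δ2, hδ2, hsub⟩ := Metric.mem_nhds_iff.1
    (inter_mem hOs (inter_mem (inter_mem hO2 hO3) hnb))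
  set δ : ℝ := δ2 / 2 with hδdef
  have hδ : 0 < δ := by positivity
  have h2δ : 2 * δ = δ2 := by rw [hδdef]; ring
  rw [← h2δ] at hsub
  set L : ℝ := L0 + L1 with hL
  have hL0' : 0 ≤ L := add_nonneg hL0 hL1
  set A : ℕ → ℝ := fun m => m.factorial * (L * 2) / (δ / 4) ^ m with hA
  have hA0 : ∀ m, 0 ≤ A m := fun m => by
    rw [hA]
    positivity
  set B : ℝ := 1 + ∑ s ∈ r.support, ∑ v ∈ s.support, A v.2 with hB
  have hS0 : 0 ≤ ∑ s ∈ r.support, ∑ v ∈ s.support, A v.2 :=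
    Finset.sum_nonneg fun s _ => Finset.sum_nonneg fun v _ => hA0 _
  have hB1 : 1 ≤ B := by linarith
  have hAB : ∀ s ∈ r.support, ∀ v ∈ s.support, A v.2 ≤ B := by
    intro s hs v hv
    have h1 : A v.2 ≤ ∑ v ∈ s.support, A v.2 :=
      Finset.single_le_sum (f := fun v : Fin 2 × ℕ => A v.2) (fun v _ => hA0 _) hv
    have h2 : ∑ v ∈ s.support, A v.2 ≤ ∑ s ∈ r.support, ∑ v ∈ s.support, A v.2 :=
      Finset.single_le_sum (f := fun s : Fin 2 × ℕ →₀ ℕ => ∑ v ∈ s.support, A v.2)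
        (fun s _ => Finset.sum_nonneg fun v _ => hA0 _) hs
    linarith
  set CC : ℝ := ∑ s ∈ r.support, |C s| * (L * ∏ v ∈ s.support, B ^ s v) with hCC
  have hP0 : ∀ s : Fin 2 × ℕ →₀ ℕ, 0 ≤ ∏ v ∈ s.support, B ^ s v := fun s =>
    Finset.prod_nonneg fun v _ => pow_nonneg (by linarith) _
  have hCC0 : 0 ≤ CC := Finset.sum_nonneg fun s _ =>
    mul_nonneg (abs_nonneg _) (mul_nonneg hL0' (hP0 s))
  refine ⟨ball M0 δ, isOpen_ball, mem_ball_self hδ, CC, hCC0, fun φ h hB2 => ?_⟩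
  have hLc : ∀ a : Fin 2, ∀ M ∈ ball M0 (2 * δ), ∀ M' ∈ ball M0 (2 * δ),
      ‖qv (X (c a)) (X i) M - qv (X (c a)) (X i) M'‖ ≤ L * ‖M - M'‖ := by
    intro a M hM M' hM'
    fin_cases a
    · exact (hLip0 M (hsub hM).2.1.1 M' (hsub hM').2.1.1).trans
        (mul_le_mul_of_nonneg_right (by rw [hL]; linarith) (norm_nonneg _))
    · exact (hLip1 M (hsub hM).2.1.2 M' (hsub hM').2.1.2).trans
        (mul_le_mul_of_nonneg_right (by rw [hL]; linarith) (norm_nonneg _))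
  have hnz' : ∀ M ∈ ball M0 (2 * δ), nz (X i) M := fun M hM => (hsub hM).2.2
  have hXX := pv_loc R h hyi hdual' σ.p
  have hall : ∀ᶠ z in codiscrete ℂ, ∀ s ∈ r.support, N155.good R (r.coeff s) (φ z) := by
    rw [Filter.eventually_all_finset]
    exact fun s _ => h.good R _
  filter_upwards [hXX, hall] with z hz1 hz2 hzO
  have hz' : φ z ∈ ball M0 (2 * δ) := ball_subset_ball (by linarith) hzO
  rw [hz1]
  refine (norm_sum_le _ _).trans ?_
  rw [hCC, Finset.sum_mul]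
  refine Finset.sum_le_sum fun s hs => ?_
  rw [norm_mul, norm_prod]
  have e1 : ‖ev R (r.coeff s) (φ z)‖ ≤ |C s| :=
    (hC s (φ z) ⟨mem_iInter₂.1 (hsub hz').1 s hs, h.mem z⟩ (hz2 s hs)).trans (le_abs_self _)
  have hf0 : 0 ≤ ‖fderiv ℝ φ z‖ := norm_nonneg _
  have hLf : 0 ≤ L * ‖fderiv ℝ φ z‖ := mul_nonneg hL0' hf0
  obtain ⟨a, ha⟩ : ∃ a : Fin 2, s (a, 0) ≠ 0 := by
    rcases app_mem (E := E) σ s hs with h1 | h1
    · exact ⟨0, h1⟩
    · exact ⟨1, h1⟩
  have e2 : ∏ v ∈ s.support, ‖iteratedDeriv (v.2 + 1)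
      (fun w => qv (X (c v.1)) (X i) (φ w)) z ^ s v‖ ≤
      L * ‖fderiv ℝ φ z‖ * ∏ v ∈ s.support, B ^ s v := by
    simp only [norm_pow]
    refine prod_le s (a := fun v : Fin 2 × ℕ => ‖iteratedDeriv (v.2 + 1)
      (fun w => qv (X (c v.1)) (X i) (φ w)) z‖) (fun _ => norm_nonneg _) hB1 (fun v hv => ?_)
      (i0 := (a, 0)) ha hLf ?_
    · exact (iter_qv h.hol hB2 hδ hL0' (hLc v.1) hnz' hzO v.2).trans (hAB s hs v hv)
    · change ‖iteratedDeriv (0 + 1) (fun w => qv (X (c a)) (X i) (φ w)) z‖ ≤ _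
      rw [zero_add, iteratedDeriv_one]
      exact deriv_qv h.hol isOpen_ball hL0' (hLc a) hnz' hz'
  exact (mul_le_mul e1 e2 (Finset.prod_nonneg fun _ _ => norm_nonneg _)
    (abs_nonneg _)).trans (le_of_eq (by ring))

/-- **The global bound.** -/
theorem pv_bd' {S : Set (Mat (n + 1))} (hS : IsCompact S) (hLB : ∀ M ∈ S, LBa R M) {σ : Jet K}
    (hreg : σ.Regular 2) : ∃ C : ℝ, 0 ≤ C ∧
      ∀ φ : ℂ → Mat (n + 1), Cv y φ → (∀ z, ‖fderiv ℝ φ z‖ ≤ 2) → ∀ᶠ z in codiscrete ℂ,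
        φ z ∈ S → ‖pv R σ.p φ z‖ ≤ C * ‖fderiv ℝ φ z‖ := by
  refine hS.induction_on (p := fun S => ∃ C : ℝ, 0 ≤ C ∧
      ∀ φ : ℂ → Mat (n + 1), Cv y φ → (∀ z, ‖fderiv ℝ φ z‖ ≤ 2) → ∀ᶠ z in codiscrete ℂ,
        φ z ∈ S → ‖pv R σ.p φ z‖ ≤ C * ‖fderiv ℝ φ z‖) ?_ ?_ ?_ ?_
  · exact ⟨0, le_rfl, fun φ h _ => Eventually.of_forall fun z hz => absurd hz (by simp)⟩
  · rintro S S' hSS ⟨C, hC, h⟩
    refine ⟨C, hC, fun φ hφ hb => ?_⟩
    filter_upwards [h φ hφ hb] with z hz hzS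
    exact hz (hSS hzS)
  · rintro S S' ⟨C, hC, h⟩ ⟨C', hC', h'⟩
    refine ⟨max C C', hC.trans (le_max_left _ _), fun φ hφ hb => ?_⟩
    filter_upwards [h φ hφ hb, h' φ hφ hb] with z hz hz' hzS
    rcases hzS with hzS | hzS
    · exact (hz hzS).trans (mul_le_mul_of_nonneg_right (le_max_left _ _) (by positivity))
    · exact (hz' hzS).trans (mul_le_mul_of_nonneg_right (le_max_right _ _) (by positivity))
  · intro M0 hM0
    obtain ⟨O, hO, hM0O, C, hC, h⟩ := pv_bd R (hLB M0 hM0) hreg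
    exact ⟨O, mem_nhdsWithin_of_mem_nhds (hO.mem_nhds hM0O), C, hC, h⟩

/-- **Regular invariant differential expressions are constant on curves of bounded
derivative.** -/
theorem gexists_const (hLB : ∀ M ∈ TX y, LBa R M) {σ : Jet K}
    (hreg : σ.Regular 2) : ∃ C : ℝ, 0 ≤ C ∧
      ∀ (φ : ℂ → Mat (n + 1)) (h : Cv y φ), (∀ z, ‖fderiv ℝ φ z‖ ≤ 2) → ∃ c : ℂ,
        kc R h σ.p = algebraMap ℂ MK c ∧ ∀ z, ‖c‖ ≤ C * ‖fderiv ℝ φ z‖ := by
  obtain ⟨C, hC, hbd⟩ := pv_bd' R isCompact_TX hLB hreg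
  refine ⟨C, hC, fun φ h hB => ?_⟩
  have h1 : ∀ᶠ z in codiscrete ℂ, ‖pv R σ.p φ z‖ ≤ C * ‖fderiv ℝ φ z‖ := by
    filter_upwards [hbd φ h hB] with z hz using hz (h.mem z)
  obtain ⟨c, hc⟩ := mk_const (pv_mero R h σ.p) (C := C * 2) (by
    filter_upwards [h1] with z hz
    exact hz.trans (mul_le_mul_of_nonneg_left (hB z) hC))
  refine ⟨c, by rw [kc_pv, hc], fun z => ?_⟩
  rw [← cl_const] at hc
  have hev : ∀ᶠ z in codiscrete ℂ, pv R σ.p φ z = c := cl_eq.1 hc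
  have h2 : Tendsto (fun w => C * ‖fderiv ℝ φ w‖) (𝓝[≠] z) (𝓝 (C * ‖fderiv ℝ φ z‖)) := by
    have h3 : ContinuousAt (fderiv ℝ φ) z := h.hol.continuousAt_fderiv (mem_univ z)
    exact ((h3.norm.tendsto).const_mul C).mono_left nhdsWithin_le_nhds
  refine ge_of_tendsto h2 ?_
  filter_upwards [codis_ev h1 z, codis_ev hev z] with w hw1 hw2
  rw [hw2] at hw1
  exact hw1

/-- the differential equation in the normal form -/
theorem geq_of_kc (h : Cv y φ) {σ : Jet K} {x : Fin 2 → K} {E : Fin 2 → Derivation ℂ K K}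
    (hx : Dual x E) {c : ℂ} (hc : kc R h σ.p = algebraMap ℂ MK c) : GEq R (σ.ex hx) c φ := by
  have hm : Meromorphic fun z => deriv (fun w => ev R (σ.ex hx).x (φ w)) z ^
      (σ.ex hx).n * gv R (σ.ex hx) 0 φ z := fun z =>
    (((h.mero R _).deriv z).pow _).mul (gv_mero R h _ _ z)
  rw [kc_ex R h σ hx hm, ← cl_const, cl_eq] at hc
  exact GEq.of_codis R h hc

end Pool.Agent.L7h90.JG
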