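import Pool.Agent.L7h90.JG.Crv

/-! Deformations: pairs of functions, and the chain rule up to negligible terms. -/

set_option autoImplicit false
set_option linter.unusedSectionVars false
set_option linter.unusedVariables false

open Filter Topology Set Metric MvPolynomial FF

namespace Pool.Agent.L7h90.JG

open Pool.Agent.N155 Pool.Agent.Y190.OP Pool.Agent.W602.GT Pool.Agent.TH143.GT
open Pool.Agent.L7h90.WR

/-- the weights grow faster than all powers -/
theorem ng_exp {l : Filter ℕ} [l.NeBot] {a κ : ℕ → ℂ} {z : ℂ} (ha : Inf l a)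
    (hgr : ∀ᶠ p : ℕ × ℂ in l ×ˢ 𝓝 z,
      Real.exp (‖a p.1‖ / 2) ≤ ‖κ p.1 * Complex.exp (a p.1 * p.2)‖) :
    Ng l z a (fun m x => (κ m * Complex.exp (a m * x))⁻¹) ∧
      ∀ᶠ p : ℕ × ℂ in l ×ˢ 𝓝 z, κ p.1 * Complex.exp (a p.1 * p.2) ≠ 0 := by
  have hne : ∀ᶠ p : ℕ × ℂ in l ×ˢ 𝓝 z, κ p.1 * Complex.exp (a p.1 * p.2) ≠ 0 := by
    filter_upwards [hgr] with p hp h0
    rw [h0, norm_zero] at hp
    exact absurd hp (not_le.2 (Real.exp_pos _))
  refine ⟨fun i => ?_, hne⟩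
  have hk : ∀ (k : ℕ) (x : ℂ), (∀ᶠ p : ℕ × ℂ in l ×ˢ 𝓝 x,
      Real.exp (‖a p.1‖ / 2) ≤ ‖κ p.1 * Complex.exp (a p.1 * p.2)‖) →
      Tendsto (fun p : ℕ × ℂ => a p.1 ^ k * (κ p.1 * Complex.exp (a p.1 * p.2))⁻¹)
      (l ×ˢ 𝓝 x) (𝓝 0) := by
    intro k x hx
    have hat : Tendsto (fun m => ‖a m‖) l atTop := tendsto_atTop.2 ha
    have hat2 : Tendsto (fun p : ℕ × ℂ => ‖a p.1‖) (l ×ˢ 𝓝 x) atTop :=
      hat.comp tendsto_fst
    have h3 := (Real.tendsto_pow_mul_exp_neg_atTop_nhds_zero k).comp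
      (hat2.atTop_div_const (show (0 : ℝ) < 2 by norm_num))
    have h4 := h3.const_mul (2 ^ k)
    rw [mul_zero] at h4
    refine squeeze_zero_norm' ?_ h4
    filter_upwards [hx] with p hp
    simp only [Function.comp_apply]
    rw [norm_mul, norm_inv, norm_pow]
    have h5 : ‖κ p.1 * Complex.exp (a p.1 * p.2)‖⁻¹ ≤ Real.exp (-(‖a p.1‖ / 2)) := by
      rw [Real.exp_neg]
      exact inv_anti₀ (Real.exp_pos _) hp
    calc ‖a p.1‖ ^ k * ‖κ p.1 * Complex.exp (a p.1 * p.2)‖⁻¹ ≤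
        ‖a p.1‖ ^ k * Real.exp (-(‖a p.1‖ / 2)) :=
          mul_le_mul_of_nonneg_left h5 (by positivity)
      _ = 2 ^ k * ((‖a p.1‖ / 2) ^ k * Real.exp (-(‖a p.1‖ / 2))) := by
          rw [div_pow]
          field_simp
  have hnat : ∀ k : ℕ, Sm l z a k (fun m x => (κ m * Complex.exp (a m * x))⁻¹) := by
    intro k
    constructor
    · filter_upwards [hne] with p hp
      have h1 : AnalyticAt ℂ (fun x => κ p.1 * Complex.exp (a p.1 * x)) p.2 := by fun_prop
      exact analyticAt_const.mul (h1.inv hp)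
    · filter_upwards [ev_nhds (r := fun m x =>
        Real.exp (‖a m‖ / 2) ≤ ‖κ m * Complex.exp (a m * x)‖) hgr] with x hx
      simpa only [zpow_natCast] using hk k x hx
  exact (hnat i.toNat).mono ha (Int.self_le_toNat i)

/-- polynomials without multiple roots -/
theorem exists_sep {K : Type} [Field K] [Algebra ℂ K] {A : Subalgebra ℂ K} {h : K}
    (hh : IsAlgebraic A h) :
    ∃ p : Polynomial A, Polynomial.aeval h p = 0 ∧ Polynomial.aeval h p.derivative ≠ 0 := by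
  obtain ⟨p, hp0, hp⟩ := hh
  have key : ∀ d : ℕ, ∀ p : Polynomial A, p.natDegree ≤ d → p ≠ 0 → Polynomial.aeval h p = 0 →
      ∃ p : Polynomial A, Polynomial.aeval h p = 0 ∧ Polynomial.aeval h p.derivative ≠ 0 := by
    have hch : CharZero A := charZero_of_injective_algebraMap (algebraMap ℂ A).injective
    have hconst : ∀ p : Polynomial A, p.natDegree = 0 → p ≠ 0 → Polynomial.aeval h p ≠ 0 := by
      intro p hd hp0 hp
      rw [Polynomial.eq_C_of_natDegree_eq_zero hd, Polynomial.aeval_C] at hp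
      apply hp0
      rw [Polynomial.eq_C_of_natDegree_eq_zero hd]
      have : p.coeff 0 = 0 := Subtype.coe_injective (by simpa using hp)
      rw [this, Polynomial.C_0]
    intro d
    induction d with
    | zero =>
      intro p hd hp0 hp
      exact absurd hp (hconst p (Nat.le_zero.1 hd) hp0)
    | succ d ih =>
      intro p hd hp0 hp
      by_cases h1 : Polynomial.aeval h p.derivative = 0
      · have hd0 : p.natDegree ≠ 0 := fun h0 => hconst p h0 hp0 hp
        refine ih p.derivative ?_ ?_ h1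
        · have := Polynomial.natDegree_derivative_lt hd0
          omega
        · intro h0
          exact hd0 (Polynomial.derivative_eq_zero.1 h0)
      · exact ⟨p, hp, h1⟩
  exact key _ p le_rfl hp0 hp

variable {n : ℕ} {K : Type} [Field K] [Algebra ℂ K] {y : Fin (n + 1) → K}
  (R : ∀ h : K, Frac y h) {𝓤 : Ultrafilter ℕ} {φ : ℂ → Mat (n + 1)} {P Q : ℕ → ℂ → Mat (n + 1)}
  {wt : ℕ → ℂ → ℂ} {z : ℂ} {a : ℕ → ℂ}

theorem ch_dq (h : Dfo y 𝓤 φ P Q wt) {f : K} (hz : good R f (φ z)) :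
    CH 𝓤 z (dqf (ev R f) P Q wt) (Dl R 𝓤 P Q wt f) :=
  CH.of_cc (h.isOpen_good R f) hz (h.conv R f) (fun _ hz => h.diff_dq R hz)

theorem adA (h : Dfo y 𝓤 φ P Q wt) {f : K} (hz : good R f (φ z)) :
    Ad 𝓤 z wt (Mc 𝓤 z) (CZ 𝓤 z) (fun m x => ev R f (P m x)) (fun m x => ev R f (Q m x))
      (fun x => ev R f (φ x)) where
  cP := ch_ev R h.lP h.hP h.cv.hol hz
  cQ := ch_ev R h.lQ h.hQ h.cv.hol hz
  md := ⟨_, ch_dq R h hz⟩
  ng := by
    have := (ch_ev R h.lQ h.hQ h.cv.hol hz).sub (ch_ev R h.lP h.hP h.cv.hol hz)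
    unfold CZ
    simpa only [sub_self] using this

theorem adB (h : Dfo y 𝓤 φ P Q wt) (ha : Inf 𝓤 a) (hng : Ng 𝓤 z a (fun m x => (wt m x)⁻¹))
    (hne : ∀ᶠ p : ℕ × ℂ in (𝓤 : Filter ℕ) ×ˢ 𝓝 z, wt p.1 p.2 ≠ 0) {f : K}
    (hz : good R f (φ z)) :
    Ad 𝓤 z wt (Md 𝓤 z a) (Ng 𝓤 z a) (fun m x => ev R f (P m x)) (fun m x => ev R f (Q m x))
      (fun x => ev R f (φ x)) where
  cP := ch_ev R h.lP h.hP h.cv.hol hz
  cQ := ch_ev R h.lQ h.hQ h.cv.hol hz
  md := (calB ha).m_ch (ch_dq R h hz)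
  ng := by
    refine (calB ha).n_congr ((calB ha).n_mul hng ((calB ha).m_ch (ch_dq R h hz))) ?_
    filter_upwards [hne] with p hp
    unfold dqf
    field_simp

/-- a linear relation between the values -/
theorem ev_lin {f1 g1 f2 g2 : K} {M : Mat (n + 1)} (hM : M ∈ TX y) (h1 : good R f1 M)
    (h2 : good R g1 M) (h3 : good R f2 M) (h4 : good R g2 M) (h5 : good R (f1 * g1) M)
    (h6 : good R (f2 * g2) M) (h7 : good R (f1 * g1 + f2 * g2) M) :
    ev R (f1 * g1 + f2 * g2) M = ev R f1 M * ev R g1 M + ev R f2 M * ev R g2 M := by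
  rw [ev_add R hM h5 h6 h7, ev_mul R hM h1 h2 h5, ev_mul R hM h3 h4 h6]

variable {x : Fin 2 → K} {E : Fin 2 → Derivation ℂ K K}

/-- the defect of the chain rule -/
noncomputable def Dfe (x : Fin 2 → K) (E : Fin 2 → Derivation ℂ K K) (P Q : ℕ → ℂ → Mat (n + 1))
    (wt : ℕ → ℂ → ℂ) (f : K) (m : ℕ) (u : ℂ) : ℂ :=
  dqf (ev R f) P Q wt m u - (ev R (E 0 f) (P m u) * dqf (ev R (x 0)) P Q wt m u +
    ev R (E 1 f) (P m u) * dqf (ev R (x 1)) P Q wt m u)

/-- infinitesimally small -/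
def Rl (x : Fin 2 → K) (E : Fin 2 → Derivation ℂ K K) (𝓤 : Ultrafilter ℕ) (a : ℕ → ℂ)
    (P Q : ℕ → ℂ → Mat (n + 1)) (wt : ℕ → ℂ → ℂ) (f g h : K) : Prop :=
  ∀ᶠ z in codiscrete ℂ, Ng 𝓤 z a (fun m u => Dfe R x E P Q wt f m u -
    ev R g (P m u) * Dfe R x E P Q wt h m u)

variable (h : Dfo y 𝓤 φ P Q wt) (ha : Inf 𝓤 a)
  (hng : ∀ z, Ng 𝓤 z a (fun m x => (wt m x)⁻¹))
  (hne : ∀ z, ∀ᶠ p : ℕ × ℂ in (𝓤 : Filter ℕ) ×ˢ 𝓝 z, wt p.1 p.2 ≠ 0)

include h ha in
theorem dfe_md (f : K) : ∀ᶠ z in codiscrete ℂ, Md 𝓤 z a (Dfe R x E P Q wt f) := by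
  filter_upwards [h.cv.good R f, h.cv.good R (E 0 f), h.cv.good R (E 1 f), h.cv.good R (x 0),
    h.cv.good R (x 1)] with z k1 k2 k3 k4 k5
  have c := calB (z := z) ha
  exact c.m_ch ((ch_dq R h k1).sub (((ch_ev R h.lP h.hP h.cv.hol k2).mul (ch_dq R h k4)).add
    ((ch_ev R h.lP h.hP h.cv.hol k3).mul (ch_dq R h k5))))

include h ha in
theorem Rl.add {f1 g1 f2 g2 k : K} (h1 : Rl R x E 𝓤 a P Q wt f1 g1 k)
    (h2 : Rl R x E 𝓤 a P Q wt f2 g2 k) : Rl R x E 𝓤 a P Q wt (f1 + f2) (g1 + g2) k := by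
  filter_upwards [h1, h2, h.cv.good R f1, h.cv.good R f2, h.cv.good R (f1 + f2),
    h.cv.good R g1, h.cv.good R g2, h.cv.good R (g1 + g2), h.cv.good R (E 0 f1),
    h.cv.good R (E 0 f2), h.cv.good R (E 0 f1 + E 0 f2), h.cv.good R (E 1 f1),
    h.cv.good R (E 1 f2), h.cv.good R (E 1 f1 + E 1 f2)] with z h1 h2 k1 k2 k3 k4 k5 k6 k7 k8 k9
    k10 k11 k12
  have c := calB (z := z) ha
  refine c.n_congr (c.n_add h1 h2) ?_
  filter_upwards [good_ev R h.lP k1, good_ev R h.lP k2, good_ev R h.lP k3, good_ev R h.lQ k1,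
    good_ev R h.lQ k2, good_ev R h.lQ k3, good_ev R h.lP k4, good_ev R h.lP k5,
    good_ev R h.lP k6, good_ev R h.lP k7, good_ev R h.lP k8, good_ev R h.lP k9,
    good_ev R h.lP k10, good_ev R h.lP k11, good_ev R h.lP k12] with p m1 m2 m3 m1' m2' m3' m4 m5 m6
    m7 m8 m9 m10 m11 m12
  unfold Dfe
  rw [map_add, map_add, ev_add R (h.mP _ _) m7 m8 m9, ev_add R (h.mP _ _) m10 m11 m12,
    ev_add R (h.mP _ _) m4 m5 m6]
  unfold dqf
  rw [ev_add R (h.mP _ _) m1 m2 m3, ev_add R (h.mQ _ _) m1' m2' m3']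
  ring

include h ha hng hne in
/-- the product rule for the defect -/
theorem dfe_mul (f g : K) : ∀ᶠ z in codiscrete ℂ, Ng 𝓤 z a (fun m u =>
    Dfe R x E P Q wt (f * g) m u - (ev R f (P m u) * Dfe R x E P Q wt g m u +
      ev R g (P m u) * Dfe R x E P Q wt f m u)) := by
  filter_upwards [h.cv.good R f, h.cv.good R g, h.cv.good R (f * g), h.cv.good R (E 0 f),
    h.cv.good R (E 0 g), h.cv.good R (E 1 f), h.cv.good R (E 1 g), h.cv.good R (f * E 0 g),
    h.cv.good R (g * E 0 f), h.cv.good R (f * E 0 g + g * E 0 f), h.cv.good R (f * E 1 g),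
    h.cv.good R (g * E 1 f), h.cv.good R (f * E 1 g + g * E 1 f)]
    with z k1 k2 k3 k4 k5 k6 k7 k8 k9 k10 k11 k12 k13
  have c := calB (z := z) ha
  refine c.n_congr (c.n_mul (adB R h ha (hng z) (hne z) k2).ng
    (adB R h ha (hng z) (hne z) k1).md) ?_
  filter_upwards [good_ev R h.lP k1, good_ev R h.lP k2, good_ev R h.lP k3, good_ev R h.lQ k1,
    good_ev R h.lQ k2, good_ev R h.lQ k3, good_ev R h.lP k4, good_ev R h.lP k5,
    good_ev R h.lP k6, good_ev R h.lP k7, good_ev R h.lP k8, good_ev R h.lP k9,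
    good_ev R h.lP k10, good_ev R h.lP k11, good_ev R h.lP k12, good_ev R h.lP k13]
    with p m1 m2 m3 m1' m2' m3' m4 m5 m6 m7 m8 m9 m10 m11 m12 m13
  unfold Dfe
  rw [Derivation.leibniz, Derivation.leibniz]
  simp only [smul_eq_mul]
  rw [ev_lin R (h.mP _ _) m1 m5 m2 m4 m8 m9 m10, ev_lin R (h.mP _ _) m1 m7 m2 m6 m11 m12 m13]
  unfold dqf dq
  rw [ev_mul R (h.mP _ _) m1 m2 m3, ev_mul R (h.mQ _ _) m1' m2' m3']
  ring

include h ha hng hne in
theorem Rl.mul {f1 g1 f2 g2 k : K} (h1 : Rl R x E 𝓤 a P Q wt f1 g1 k)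
    (h2 : Rl R x E 𝓤 a P Q wt f2 g2 k) :
    Rl R x E 𝓤 a P Q wt (f1 * f2) (f1 * g2 + f2 * g1) k := by
  filter_upwards [h1, h2, dfe_mul R h ha hng hne (x := x) (E := E) f1 f2, h.cv.good R f1,
    h.cv.good R f2, h.cv.good R g1, h.cv.good R g2, h.cv.good R (f1 * g2),
    h.cv.good R (f2 * g1), h.cv.good R (f1 * g2 + f2 * g1)]
    with z h1 h2 h3 k1 k2 k3 k4 k5 k6 k7
  have c := calB (z := z) ha
  refine c.n_congr (c.n_add h3 (c.n_add (c.n_ch h2 (ch_ev R h.lP h.hP h.cv.hol k1))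
    (c.n_ch h1 (ch_ev R h.lP h.hP h.cv.hol k2)))) ?_
  filter_upwards [good_ev R h.lP k1, good_ev R h.lP k2, good_ev R h.lP k3, good_ev R h.lP k4,
    good_ev R h.lP k5, good_ev R h.lP k6, good_ev R h.lP k7] with p m1 m2 m3 m4 m5 m6 m7
  rw [ev_lin R (h.mP _ _) m1 m4 m2 m3 m5 m6 m7]
  ring

include h ha in
theorem Rl.self (k : K) : Rl R x E 𝓤 a P Q wt k 1 k := by
  filter_upwards [h.cv.good R (algebraMap ℂ K 1)] with z k1
  have c := calB (z := z) ha
  refine c.n_congr c.n_zero ?_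
  filter_upwards [good_ev R h.lP k1] with p m1
  have h1 := ev_const R 1 (h.mP _ _) m1
  rw [map_one] at h1
  rw [h1]
  ring

include h ha in
theorem Rl.const (e : ℂ) (k : K) : Rl R x E 𝓤 a P Q wt (algebraMap ℂ K e) 0 k := by
  filter_upwards [h.cv.good R (algebraMap ℂ K e), h.cv.good R (algebraMap ℂ K 0)]
    with z k1 k2
  have c := calB (z := z) ha
  refine c.n_congr c.n_zero ?_
  filter_upwards [good_ev R h.lP k1, good_ev R h.lQ k1, good_ev R h.lP k2] with p m1 m2 m3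
  have h1 := ev_const R e (h.mP _ _) m1
  have h2 := ev_const R e (h.mQ _ _) m2
  have h3 := ev_const R 0 (h.mP _ _) m3
  rw [map_zero] at h3
  unfold Dfe
  rw [Derivation.map_algebraMap, Derivation.map_algebraMap, h3]
  unfold dqf
  rw [h1, h2]
  ring

include h ha in
theorem Rl.of_x (hx : Dual x E) (i : Fin 2) (k : K) : Rl R x E 𝓤 a P Q wt (x i) 0 k := by
  filter_upwards [h.cv.good R (algebraMap ℂ K 0), h.cv.good R (algebraMap ℂ K 1)]
    with z k1 k2
  have c := calB (z := z) ha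
  refine c.n_congr c.n_zero ?_
  filter_upwards [good_ev R h.lP k1, good_ev R h.lP k2] with p m1 m2
  have h1 := ev_const R 0 (h.mP _ _) m1
  have h2 := ev_const R 1 (h.mP _ _) m2
  rw [map_zero] at h1
  rw [map_one] at h2
  unfold Dfe
  have e0 := hx.2 0 i
  have e1 := hx.2 1 i
  rw [e0, e1, h1]
  fin_cases i
  · simp [h1, h2]
  · simp [h1, h2]

include h ha hng hne in
theorem rl_adjoin (hx : Dual x E) {f : K} (hf : f ∈ Algebra.adjoin ℂ (range x)) (k : K) :
    Rl R x E 𝓤 a P Q wt f 0 k := by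
  induction hf using Algebra.adjoin_induction with
  | mem f hf =>
    obtain ⟨i, rfl⟩ := hf
    exact Rl.of_x R h ha hx i k
  | algebraMap e => exact Rl.const R h ha e k
  | add f g _ _ h1 h2 =>
    have := Rl.add R h ha h1 h2
    rwa [add_zero] at this
  | mul f g _ _ h1 h2 =>
    have := Rl.mul R h ha hng hne h1 h2
    rwa [mul_zero, mul_zero, add_zero] at this

include h ha hng hne in
/-- **The chain rule, up to negligible terms.** -/
theorem chain_ng (hx : Dual x E) (f : K) :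
    ∀ᶠ z in codiscrete ℂ, Ng 𝓤 z a (Dfe R x E P Q wt f) := by
  have hal : Algebra.IsAlgebraic (Algebra.adjoin ℂ (range x)) K := hx.1.isAlgebraic
  obtain ⟨p, hp0, hp1⟩ := exists_sep (hal.isAlgebraic f)
  have hpoly : ∀ p : Polynomial (Algebra.adjoin ℂ (range x)),
      Rl R x E 𝓤 a P Q wt (Polynomial.aeval f p) (Polynomial.aeval f p.derivative) f := by
    intro p
    induction p using Polynomial.induction_on with
    | C b =>
      rw [Polynomial.aeval_C, Polynomial.derivative_C, map_zero]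
      exact rl_adjoin R h ha hng hne hx b.2 f
    | add p q hp hq =>
      rw [map_add, Polynomial.derivative_add, map_add]
      exact Rl.add R h ha hp hq
    | monomial m b ih =>
      have h1 := Rl.mul R h ha hng hne ih (Rl.self R h ha f)
      have e1 : Polynomial.C b * Polynomial.X ^ (m + 1) =
          (Polynomial.C b * Polynomial.X ^ m) * Polynomial.X := by
        rw [pow_succ, mul_assoc]
      have e2 : Polynomial.aeval f ((Polynomial.C b * Polynomial.X ^ m) * Polynomial.X) =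
          Polynomial.aeval f (Polynomial.C b * Polynomial.X ^ m) * f := by
        rw [map_mul, Polynomial.aeval_X]
      have e3 : Polynomial.aeval f (Polynomial.derivative
          ((Polynomial.C b * Polynomial.X ^ m) * Polynomial.X)) =
          Polynomial.aeval f (Polynomial.C b * Polynomial.X ^ m) * 1 +
          f * Polynomial.aeval f (Polynomial.derivative (Polynomial.C b * Polynomial.X ^ m)) := by
        rw [Polynomial.derivative_mul, Polynomial.derivative_X, map_add, map_mul, mul_one, mul_one,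
          Polynomial.aeval_X]
        ring
      rw [e1, e2, e3]
      exact h1
  have h1 := hpoly p
  rw [hp0] at h1
  have h2 := Rl.const R h ha (x := x) (E := E) (P := P) (Q := Q) (wt := wt) 0 f
  rw [map_zero] at h2
  filter_upwards [h1, h2, h.cv.good R (Polynomial.aeval f p.derivative),
    ev_ne_codis R h.cv hp1, h.cv.good R (algebraMap ℂ K 0)] with z k1 k2 k3 k4 k5
  have c := calB (z := z) ha
  have hch := ch_ev R h.lP h.hP h.cv.hol k3
  refine c.n_congr (c.n_ch (c.n_sub k2 k1) (hch.inv k4)) ?_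
  filter_upwards [hch.ne k4, good_ev R h.lP k5] with q m1 m2
  have h3 := ev_const R 0 (h.mP _ _) m2
  rw [map_zero] at h3
  rw [h3]
  field_simp
  ring

end Pool.Agent.L7h90.JG
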