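import Pool.Agent.L7h90.JG.Rig
import Pool.Agent.L7h90.JT.Cls

/-! There are no curves on which an invariant differential expression is a nonzero constant. -/

set_option autoImplicit false
set_option linter.unusedSectionVars false
set_option linter.unusedVariables false

open Filter Topology Set Metric MvPolynomial FF

namespace Pool.Agent.L7h90.JG

open Pool.Agent.N155 Pool.Agent.Y190.OP Pool.Agent.W602.GT Pool.Agent.TH143.GT
open Pool.Agent.L7h90.WR
open Pool.Agent.L7h90.JT (taylor0)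

theorem fV_taylor {S : Finset (ℕ →₀ ℕ)} {H : (ℕ →₀ ℕ) → ℂ → ℂ} {X Y : ℂ → ℂ} {k M : ℕ}
    (hM : ∀ s ∈ S, s k ≤ M) (z : ℂ) :
    ∑ t ∈ Finset.range (M + 1), (-fY X Y (k + 1) z) ^ t / (t.factorial : ℂ) * fV S H X Y k t z =
    ∑ s ∈ S, H s z * fM X Y k s z * (if s k = 0 then 1 else 0) := by
  unfold fV fT
  simp only [Finset.mul_sum]
  rw [Finset.sum_comm]
  refine Finset.sum_congr rfl fun s hs => ?_
  rw [← taylor0 (fY X Y (k + 1) z) (hM s hs), Finset.mul_sum]
  refine Finset.sum_congr rfl fun t _ => ?_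
  ring

theorem fV_zero {S : Finset (ℕ →₀ ℕ)} {H : (ℕ →₀ ℕ) → ℂ → ℂ} {X Y : ℂ → ℂ} {k M : ℕ}
    (hM : ∀ s ∈ S, s k ≤ M) {z : ℂ} (h0 : ∀ t, 1 ≤ t → t ≤ M → fV S H X Y k t z = 0) :
    fV S H X Y k 0 z = ∑ s ∈ S with s k = 0, H s z * fM X Y k s z := by
  have h3 := fV_taylor (H := H) (X := X) (Y := Y) hM z
  rw [Finset.sum_range_succ'] at h3
  have h4 : ∑ t ∈ Finset.range M, (-fY X Y (k + 1) z) ^ (t + 1) / ((t + 1).factorial : ℂ) *
      fV S H X Y k (t + 1) z = 0 := by
    refine Finset.sum_eq_zero fun t ht => ?_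
    rw [h0 (t + 1) (by omega) (by rw [Finset.mem_range] at ht; omega), mul_zero]
  rw [h4] at h3
  simp only [pow_zero, Nat.factorial_zero, Nat.cast_one, div_one, one_mul, zero_add] at h3
  rw [h3, Finset.sum_filter]
  refine Finset.sum_congr rfl fun s _ => ?_
  split_ifs <;> ring

variable {n : ℕ} {K : Type} [Field K] [Algebra ℂ K] {y : Fin (n + 1) → K}
  {R : ∀ h : K, Frac y h} {c0 : ℝ} {σ : Ex K} {c : ℂ} {φ : ℂ → Mat (n + 1)}

/-- the part of lower order -/
def Ex.drop (σ : Ex K) : Ex K where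
  n := σ.n
  k := σ.k - 1
  S := {s ∈ σ.S | s σ.k = 0}
  h := σ.h
  x := σ.x
  y := σ.y
  alg := σ.alg

theorem drop_seq {M : ℕ} (hM : ∀ s ∈ σ.S, s σ.k ≤ M) (hk : 0 < σ.k) (h : Cv y φ)
    (h0 : GEq R σ c φ) (hs : ∀ s, 1 ≤ s → s ≤ M → GEt R σ s φ) : GEq R σ.drop c φ := by
  apply GEq.of_codis R h
  filter_upwards [gg_codis R h σ] with z hz
  have h1 := fV_zero hM (fun t ht1 ht2 => hs t ht1 ht2 z hz)
  have h2 := h0 z hz
  unfold gv at h2 ⊢
  rw [h1] at h2
  rw [← h2]
  change deriv (fun w => ev R σ.x (φ w)) z ^ σ.n * _ = _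
  congr 1
  obtain ⟨k', hk'⟩ : ∃ k', σ.k = k' + 1 := ⟨σ.k - 1, by omega⟩
  unfold fV
  refine Finset.sum_congr rfl fun s _ => ?_
  unfold fT fM
  have e1 : σ.drop.k = k' := by
    change σ.k - 1 = k'
    omega
  rw [e1, hk', Finset.prod_range_succ, Nat.descFactorial_zero, Nat.cast_one, one_mul, Nat.sub_zero,
    mul_assoc]
  rfl

/-- the part of order one -/
noncomputable def bse (σ : Ex K) : SymD K where
  d := σ.n
  r := 1
  h := fun _ => ∑ s ∈ σ.S with s 0 = 0, σ.h s
  f := fun _ _ => σ.x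

theorem base_seq {M : ℕ} (hM : ∀ s ∈ σ.S, s σ.k ≤ M) (hk : σ.k = 0) (h : Cv y φ)
    (h0 : GEq R σ c φ) (hs : ∀ s, 1 ≤ s → s ≤ M → GEt R σ s φ) : SEq R (bse σ) c φ := by
  have h1 : ∀ᶠ z in codiscrete ℂ, sval R (bse σ) φ z = c := by
    have h4 : ∀ᶠ z in codiscrete ℂ, ev R (∑ s ∈ σ.S with s 0 = 0, σ.h s) (φ z) =
        ∑ s ∈ σ.S with s 0 = 0, ev R (σ.h s) (φ z) := by
      have h5 : h.emb R (∑ s ∈ σ.S with s 0 = 0, σ.h s) =
          ∑ s ∈ σ.S with s 0 = 0, h.emb R (σ.h s) := map_sum _ _ _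
      simp only [Cv.emb_apply] at h5
      rw [← cl_sum, cl_eq] at h5
      exact h5
    filter_upwards [gg_codis R h σ, h4] with z hz h4
    have h1 := fV_zero hM (fun t ht1 ht2 => hs t ht1 ht2 z hz)
    have h2 := h0 z hz
    unfold gv at h2
    rw [h1] at h2
    rw [← h2]
    unfold sval
    change ∑ j : Fin 1, ev R (∑ s ∈ σ.S with s 0 = 0, σ.h s) (φ z) *
      ∏ l : Fin σ.n, deriv (fun w => ev R σ.x (φ w)) z = _
    rw [Fin.sum_univ_one, Finset.prod_const, Finset.card_univ, Fintype.card_fin, h4, mul_comm]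
    congr 1
    simp only [hk]
    refine Finset.sum_congr rfl fun s _ => ?_
    unfold fM
    rw [Finset.range_zero, Finset.prod_empty, mul_one]
  intro z hz
  exact eq_of_codis h1 (sval_an R h hz).continuousAt continuousAt_const

/-- the class of curves in `S` -/
structure KG (R : ∀ h : K, Frac y h) (S : Set (Mat (n + 1))) (σ : Ex K) (c : ℂ) (c0 : ℝ) (t : ℕ)
    (φ : ℂ → Mat (n + 1)) : Prop where
  hol : HolP univ φ
  mem : ∀ z, φ z ∈ TX y
  av : ∀ z, φ z ∈ S
  bd : ∀ z, ‖fderiv ℝ φ z‖ ≤ 2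
  low : ∀ z, c0 ≤ ‖fderiv ℝ φ z‖
  seq : GEq R σ c φ
  seqs : ∀ s, 1 ≤ s → s ≤ t → GEt R σ s φ

variable {S : Set (Mat (n + 1))} {t : ℕ}

theorem KG.shift (h : KG R S σ c c0 t φ) (u : ℂ) : KG R S σ c c0 t (fun w => φ (u + w)) where
  hol := holP_shift h.hol u
  mem := fun z => h.mem _
  av := fun z => h.av _
  bd := fun z => by rw [fderiv_shift]; exact h.bd _
  low := fun z => by rw [fderiv_shift]; exact h.low _
  seq := h.seq.shift R u
  seqs := fun s h1 h2 => (h.seqs s h1 h2).shift R u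

theorem KG.nc (h : KG R S σ c c0 t φ) (hc0 : 0 < c0) : ∃ z, φ z ≠ φ 0 :=
  nc_of_fderiv (z := 0) fun h0 => by
    have := h.low 0
    rw [h0, norm_zero] at this
    linarith

theorem KG.cls (hc0 : 0 < c0) (hS : IsClosed S) :
    Cls (TX y) c0 (KG R S σ c c0 t) where
  comp := isCompact_TX
  sub := TX_PM
  pos := hc0
  hol := fun φ h => h.hol
  mem := fun φ h => h.mem
  bd := fun φ h => h.bd
  low := fun φ h => h.low
  shift := fun φ h => h.shift
  lim := fun 𝓤 P hP => by
    obtain ⟨φ, h1, h2, h3, h4⟩ := exists_limit isCompact_TX TX_PM (𝓤 := 𝓤) (K := 2)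
      (fun m => (hP m).hol) (fun m => (hP m).mem) (fun m => (hP m).bd)
    have hbd : ∀ z, ‖fderiv ℝ φ z‖ ≤ 2 := fun z =>
      le_of_tendsto (h4 z).norm (Eventually.of_forall fun m => (hP m).bd z)
    have hlow : ∀ z, c0 ≤ ‖fderiv ℝ φ z‖ := fun z =>
      ge_of_tendsto (h4 z).norm (Eventually.of_forall fun m => (hP m).low z)
    refine ⟨φ, ⟨h1, h2, ?_, hbd, hlow, ?_, ?_⟩, h3⟩
    · exact fun z => hS.mem_of_tendsto (h3.pointwise (mem_univ z))
        (Eventually.of_forall fun m => (hP m).av z)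
    · exact GEq.lim R h3 (fun m => (hP m).hol) h1 fun m => (hP m).seq
    · exact fun s k1 k2 => GEt.lim R h3 (fun m => (hP m).hol) h1 fun m => (hP m).seqs s k1 k2

/-- **There are no curves on which an invariant differential expression is a nonzero constant.** -/
theorem KG.empty (hc0 : 0 < c0) (hS : IsClosed S)
    (hnd : ∀ ψ : ℂ → Mat (n + 1), HolP univ ψ → (∀ z, ψ z ∈ S) → (∃ z, ψ z ≠ ψ 0) → Cv y ψ)
    (hLB : ∀ M ∈ TX y, LBa R M) (hc : c ≠ 0)
    (hbasis : ∃ (x : Fin 2 → K) (E : Fin 2 → Derivation ℂ K K), Dual x E)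
    (hforms : ∃ (N : ℕ) (ω0 ω1 : (Fin 2 → Derivation ℂ K K) → K) (D : Fin 2 → Derivation ℂ K K),
      0 < N ∧ IsPluri N ω0 ∧ IsPluri N ω1 ∧
      (∀ v : Place ℂ K, Divisorial 2 v → RegAt v ω0) ∧
      (∀ v : Place ℂ K, Divisorial 2 v → RegAt v ω1) ∧ ω0 D ≠ 0 ∧
      Transcendental ℂ (ω1 D / ω0 D)) :
    ∀ (k : ℕ) (σ : Ex K), σ.k = k → 0 < σ.n → ∀ φ, ¬ KG R S σ c c0 0 φ := by
  intro k
  induction k with
  | zero =>
    intro σ hk hm
    set M : ℕ := σ.S.sup fun s => s σ.k with hM'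
    have hM : ∀ s ∈ σ.S, s σ.k ≤ M := fun s hs =>
      Finset.le_sup (f := fun s : ℕ →₀ ℕ => s σ.k) hs
    have key : ∀ j t : ℕ, M ≤ t + j → ∀ φ, ¬ KG R S σ c c0 t φ := by
      intro j
      induction j with
      | zero =>
        intro t ht φ hφ
        have hcls : SCls R (KG R S σ c c0 t) c0 (bse σ) c (fun _ => True) :=
          { cls := KG.cls hc0 hS
            cv := fun φ h => hnd φ h.hol h.av (h.nc hc0)
            seq := fun φ h => base_seq hM hk (hnd φ h.hol h.av (h.nc hc0)) h.seq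
              fun s h1 h2 => h.seqs s h1 (by omega)
            lb := fun φ h => (hLB _ (h.mem 0)).lbc
            cne := hc
            dpos := hm
            basis := hbasis
            forms := by
              obtain ⟨N, ω0, ω1, D, h1, h2, h3, h4, h5, h6, h7⟩ := hforms
              exact ⟨N, ω0, ω1, D, h1, h2, h3, fun v hv _ => h4 v hv, fun v hv _ => h5 v hv, h6,
                h7⟩ }
        exact hcls.empty hφ
      | succ j ih =>
        intro t ht φ hφ
        have hI := ih (t + 1) (by omega)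
        have hcls : GCls R (KG R S σ c c0 t) c0 σ c :=
          { cls := KG.cls hc0 hS
            cv := fun φ h => hnd φ h.hol h.av (h.nc hc0)
            seq := fun φ h => h.seq
            lb := hLB
            cne := hc
            mpos := hm
            basis := hbasis
            forms := hforms }
        have hne : ∀ ψ, KG R S σ c c0 t ψ → ∀ᶠ z in codiscrete ℂ, gv R σ (t + 1) ψ z ≠ 0 := by
          intro ψ hψ
          apply mero_ne (gv_mero R (hcls.cv ψ hψ) σ (t + 1))
          intro h0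
          refine hI ψ { hψ with seqs := ?_ }
          intro s h1 h2
          rcases Nat.lt_or_ge t s with h3 | h3
          · obtain rfl : s = t + 1 := by omega
            exact GEt.of_codis R (hcls.cv ψ hψ) h0
          · exact hψ.seqs s h1 h3
        rcases Nat.eq_zero_or_pos t with rfl | htp
        · exact hcls.empty_of (hcls.rigB0 hne) hφ
        · exact hcls.empty_of (hcls.rigBt (fun ψ hψ => hψ.seqs t htp le_rfl) hne) hφ
    exact key M 0 (by omega)
  | succ k IH =>
    intro σ hk hm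
    set M : ℕ := σ.S.sup fun s => s σ.k with hM'
    have hM : ∀ s ∈ σ.S, s σ.k ≤ M := fun s hs =>
      Finset.le_sup (f := fun s : ℕ →₀ ℕ => s σ.k) hs
    have key : ∀ j t : ℕ, M ≤ t + j → ∀ φ, ¬ KG R S σ c c0 t φ := by
      intro j
      induction j with
      | zero =>
        intro t ht φ hφ
        refine IH σ.drop ?_ hm φ { hφ with seq := ?_, seqs := ?_ }
        · change σ.k - 1 = k
          omega
        · exact drop_seq hM (by omega) (hnd φ hφ.hol hφ.av (hφ.nc hc0)) hφ.seq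
            fun s h1 h2 => hφ.seqs s h1 (by omega)
        · intro s h1 h2
          omega
      | succ j ih =>
        intro t ht φ hφ
        have hI := ih (t + 1) (by omega)
        have hcls : GCls R (KG R S σ c c0 t) c0 σ c :=
          { cls := KG.cls hc0 hS
            cv := fun φ h => hnd φ h.hol h.av (h.nc hc0)
            seq := fun φ h => h.seq
            lb := hLB
            cne := hc
            mpos := hm
            basis := hbasis
            forms := hforms }
        have hne : ∀ ψ, KG R S σ c c0 t ψ → ∀ᶠ z in codiscrete ℂ, gv R σ (t + 1) ψ z ≠ 0 := by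
          intro ψ hψ
          apply mero_ne (gv_mero R (hcls.cv ψ hψ) σ (t + 1))
          intro h0
          refine hI ψ { hψ with seqs := ?_ }
          intro s h1 h2
          rcases Nat.lt_or_ge t s with h3 | h3
          · obtain rfl : s = t + 1 := by omega
            exact GEt.of_codis R (hcls.cv ψ hψ) h0
          · exact hψ.seqs s h1 h3
        rcases Nat.eq_zero_or_pos t with rfl | htp
        · exact hcls.empty_of (hcls.rigB0 hne) hφ
        · exact hcls.empty_of (hcls.rigBt (fun ψ hψ => hψ.seqs t htp le_rfl) hne) hφ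
    exact key M 0 (by omega)

end Pool.Agent.L7h90.JG
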