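import Pool.Agent.N155.L.SDefs

/-!
Invariant differential expressions (jet differentials) of arbitrary order on projective surfaces, in
terms of the function field, and curves which satisfy the corresponding differential equations.
-/

set_option autoImplicit false

open FF LinearAlgebra.Projectivization MvPolynomial Pool.Agent.W602.GT
open Pool.Agent.N155 (ValAt)
open scoped LinearAlgebra.Projectivization

namespace Pool.Agent.L7h90.JG

section

variable {K : Type} [Field K] [Algebra ℂ K]

/-- The value of a differential expression on a derivation `D` of an extension `A` of `K`. The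
differential expression is a polynomial `p` over `K` in the derivatives of elements of `K`: the
variable `(f, i)` stands for the derivative of order `i + 1` of `f`. -/
noncomputable def app (p : MvPolynomial (K × ℕ) K) {A : Type} [CommRing A] [Algebra ℂ A]
    [Algebra K A] (D : Derivation ℂ A A) : A :=
  aeval (fun i : K × ℕ => (D : A → A)^[i.2 + 1] (algebraMap K A i.1)) p

/-- An invariant differential expression of weight `m` on the varieties with function field `K` (an
invariant jet differential, of any order): a polynomial over `K` in the derivatives of the rational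
functions, every term of which contains some first derivative, and the value of which on `g D` is
`g ^ m` times the value on `D`, for all elements `g` and all derivations `D` of extensions of `K`. -/
structure Jet (K : Type) [Field K] [Algebra ℂ K] where
  m : ℕ
  p : MvPolynomial (K × ℕ) K
  first : p ∈ Ideal.span (Set.range fun f : K => (X (f, 0) : MvPolynomial (K × ℕ) K))
  inv : ∀ (A : Type) [Field A] [Algebra ℂ A] [Algebra K A] [IsScalarTower ℂ K A]
    (D : Derivation ℂ A A) (g : A), app p (g • D) = g ^ m * app p D

/-- The differential expression is regular on the smooth projective models of `K`, of dimension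
`w`: at the discrete valuation ring of a prime divisor its values on the regular vector fields are
regular. -/
def Jet.Regular (w : ℕ) (σ : Jet K) : Prop :=
  ∀ P : Place ℂ K, Divisorial w P → ∀ D : Derivation ℂ K K, DerReg P D → P.Reg (app σ.p D)

/-- The curve `f` satisfies the differential equation `σ(f') = 0`: on every open set `V` on which
the coefficients and the functions in the differential expression are regular along the curve, with
the values `H s` and `Φ g`, the sum of the terms `H s * ∏ (Φ g)^(i + 1) ^ s (g, i)` is zero. -/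
def Jet.Solves {n : ℕ} (y : Fin (n + 1) → K) (σ : Jet K) (f : ℂ → ℙ ℂ (Fin (n + 1) → ℂ)) : Prop :=
  ∀ (V : Set ℂ) (H : (K × ℕ →₀ ℕ) → ℂ → ℂ) (Φ : K → ℂ → ℂ), IsOpen V →
    (∀ z ∈ V, ∀ s ∈ σ.p.support, ValAt y (σ.p.coeff s) (f z).rep (H s z)) →
    (∀ z ∈ V, ∀ s ∈ σ.p.support, ∀ i ∈ s.support, ValAt y i.1 (f z).rep (Φ i.1 z)) →
    ∀ z ∈ V, ∑ s ∈ σ.p.support, H s z * ∏ i ∈ s.support, iteratedDeriv (i.2 + 1) (Φ i.1) z ^ s i = 0

end

/-- The regular invariant differential equations on the surfaces with function field `K` have no
solutions in differential fields: whenever `A` is an extension of `K` with a derivation `D` the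
constants of which are the complex numbers, some regular invariant differential expression of
positive weight does not vanish on `D`. -/
def JetRigid (K : Type) [Field K] [Algebra ℂ K] : Prop :=
  ∀ (A : Type) [Field A] [Algebra ℂ A] [Algebra K A] [IsScalarTower ℂ K A]
    (D : Derivation ℂ A A), (∀ a, D a = 0 → ∃ c : ℂ, a = algebraMap ℂ A c) →
    ∃ σ : Jet K, 0 < σ.m ∧ σ.Regular 2 ∧ app σ.p D ≠ 0

/-- The Wronskian of the derivatives of `u 0, ..., u (n - 1)`. -/
noncomputable def wr {A : Type} [CommRing A] [Algebra ℂ A] (D : Derivation ℂ A A) {n : ℕ}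
    (u : Fin n → A) : A :=
  (Matrix.of fun i j : Fin n => (D : A → A)^[(i : ℕ) + 1] (u j)).det

/-- `1, u 0, ..., u (n - 1)` are linearly independent over the complex numbers. -/
def Indep {M : Type} [Field M] [Algebra ℂ M] {n : ℕ} (u : Fin n → M) : Prop :=
  ∀ (c : Fin n → ℂ) (e : ℂ), ∑ j, algebraMap ℂ M (c j) * u j = algebraMap ℂ M e → c = 0

/-- The differential ideal generated by the regular invariant differential expressions of positive
weight of `K` contains, over some algebraic extension `M` of `K`, a nonzero product of Wronskians of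
any orders: `∑ i j, ρ i j * (σ i)^(j) = h * ∏ l, W(u l 0', ..., u l (n l - 1)')`, with regular `σ i`
and their derivatives `(σ i)^(j)`, any differential expressions `ρ i j` over `M`, and `h ≠ 0`, where
`1, u l 0, ..., u l (n l - 1)` are linearly independent over the complex numbers, on the derivations
of the extensions of `M` with the constants `ℂ`. -/
def JetProduct (K : Type) [Field K] [Algebra ℂ K] : Prop :=
  ∃ (M : Type) (_ : Field M) (_ : Algebra ℂ M) (_ : Algebra K M) (_ : IsScalarTower ℂ K M)
    (r s N : ℕ) (σ : Fin r → Jet K) (ρ : Fin r → Fin s → MvPolynomial (M × ℕ) M) (h : M)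
    (u : Fin N → (n : ℕ) × (Fin n → M)),
    Algebra.IsAlgebraic K M ∧ (∀ i, 0 < (σ i).m ∧ (σ i).Regular 2) ∧ h ≠ 0 ∧
    (∀ l, Indep (u l).2) ∧
    ∀ (B : Type) [Field B] [Algebra ℂ B] [Algebra K B] [Algebra M B] [IsScalarTower ℂ M B]
      [IsScalarTower K M B] (D : Derivation ℂ B B),
      (∀ b, D b = 0 → ∃ c : ℂ, b = algebraMap ℂ B c) →
      ∑ i, ∑ j, app (ρ i j) D * (D : B → B)^[j] (app (σ i).p D) =
        algebraMap M B h * ∏ l, wr D fun j => algebraMap M B ((u l).2 j)

/-- The smooth projective surfaces with function field `K` have a nonzero regular product of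
Wronskians of any orders: `h * ∏ l, W(u l 0', ..., u l (n l - 1)')`, with `h ≠ 0`, some `n l > 0`,
and `1, u l 0, ..., u l (n l - 1)` linearly independent over the complex numbers. -/
def RegularWronskians (K : Type) [Field K] [Algebra ℂ K] : Prop :=
  ∃ (N : ℕ) (h : K) (u : Fin N → (n : ℕ) × (Fin n → K)), (∃ l, 0 < (u l).1) ∧ h ≠ 0 ∧
    (∀ l, Indep (u l).2) ∧
    ∀ P : Place ℂ K, Divisorial 2 P → ∀ D : Derivation ℂ K K, DerReg P D →
      P.Reg (h * ∏ l, wr D (u l).2)

/-- The vector `(1, u 0, ..., u (N - 1))`. -/
def vec {K : Type} [Field K] {N : ℕ} (u : Fin N → K) : Fin (N + 1) → K := Fin.cons 1 u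

/-- The function `a 0 + a 1 * u 0 + ... + a N * u (N - 1)`. -/
noncomputable def mem {K : Type} [Field K] [Algebra ℂ K] {N : ℕ} (u : Fin N → K)
    (a : Fin (N + 1) → ℂ) : K := ∑ j, algebraMap ℂ K (a j) * vec u j

/-- The smallest of the orders of `1, u 0, ..., u (N - 1)`. -/
noncomputable def pole {K : Type} [Field K] [Algebra ℂ K] (P : Place ℂ K) {N : ℕ}
    (u : Fin N → K) : ℤ := Finset.univ.inf' Finset.univ_nonempty fun j => P.ord (vec u j)

/-- The surfaces with function field `K` have a linear system of some dimension `N > 0`, given by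
rational functions `u 0, ..., u (N - 1)` such that `1, u 0, ..., u (N - 1)` are linearly
independent, and finitely many members `L i 0 + L i 1 * u 0 + ... + L i N * u (N - 1) = 0` in
general position (any `N + 1` of the vectors `L i` are linearly independent) such that all the
components of the curves `L i = 0`, on all models, have multiplicity at least `r i ≥ N`, with
`∑ (1 - N / r i) ≥ N + 1`. -/
def MultipleSystem (K : Type) [Field K] [Algebra ℂ K] : Prop :=
  ∃ (N : ℕ) (u : Fin N → K) (q : ℕ) (L : Fin q → Fin (N + 1) → ℂ) (r : Fin q → ℕ),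
    0 < N ∧ Indep u ∧ (∀ i, N ≤ r i) ∧
    (∀ j : Fin (N + 1) → Fin q, Function.Injective j → (Matrix.of fun k => L (j k)).det ≠ 0) ∧
    (∀ P : Place ℂ K, Divisorial 2 P → ∀ i, P.ord (mem u (L i)) = pole P u ∨
      pole P u + r i ≤ P.ord (mem u (L i))) ∧
    (N : ℚ) + 1 ≤ ∑ i, (1 - N / (r i : ℚ))

/-- There are `q` functions `w i` on the surfaces with function field `K` the `d`-th powers of which
are members `L i 0 + L i 1 * u 0 + ... + L i N * u (N - 1)` of a linear system of some dimension
`N > 0`, in general position (any `N + 1` of the vectors `L i` are linearly independent), where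
`1, u 0, ..., u (N - 1)` are linearly independent and `q (1 - N / d) ≥ N + 1`. -/
def PowerSystem (K : Type) [Field K] [Algebra ℂ K] : Prop :=
  ∃ (N : ℕ) (u : Fin N → K) (q d : ℕ) (L : Fin q → Fin (N + 1) → ℂ) (w : Fin q → K),
    0 < N ∧ 0 < d ∧ Indep u ∧ (∀ i, mem u (L i) = w i ^ d) ∧
    (∀ j : Fin (N + 1) → Fin q, Function.Injective j → (Matrix.of fun k => L (j k)).det ≠ 0) ∧
    (N : ℚ) + 1 ≤ q * (1 - N / (d : ℚ))

/-- The surfaces with function field `K` map to a Fermat hypersurface of dimension `N > 0` and degree
`d ≥ N (N + 2)`: there are functions `w 0, ..., w (N + 1)` such that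
`w 0 ^ d + ... + w (N + 1) ^ d = 0`, any two of which are linearly independent over the complex
numbers. -/
def FermatSystem (K : Type) [Field K] [Algebra ℂ K] : Prop :=
  ∃ (N d : ℕ) (w : Fin (N + 2) → K), 0 < N ∧ N * (N + 2) ≤ d ∧ ∑ i, w i ^ d = 0 ∧
    ∀ i j, i ≠ j → ∀ a b : ℂ, algebraMap ℂ K a * w i + algebraMap ℂ K b * w j = 0 →
      a = 0 ∧ b = 0

/-- There are `q` functions `w i` on the surfaces with function field `K` the `d`-th powers of which
are elements `L i 0 + L i 1 * u + L i 2 * v` of a space `ℂ + ℂ u + ℂ v` with algebraically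
independent `u`, `v`, any two of the powers being linearly independent, where
`q (1 - 2 / d) ≥ 3`. -/
def PowerLines (K : Type) [Field K] [Algebra ℂ K] : Prop :=
  ∃ (u v : K) (q d : ℕ) (L : Fin q → Fin 3 → ℂ) (w : Fin q → K),
    AlgebraicIndependent ℂ ![u, v] ∧ 0 < d ∧
    (∀ i, algebraMap ℂ K (L i 0) + algebraMap ℂ K (L i 1) * u + algebraMap ℂ K (L i 2) * v =
      w i ^ d) ∧
    (∀ i j, i ≠ j → ∀ s t : ℂ, s • L i + t • L j = 0 → s = 0 ∧ t = 0) ∧
    3 ≤ q * (1 - 2 / (d : ℚ))

end Pool.Agent.L7h90.JG
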