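import Pool.Agent.L7h90.JG.Def
import Pool.Agent.L7h90.JT.Alg

/-! Differential expressions in coordinates. -/

set_option autoImplicit false
set_option linter.unusedSectionVars false

open MvPolynomial Pool.Agent.W602.GT Pool.Agent.TH143.GT

namespace Pool.Agent.L7h90.JG

section mc

variable {K : Type} [Field K] [Algebra ℂ K] {ι : Type}

/-- the derivation of the coefficients -/
noncomputable def mc (E : Derivation ℂ K K) :
    Derivation ℂ (MvPolynomial ι K) (MvPolynomial ι K) where
  toFun := AddMonoidAlgebra.map (E : K →ₗ[ℂ] K).toAddMonoidHom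
  map_add' p q := by
    ext m
    rw [coeff_add, coeff_addMonoidAlgebraMap, coeff_addMonoidAlgebraMap, coeff_addMonoidAlgebraMap,
      coeff_add, map_add]
  map_smul' c p := by
    ext m
    rw [RingHom.id_apply, coeff_smul, coeff_addMonoidAlgebraMap, coeff_addMonoidAlgebraMap,
      coeff_smul]
    exact E.map_smul c _
  map_one_eq_zero' := by
    classical
    ext m
    change E (coeff m 1) = coeff m 0
    rw [coeff_zero, coeff_one]
    split_ifs
    · exact E.map_one_eq_zero
    · exact map_zero E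
  leibniz' p q := by
    classical
    ext m
    change E (coeff m (p * q)) = coeff m (p • AddMonoidAlgebra.map (E : K →ₗ[ℂ] K).toAddMonoidHom q
      + q • AddMonoidAlgebra.map (E : K →ₗ[ℂ] K).toAddMonoidHom p)
    rw [smul_eq_mul, smul_eq_mul, mul_comm q, coeff_add, coeff_mul, coeff_mul, coeff_mul, map_sum,
      ← Finset.sum_add_distrib]
    refine Finset.sum_congr rfl fun s _ => ?_
    rw [coeff_addMonoidAlgebraMap, coeff_addMonoidAlgebraMap, E.leibniz]
    change _ = coeff s.1 p * E (coeff s.2 q) + E (coeff s.1 p) * coeff s.2 q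
    rw [smul_eq_mul, smul_eq_mul]
    ring

theorem coeff_mc (E : Derivation ℂ K K) (p : MvPolynomial ι K) (m : ι →₀ ℕ) :
    coeff m (mc E p) = E (coeff m p) := rfl

theorem mc_C (E : Derivation ℂ K K) (f : K) : mc (ι := ι) E (C f) = C (E f) := by
  classical
  ext m
  rw [coeff_mc, coeff_C, coeff_C]
  split_ifs
  · rfl
  · exact map_zero E

theorem mc_X (E : Derivation ℂ K K) (i : ι) : mc E (X i) = 0 := by
  classical
  ext m
  rw [coeff_mc, coeff_X, coeff_zero]
  split_ifs
  · exact E.map_one_eq_zero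
  · exact map_zero E

end mc

section

variable {K : Type} [Field K] [Algebra ℂ K] {E : Fin 2 → Derivation ℂ K K} {x : Fin 2 → K}

/-- the derivation of the jets: the variable `(a, i)` is the derivative of order `i + 1` of the
coordinate `a` -/
noncomputable def dj (E : Fin 2 → Derivation ℂ K K) :
    Derivation ℂ (MvPolynomial (Fin 2 × ℕ) K) (MvPolynomial (Fin 2 × ℕ) K) :=
  (X (0, 0) : MvPolynomial (Fin 2 × ℕ) K) • mc (E 0) +
    (X (1, 0) : MvPolynomial (Fin 2 × ℕ) K) • mc (E 1) +
    (mkDerivation K fun v : Fin 2 × ℕ =>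
      (X (v.1, v.2 + 1) : MvPolynomial (Fin 2 × ℕ) K)).restrictScalars ℂ

theorem dj_apply (p : MvPolynomial (Fin 2 × ℕ) K) : dj E p = X (0, 0) * mc (E 0) p +
    X (1, 0) * mc (E 1) p + mkDerivation K (fun v : Fin 2 × ℕ =>
      (X (v.1, v.2 + 1) : MvPolynomial (Fin 2 × ℕ) K)) p := by
  unfold dj
  rw [Derivation.add_apply, Derivation.add_apply, Derivation.smul_apply, Derivation.smul_apply,
    smul_eq_mul, smul_eq_mul]
  rfl

theorem dj_C (f : K) : dj E (C f) = X (0, 0) * C (E 0 f) + X (1, 0) * C (E 1 f) := by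
  rw [dj_apply, mc_C, mc_C]
  have h1 : mkDerivation K (fun v : Fin 2 × ℕ =>
      (X (v.1, v.2 + 1) : MvPolynomial (Fin 2 × ℕ) K)) (C f) = 0 := mkDerivationₗ_C _ f
  rw [h1, add_zero]

theorem dj_X (v : Fin 2 × ℕ) : dj E (X v) = X (v.1, v.2 + 1) := by
  rw [dj_apply, mc_X, mc_X, mul_zero, mul_zero, zero_add, zero_add, mkDerivation_X]

variable {B : Type} [Field B] [Algebra ℂ B] [Algebra K B] [IsScalarTower ℂ K B]

/-- the values of the jets -/
noncomputable def ep (x : Fin 2 → K) (D : Derivation ℂ B B) :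
    MvPolynomial (Fin 2 × ℕ) K →ₐ[K] B :=
  aeval fun v : Fin 2 × ℕ => (D : B → B)^[v.2 + 1] (algebraMap K B (x v.1))

theorem ep_X (D : Derivation ℂ B B) (v : Fin 2 × ℕ) :
    ep x D (X v) = (D : B → B)^[v.2 + 1] (algebraMap K B (x v.1)) := aeval_X _ _

theorem ep_dj (hx : Dual x E) (D : Derivation ℂ B B) (p : MvPolynomial (Fin 2 × ℕ) K) :
    ep x D (dj E p) = D (ep x D p) := by
  induction p using MvPolynomial.induction_on with
  | C f =>
    have h1 : ep x D (C f) = algebraMap K B f := (ep x D).commutes f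
    have h2 : ∀ g : K, ep x D (C g) = algebraMap K B g := fun g => (ep x D).commutes g
    rw [dj_C, map_add, map_mul, map_mul, h2, h2, h2, ep_X, ep_X, JT.chain2 hx D f]
    rfl
  | add p q hp hq => rw [map_add, map_add, map_add, map_add, hp, hq]
  | mul_X p v hp =>
    rw [Derivation.leibniz, map_add, map_mul (ep x D) p (X v), D.leibniz, smul_eq_mul, smul_eq_mul,
      smul_eq_mul, smul_eq_mul, map_mul, map_mul, hp, dj_X, ep_X, ep_X,
      Function.iterate_succ_apply' (D : B → B) (v.2 + 1)]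

/-- **The values of a differential expression, in coordinates.** -/
theorem ep_app (hx : Dual x E) (D : Derivation ℂ B B) (p : MvPolynomial (K × ℕ) K) :
    ep x D (app p (dj E)) = app p D := by
  unfold app
  have h1 : ∀ (n : ℕ) (f : K), ep x D ((dj E : MvPolynomial (Fin 2 × ℕ) K →
      MvPolynomial (Fin 2 × ℕ) K)^[n] (algebraMap K _ f)) = (D : B → B)^[n] (algebraMap K B f) := by
    intro n f
    induction n with
    | zero => exact (ep x D).commutes f
    | succ n ih => rw [Function.iterate_succ_apply', Function.iterate_succ_apply', ep_dj hx, ih]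
  rw [← AlgHom.comp_apply, comp_aeval]
  congr 2
  funext i
  exact h1 _ _

theorem app_mem (σ : Jet K) : ∀ s ∈ (app σ.p (dj E)).support, s (0, 0) ≠ 0 ∨ s (1, 0) ≠ 0 := by
  have h1 : app σ.p (dj E) ∈ Ideal.span (X '' {((0 : Fin 2), 0), ((1 : Fin 2), 0)} :
      Set (MvPolynomial (Fin 2 × ℕ) K)) := by
    have h2 := Ideal.mem_map_of_mem (aeval (R := K) (fun i : K × ℕ =>
      (dj E : MvPolynomial (Fin 2 × ℕ) K → MvPolynomial (Fin 2 × ℕ) K)^[i.2 + 1]
        (algebraMap K (MvPolynomial (Fin 2 × ℕ) K) i.1))).toRingHom σ.first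
    rw [Ideal.map_span] at h2
    refine (Ideal.span_le.2 ?_) h2
    rintro _ ⟨_, ⟨f, rfl⟩, rfl⟩
    have h3 : (aeval (R := K) (fun i : K × ℕ =>
      (dj E : MvPolynomial (Fin 2 × ℕ) K → MvPolynomial (Fin 2 × ℕ) K)^[i.2 + 1]
        (algebraMap K (MvPolynomial (Fin 2 × ℕ) K) i.1))).toRingHom (X (f, 0)) =
        X (0, 0) * C (E 0 f) + X (1, 0) * C (E 1 f) := by
      rw [← dj_C]
      exact aeval_X _ _
    rw [h3]
    refine Ideal.add_mem _ (Ideal.mul_mem_right _ _ (Ideal.subset_span ⟨(0, 0), by simp, rfl⟩))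
      (Ideal.mul_mem_right _ _ (Ideal.subset_span ⟨(1, 0), by simp, rfl⟩))
  intro s hs
  obtain ⟨i, hi, h2⟩ := mem_ideal_span_X_image.1 h1 s hs
  rcases hi with rfl | hi
  · exact Or.inl h2
  · rw [Set.mem_singleton_iff] at hi
    subst hi
    exact Or.inr h2

/-- the polynomial in the derivatives of the second coordinate with respect to the first one -/
noncomputable def nf (r : MvPolynomial (Fin 2 × ℕ) K) : MvPolynomial ℕ K :=
  aeval (fun v : Fin 2 × ℕ => if v.1 = 0 then (if v.2 = 0 then 1 else 0) else X v.2) r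

theorem ep_nf (D : Derivation ℂ B B) (h1 : D (algebraMap K B (x 0)) = 1)
    (r : MvPolynomial (Fin 2 × ℕ) K) : ep x D r =
      aeval (fun i : ℕ => (D : B → B)^[i + 1] (algebraMap K B (x 1))) (nf r) := by
  unfold ep nf
  rw [← AlgHom.comp_apply, comp_aeval]
  congr 2
  funext v
  obtain ⟨a, i⟩ := v
  have h2 : ∀ i : ℕ, (D : B → B)^[i + 1] (algebraMap K B (x 0)) = if i = 0 then 1 else 0 := by
    intro i
    rw [Function.iterate_succ_apply, h1]
    cases i with
    | zero => rfl
    | succ i =>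
      rw [Function.iterate_succ_apply, D.map_one_eq_zero, if_neg (Nat.succ_ne_zero i)]
      exact iterate_map_zero D i
  fin_cases a
  · change (D : B → B)^[i + 1] (algebraMap K B (x 0)) = aeval _ (if i = 0 then 1 else 0)
    rw [h2]
    split_ifs
    · rw [map_one]
    · rw [map_zero]
  · change (D : B → B)^[i + 1] (algebraMap K B (x 1)) = aeval _ (X i)
    rw [aeval_X]

/-- **The normal form.** -/
theorem app_nf (hx : Dual x E) (σ : Jet K) (D : Derivation ℂ B B)
    (h0 : D (algebraMap K B (x 0)) ≠ 0) : app σ.p D = D (algebraMap K B (x 0)) ^ σ.m *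
      aeval (fun i : ℕ => (((D (algebraMap K B (x 0)))⁻¹ • D : Derivation ℂ B B) : B → B)^[i + 1]
        (algebraMap K B (x 1))) (nf (app σ.p (dj E))) := by
  set g := D (algebraMap K B (x 0)) with hg
  have h1 : (g⁻¹ • D : Derivation ℂ B B) (algebraMap K B (x 0)) = 1 := by
    rw [Derivation.smul_apply, ← hg, smul_eq_mul, inv_mul_cancel₀ h0]
  rw [← ep_nf _ h1, ep_app hx, ← σ.inv B (g⁻¹ • D) g, smul_smul, mul_inv_cancel₀ h0, one_smul]

/-- the generic derivation -/
theorem exists_gen (hx : Dual x E) : ∃ D : Derivation ℂ (FractionRing (MvPolynomial (Fin 2 × ℕ) K))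
    (FractionRing (MvPolynomial (Fin 2 × ℕ) K)), ∀ p, ep x D p = algebraMap _ _ p := by
  set A := FractionRing (MvPolynomial (Fin 2 × ℕ) K) with hA
  have halg : Algebra.IsAlgebraic (MvPolynomial (Fin 2 × ℕ) K) A :=
    (IsFractionRing.comap_isAlgebraic_iff (A := MvPolynomial (Fin 2 × ℕ) K) (K := A) (C := A)).2
      inferInstance
  have h1 : IsTranscendenceBasis K (algebraMap (MvPolynomial (Fin 2 × ℕ) K) A ∘ X) :=
    (IsTranscendenceBasis.mvPolynomial (Fin 2 × ℕ) K).algebraMap_comp
  have h2 : IsTranscendenceBasis ℂ (Sum.elim (algebraMap (MvPolynomial (Fin 2 × ℕ) K) A ∘ X)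
      (algebraMap K A ∘ x)) := IsTranscendenceBasis.sumElim_comp hx.1 h1
  obtain ⟨D, hD⟩ := exists_der _ h2 (Sum.elim (fun v => algebraMap (MvPolynomial (Fin 2 × ℕ) K) A
    (X (v.1, v.2 + 1))) fun a => algebraMap (MvPolynomial (Fin 2 × ℕ) K) A (X (a, 0)))
  have h3 : ∀ a, D (algebraMap K A (x a)) = algebraMap (MvPolynomial (Fin 2 × ℕ) K) A (X (a, 0)) :=
    fun a => hD (Sum.inr a)
  have h4 : ∀ v, D (algebraMap (MvPolynomial (Fin 2 × ℕ) K) A (X v)) =
      algebraMap (MvPolynomial (Fin 2 × ℕ) K) A (X (v.1, v.2 + 1)) := fun v => hD (Sum.inl v)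
  refine ⟨D, fun p => ?_⟩
  have h5 : ∀ (i : ℕ) (a : Fin 2), (D : A → A)^[i + 1] (algebraMap K A (x a)) =
      algebraMap (MvPolynomial (Fin 2 × ℕ) K) A (X (a, i)) := by
    intro i a
    induction i with
    | zero => exact h3 a
    | succ i ih => rw [Function.iterate_succ_apply', ih, h4]
  have h6 : ep x D = IsScalarTower.toAlgHom K (MvPolynomial (Fin 2 × ℕ) K) A := by
    apply MvPolynomial.algHom_ext
    intro v
    rw [ep_X, h5]
    rfl
  rw [h6]
  rfl

end

end Pool.Agent.L7h90.JG
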