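import Pool.Agent.L7h90.JG.Chn

/-! Deformations of curves on which an invariant differential expression is constant. -/

set_option autoImplicit false
set_option linter.unusedSectionVars false
set_option linter.unusedVariables false

open Filter Topology Set Metric MvPolynomial FF

namespace Pool.Agent.L7h90.JG

open Pool.Agent.N155 Pool.Agent.Y190.OP Pool.Agent.W602.GT Pool.Agent.TH143.GT
open Pool.Agent.L7h90.WR

variable {n : ℕ} {K : Type} [Field K] [Algebra ℂ K] {y : Fin (n + 1) → K}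
  (R : ∀ h : K, Frac y h) {𝓤 : Ultrafilter ℕ} {φ : ℂ → Mat (n + 1)} {P Q : ℕ → ℂ → Mat (n + 1)}
  {wt : ℕ → ℂ → ℂ} {z : ℂ} {a : ℕ → ℂ} {σ : Ex K}

/-- the tangential part -/
noncomputable def tq (x : K) (P Q : ℕ → ℂ → Mat (n + 1)) (wt : ℕ → ℂ → ℂ) (m : ℕ) (u : ℂ) : ℂ :=
  dqf (ev R x) P Q wt m u / deriv (fun w => ev R x (P m w)) u

theorem ch_tq (h : Dfo y 𝓤 φ P Q wt) {x : K} (hx : good R x (φ z))
    (hx' : deriv (fun w => ev R x (φ w)) z ≠ 0) {γ : ℂ → ℂ}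
    (hD : ∀ᶠ u in 𝓝 z, Dl R 𝓤 P Q wt x u = γ u * deriv (fun w => ev R x (φ w)) u) :
    CH 𝓤 z (tq R x P Q wt) γ := by
  have h1 := (ch_ev R h.lP h.hP h.cv.hol hx).deriv
  refine ((ch_dq R h hx).div h1 hx').congr (Eventually.of_forall fun p => rfl) ?_
  have h2 : ∀ᶠ u in 𝓝 z, deriv (fun w => ev R x (φ w)) u ≠ 0 :=
    h1.an.continuousAt.eventually_ne hx'
  filter_upwards [hD, h2] with u k1 k2
  rw [k1, mul_div_cancel_right₀ _ k2]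

theorem er_tq (h : Dfo y 𝓤 φ P Q wt) {x : K} (hx : good R x (φ z))
    (hx' : deriv (fun w => ev R x (φ w)) z ≠ 0) :
    ∀ᶠ p : ℕ × ℂ in (𝓤 : Filter ℕ) ×ˢ 𝓝 z, Er wt (tq R x P Q wt) (fun m w => ev R x (P m w))
      (fun m w => ev R x (Q m w)) p.1 p.2 = 0 := by
  filter_upwards [(ch_ev R h.lP h.hP h.cv.hol hx).deriv.ne hx'] with p hp
  unfold Er tq
  rw [div_mul_cancel₀ _ hp]
  unfold dq dqf
  ring

theorem cz_er (h : Dfo y 𝓤 φ P Q wt) {t : ℕ → ℂ → ℂ} {γ : ℂ → ℂ} (ht : CH 𝓤 z t γ) {f : K}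
    (hf : good R f (φ z))
    (hD : ∀ᶠ u in 𝓝 z, Dl R 𝓤 P Q wt f u = γ u * deriv (fun w => ev R f (φ w)) u) :
    CZ 𝓤 z (Er wt t (fun m w => ev R f (P m w)) (fun m w => ev R f (Q m w))) := by
  have h1 := (ch_dq R h hf).sub (ht.mul (ch_ev R h.lP h.hP h.cv.hol hf).deriv)
  refine h1.congr (Eventually.of_forall fun p => rfl) ?_
  filter_upwards [hD] with u hu
  rw [hu, sub_self]

theorem geq_ev (h : Dfo y 𝓤 φ P Q wt) {c : ℂ} (hz : gg R σ φ z) (hP : ∀ m, GEq R σ c (P m))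
    (hQ : ∀ m, GEq R σ c (Q m)) :
    (∀ᶠ p : ℕ × ℂ in (𝓤 : Filter ℕ) ×ˢ 𝓝 z,
      deriv (fun w => ev R σ.x (P p.1 w)) p.2 ^ σ.n * fV σ.S (fun s w => ev R (σ.h s) (P p.1 w))
        (fun w => ev R σ.x (P p.1 w)) (fun w => ev R σ.y (P p.1 w)) σ.k 0 p.2 = c) ∧
    ∀ᶠ p : ℕ × ℂ in (𝓤 : Filter ℕ) ×ˢ 𝓝 z,
      deriv (fun w => ev R σ.x (Q p.1 w)) p.2 ^ σ.n * fV σ.S (fun s w => ev R (σ.h s) (Q p.1 w))
        (fun w => ev R σ.x (Q p.1 w)) (fun w => ev R σ.y (Q p.1 w)) σ.k 0 p.2 = c := by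
  constructor
  · filter_upwards [gg_lim R h.lP h.hP h.cv.hol hz] with p hp using hP p.1 p.2 hp
  · filter_upwards [gg_lim R h.lQ h.hQ h.cv.hol hz] with p hp using hQ p.1 p.2 hp

theorem get_ev (h : Dfo y 𝓤 φ P Q wt) {q : ℕ} (hz : gg R σ φ z) (hP : ∀ m, GEt R σ q (P m))
    (hQ : ∀ m, GEt R σ q (Q m)) :
    (∀ᶠ p : ℕ × ℂ in (𝓤 : Filter ℕ) ×ˢ 𝓝 z, fV σ.S (fun s w => ev R (σ.h s) (P p.1 w))
        (fun w => ev R σ.x (P p.1 w)) (fun w => ev R σ.y (P p.1 w)) σ.k q p.2 = 0) ∧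
    ∀ᶠ p : ℕ × ℂ in (𝓤 : Filter ℕ) ×ˢ 𝓝 z, fV σ.S (fun s w => ev R (σ.h s) (Q p.1 w))
        (fun w => ev R σ.x (Q p.1 w)) (fun w => ev R σ.y (Q p.1 w)) σ.k q p.2 = 0 := by
  constructor
  · filter_upwards [gg_lim R h.lP h.hP h.cv.hol hz] with p hp using hP p.1 p.2 hp
  · filter_upwards [gg_lim R h.lQ h.hQ h.cv.hol hz] with p hp using hQ p.1 p.2 hp

/-- **The linearised equation.** -/
theorem gls (h : Dfo y 𝓤 φ P Q wt) {α : ℂ}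
    (hwt : ∀ m z, HasDerivAt (wt m) (a m * wt m z) z) (ha : Tendsto a 𝓤 (𝓝 α))
    {c : ℂ} (hc : c ≠ 0) (hn : 0 < σ.n) (hP : ∀ m, GEq R σ c (P m))
    (hQ : ∀ m, GEq R σ c (Q m)) {g : MK} (hδ : ∀ k, h.del R k = g * MD (h.cv.emb R k)) :
    MD g = algebraMap ℂ MK α * g := by
  obtain ⟨γ, hγ, rfl⟩ := cl_surj g
  rw [MD_cl, ← cl_const, cl_mul, cl_eq]
  have hk : ∀ k : K, ∀ᶠ z in codiscrete ℂ, Dl R 𝓤 P Q wt k z =
      γ z * deriv (fun w => ev R k (φ w)) z := mul_codis R h hδ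
  have hks : ∀ᶠ z in codiscrete ℂ, ∀ s ∈ σ.S, Dl R 𝓤 P Q wt (σ.h s) z =
      γ z * deriv (fun w => ev R (σ.h s) (φ w)) z := by
    rw [Filter.eventually_all_finset]
    exact fun s _ => hk _
  have hW : ∀ᶠ z in codiscrete ℂ, AnalyticAt ℂ γ z ∧ gg R σ φ z ∧
      (∀ s ∈ σ.S, Dl R 𝓤 P Q wt (σ.h s) z =
        γ z * deriv (fun w => ev R (σ.h s) (φ w)) z) ∧
      Dl R 𝓤 P Q wt σ.x z = γ z * deriv (fun w => ev R σ.x (φ w)) z ∧
      Dl R 𝓤 P Q wt σ.y z = γ z * deriv (fun w => ev R σ.y (φ w)) z := by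
    filter_upwards [mero_an hγ, gg_codis R h.cv σ, hks, hk σ.x, hk σ.y]
      with z k1 k2 k3 k4 k5 using ⟨k1, k2, k3, k4, k5⟩
  filter_upwards [hW] with z hz
  have hzn := codis_nhds hW hz
  obtain ⟨hz1, hz2, hz3, -, -⟩ := hz
  rw [Pi.mul_apply]
  obtain ⟨e1, e2⟩ := geq_ev R h hz2 hP hQ
  have ht := ch_tq R h hz2.1.2.1 hz2.2 (by filter_upwards [hzn] with u hu using hu.2.2.2.1)
  exact rigA (η := fun x => ev R σ.y (φ x)) (h := fun s x => ev R (σ.h s) (φ x)) ha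
    { c := calA ha
      hw := hwt
      ht := ht
      hX := adA R h hz2.1.2.1
      hξ := hz2.2
      hX0 := er_tq R h hz2.1.2.1 hz2.2 }
    ⟨adA R h hz2.1.2.2, cz_er R h ht hz2.1.2.2 (by filter_upwards [hzn] with u hu using hu.2.2.2.2)⟩
    (fun s hs => ⟨adA R h (hz2.1.1 s hs),
      cz_er R h ht (hz2.1.1 s hs) (by filter_upwards [hzn] with u hu using hu.2.2.1 s hs)⟩) e1 e2 hn hc

/-- the chain rule for the derivatives along a curve -/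
theorem ev_chain {ψ : ℂ → Mat (n + 1)} (h : Cv y ψ) {x : Fin 2 → K}
    {E : Fin 2 → Derivation ℂ K K} (hx : Dual x E) {f : K} {u : ℂ} (h1 : good R f (ψ u))
    (h2 : good R (E 0 f) (ψ u)) (h3 : good R (E 1 f) (ψ u)) (h4 : good R (x 0) (ψ u))
    (h5 : good R (x 1) (ψ u)) : deriv (fun w => ev R f (ψ w)) u =
      ev R (E 0 f) (ψ u) * deriv (fun w => ev R (x 0) (ψ w)) u +
      ev R (E 1 f) (ψ u) * deriv (fun w => ev R (x 1) (ψ w)) u := by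
  have h6 := (h.isDer R).chain hx f
  rw [Fin.sum_univ_two] at h6
  simp only [Cv.emb_apply, MD_cl, cl_mul, cl_add] at h6
  have h7 := cl_eq.1 h6
  have h8 : ∀ᶠ z in codiscrete ℂ, deriv (fun w => ev R f (ψ w)) z =
      ev R (E 0 f) (ψ z) * deriv (fun w => ev R (x 0) (ψ w)) z +
      ev R (E 1 f) (ψ z) * deriv (fun w => ev R (x 1) (ψ w)) z := by
    filter_upwards [h7] with z hz
    rw [hz]
    simp only [Pi.add_apply, Pi.mul_apply]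
    ring
  exact eq_of_codis h8 (h.an R h1).deriv.continuousAt
    (((h.an R h2).mul (h.an R h4).deriv).add ((h.an R h3).mul (h.an R h5).deriv)).continuousAt

/-- everything is defined for the chain rule -/
def cgd (x : Fin 2 → K) (E : Fin 2 → Derivation ℂ K K) (f : K) (M : Mat (n + 1)) : Prop :=
  good R f M ∧ good R (E 0 f) M ∧ good R (E 1 f) M ∧ good R (x 0) M ∧ good R (x 1) M

theorem cgd_codis {ψ : ℂ → Mat (n + 1)} (h : Cv y ψ) (x : Fin 2 → K)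
    (E : Fin 2 → Derivation ℂ K K) (f : K) : ∀ᶠ z in codiscrete ℂ, cgd R x E f (ψ z) := by
  filter_upwards [h.good R f, h.good R (E 0 f), h.good R (E 1 f), h.good R (x 0),
    h.good R (x 1)] with z k1 k2 k3 k4 k5 using ⟨k1, k2, k3, k4, k5⟩

theorem cgd_ev {x : Fin 2 → K} {E : Fin 2 → Derivation ℂ K K} (h : Dfo y 𝓤 φ P Q wt) {f : K}
    (hz : cgd R x E f (φ z)) :
    ∀ᶠ p : ℕ × ℂ in (𝓤 : Filter ℕ) ×ˢ 𝓝 z, cgd R x E f (P p.1 p.2) := by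
  filter_upwards [good_ev R h.lP hz.1, good_ev R h.lP hz.2.1, good_ev R h.lP hz.2.2.1,
    good_ev R h.lP hz.2.2.2.1, good_ev R h.lP hz.2.2.2.2] with p k1 k2 k3 k4 k5 using
      ⟨k1, k2, k3, k4, k5⟩

/-- the normal part of a rational function -/
theorem er_dfe {x : Fin 2 → K} {E : Fin 2 → Derivation ℂ K K} (hx : Dual x E)
    (h : Dfo y 𝓤 φ P Q wt) (cvP : ∀ m, Cv y (P m)) (t : ℕ → ℂ → ℂ) {f : K}
    (hz : cgd R x E f (φ z)) : ∀ᶠ p : ℕ × ℂ in (𝓤 : Filter ℕ) ×ˢ 𝓝 z,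
      Er wt t (fun m w => ev R f (P m w)) (fun m w => ev R f (Q m w)) p.1 p.2 =
        Dfe R x E P Q wt f p.1 p.2 +
        (ev R (E 0 f) (P p.1 p.2) * Er wt t (fun m w => ev R (x 0) (P m w))
          (fun m w => ev R (x 0) (Q m w)) p.1 p.2 +
        ev R (E 1 f) (P p.1 p.2) * Er wt t (fun m w => ev R (x 1) (P m w))
          (fun m w => ev R (x 1) (Q m w)) p.1 p.2) := by
  filter_upwards [cgd_ev R h hz] with p hp
  obtain ⟨k1, k2, k3, k4, k5⟩ := hp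
  unfold Er Dfe dqf dq
  rw [ev_chain R (cvP p.1) hx k1 k2 k3 k4 k5]
  ring

section

variable {κ : ℕ → ℂ}

/-- the points at which the normal part can be calculated -/
structure Gpt (R : ∀ h : K, Frac y h) (𝓤 : Ultrafilter ℕ) (φ : ℂ → Mat (n + 1))
    (P Q : ℕ → ℂ → Mat (n + 1)) (wt : ℕ → ℂ → ℂ) (a : ℕ → ℂ) (σ : Ex K)
    (E0 : Fin 2 → Derivation ℂ K K) (γ : ℂ) (z : ℂ) : Prop where
  gg : gg R σ φ z
  cg : ∀ s ∈ σ.S, cgd R ![σ.x, σ.y] E0 (σ.h s) (φ z)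
  ng : ∀ s ∈ σ.S, Ng 𝓤 z a (Dfe R ![σ.x, σ.y] E0 P Q wt (σ.h s))
  dx : Dl R 𝓤 P Q wt σ.x z = γ * deriv (fun w => ev R σ.x (φ w)) z
  dy : Dl R 𝓤 P Q wt σ.y z = γ * deriv (fun w => ev R σ.y (φ w)) z

variable (h : Dfo y 𝓤 φ P Q wt) (ha : Inf 𝓤 a)
  (hng : ∀ z, Ng 𝓤 z a (fun m x => (wt m x)⁻¹))
  (hne : ∀ z, ∀ᶠ p : ℕ × ℂ in (𝓤 : Filter ℕ) ×ˢ 𝓝 z, wt p.1 p.2 ≠ 0)

include ha hng hne in
theorem gpt_codis {E0 : Fin 2 → Derivation ℂ K K} (hE0 : Dual ![σ.x, σ.y] E0) {γ : ℂ}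
    (hδ : ∀ k, h.del R k = algebraMap ℂ MK γ * MD (h.cv.emb R k)) :
    ∀ᶠ z in codiscrete ℂ, Gpt R 𝓤 φ P Q wt a σ E0 γ z := by
  have hγ : ∀ f : K, ∀ᶠ z in codiscrete ℂ,
      Dl R 𝓤 P Q wt f z = γ * deriv (fun w => ev R f (φ w)) z := fun f =>
    mul_codis R h (γ := fun _ => γ) (hγ := Meromorphic.const γ) (fun k => by
      rw [cl_const]
      exact hδ k) f
  have h1 : ∀ᶠ z in codiscrete ℂ, ∀ s ∈ σ.S, cgd R ![σ.x, σ.y] E0 (σ.h s) (φ z) := by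
    rw [Filter.eventually_all_finset]
    exact fun s _ => cgd_codis R h.cv _ _ _
  have h2 : ∀ᶠ z in codiscrete ℂ, ∀ s ∈ σ.S,
      Ng 𝓤 z a (Dfe R ![σ.x, σ.y] E0 P Q wt (σ.h s)) := by
    rw [Filter.eventually_all_finset]
    exact fun s _ => chain_ng R h ha hng hne hE0 _
  filter_upwards [gg_codis R h.cv σ, h1, h2, hγ σ.x, hγ σ.y] with z k1 k2 k3 k4 k5
    using ⟨k1, k2, k3, k4, k5⟩

include h ha hng hne in
/-- the hypotheses of the asymptotic analysis -/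
theorem dtB (hwt : ∀ m z, HasDerivAt (wt m) (a m * wt m z) z) (cvP : ∀ m, Cv y (P m))
    {E0 : Fin 2 → Derivation ℂ K K} (hE0 : Dual ![σ.x, σ.y] E0) {γ : ℂ}
    (hz : ∀ᶠ u in 𝓝 z, Gpt R 𝓤 φ P Q wt a σ E0 γ u) :
    DtB 𝓤 z a wt (tq R σ.x P Q wt) (fun m w => ev R σ.x (P m w)) (fun m w => ev R σ.x (Q m w))
      (fun m w => ev R σ.y (P m w)) (fun m w => ev R σ.y (Q m w)) (fun w => ev R σ.x (φ w))
      (fun w => ev R σ.y (φ w)) γ σ.S (fun s m w => ev R (σ.h s) (P m w))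
      (fun s m w => ev R (σ.h s) (Q m w)) (fun s w => ev R (σ.h s) (φ w)) := by
  have g := hz.self_of_nhds
  have ht : CH 𝓤 z (tq R σ.x P Q wt) (fun _ => γ) :=
    ch_tq R h g.gg.1.2.1 g.gg.2 (hz.mono fun u hu => hu.dx)
  have hX0 := er_tq R h g.gg.1.2.1 g.gg.2
  refine ⟨ha, ⟨calB ha, hwt, ht, adB R h ha (hng z) (hne z) g.gg.1.2.1, g.gg.2, hX0⟩,
    adB R h ha (hng z) (hne z) g.gg.1.2.2, ?_, fun s hs =>
    ⟨adB R h ha (hng z) (hne z) (g.gg.1.1 s hs), fun i hi => ?_⟩⟩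
  · rw [Sm.zero_iff]
    exact cz_er R h ht g.gg.1.2.2 (hz.mono fun u hu => hu.dy)
  · have h1 := (g.ng s hs i).add (hi.ch (ch_ev R h.lP h.hP h.cv.hol (g.cg s hs).2.2.1))
    refine h1.congr ?_
    filter_upwards [er_dfe R hE0 h cvP (tq R σ.x P Q wt) (g.cg s hs), hX0] with p k1 k2
    rw [k1]
    simp only [Matrix.cons_val_zero, Matrix.cons_val_one]
    rw [k2]
    ring

include ha hng hne in
/-- **The second case.** -/
theorem gam_zero (hwt : ∀ m z, HasDerivAt (wt m) (a m * wt m z) z) (cvP : ∀ m, Cv y (P m))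
    {E0 : Fin 2 → Derivation ℂ K K} (hE0 : Dual ![σ.x, σ.y] E0) {γ : ℂ}
    (hδ : ∀ k, h.del R k = algebraMap ℂ MK γ * MD (h.cv.emb R k))
    {c : ℂ} (hc : c ≠ 0) (hn : 0 < σ.n) {q : ℕ} (hP : ∀ m, GEq R σ c (P m))
    (hQ : ∀ m, GEq R σ c (Q m)) (hPq : ∀ m, GEt R σ q (P m)) (hQq : ∀ m, GEt R σ q (Q m))
    (hv : ∀ᶠ z in codiscrete ℂ, gv R σ (q + 1) φ z ≠ 0) : γ = 0 := by
  have hG := gpt_codis R h ha hng hne hE0 hδ
  obtain ⟨z, hz, hvz⟩ := (hG.and hv).exists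
  have hzn := codis_nhds hG hz
  obtain ⟨e1, e2⟩ := geq_ev R h hz.gg hP hQ
  obtain ⟨e3, e4⟩ := get_ev R h hz.gg hPq hQq
  exact (dtB R h ha hng hne hwt cvP hE0 hzn).zero e1 e2 e3 e4 hvz hn hc

/-- the coefficient -/
noncomputable def lam (σ : Ex K) (ψ : ℂ → Mat (n + 1)) (z : ℂ) : ℂ :=
  deriv (fun w => ev R σ.x (ψ w)) z / bS σ.S (fun s w => ev R (σ.h s) (ψ w))
    (fun w => ev R σ.x (ψ w)) (fun w => ev R σ.y (ψ w)) σ.k 1 σ.n z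

include h ha hng hne in
/-- **The normal component.** -/
theorem gnn_lim (hwt : ∀ m z, HasDerivAt (wt m) (a m * wt m z) z) (cvP : ∀ m, Cv y (P m))
    {E0 : Fin 2 → Derivation ℂ K K} (hE0 : Dual ![σ.x, σ.y] E0) {γ : ℂ}
    (hz : ∀ᶠ u in 𝓝 z, Gpt R 𝓤 φ P Q wt a σ E0 γ u)
    {c : ℂ} (hP : ∀ m, GEq R σ c (P m)) (hQ : ∀ m, GEq R σ c (Q m))
    (hv : gv R σ 1 φ z ≠ 0) {E : Fin 2 → Derivation ℂ K K} {i j k : Fin (n + 1)}
    (hi : y i ≠ 0) (hx : Dual ![y j / y i, y k / y i] E) (hnz : nz (X i) (φ z))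
    (hcx : cgd R ![y j / y i, y k / y i] E σ.x (φ z))
    (hcy : cgd R ![y j / y i, y k / y i] E σ.y (φ z))
    (hnx : Ng 𝓤 z a (Dfe R ![y j / y i, y k / y i] E P Q wt σ.x))
    (hny : Ng 𝓤 z a (Dfe R ![y j / y i, y k / y i] E P Q wt σ.y))
    (hJg : good R (cJ E σ.x σ.y) (φ z)) (hJ : ev R (cJ E σ.x σ.y) (φ z) ≠ 0)
    (hJ1 : ev R (cJ E σ.x σ.y) (φ z) = ev R (E 0 σ.x) (φ z) * ev R (E 1 σ.y) (φ z) -
      ev R (E 1 σ.x) (φ z) * ev R (E 0 σ.y) (φ z)) :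
    Tendsto (fun p : ℕ × ℂ => a p.1 ^ σ.k * NN i j k P Q wt p.1 p.2) ((𝓤 : Filter ℕ) ×ˢ 𝓝 z)
      (𝓝 (σ.n * c * γ * lam R σ φ z / ev R (cJ E σ.x σ.y) (φ z))) := by
  have g := hz.self_of_nhds
  obtain ⟨e1, e2⟩ := geq_ev R h g.gg hP hQ
  have h1 := (dtB R h ha hng hne hwt cvP hE0 hz).lim e1 e2 hv
  have h1t := h1.tendsto
  have hPz : ∀ {f : K}, good R f (φ z) → CH 𝓤 z (fun m w => ev R f (P m w))
      (fun w => ev R f (φ w)) := fun hf => ch_ev R h.lP h.hP h.cv.hol hf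
  -- the Jacobian along the curves
  set JP : ℕ → ℂ → ℂ := fun m w => ev R (E 0 σ.x) (P m w) * ev R (E 1 σ.y) (P m w) -
    ev R (E 1 σ.x) (P m w) * ev R (E 0 σ.y) (P m w) with hJP
  have hJPc : CH 𝓤 z JP (fun w => ev R (E 0 σ.x) (φ w) * ev R (E 1 σ.y) (φ w) -
      ev R (E 1 σ.x) (φ w) * ev R (E 0 σ.y) (φ w)) :=
    ((hPz hcx.2.1).mul (hPz hcy.2.2.1)).sub ((hPz hcx.2.2.1).mul (hPz hcy.2.1))
  have hJP0 : ev R (E 0 σ.x) (φ z) * ev R (E 1 σ.y) (φ z) -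
      ev R (E 1 σ.x) (φ z) * ev R (E 0 σ.y) (φ z) ≠ 0 := by rwa [← hJ1]
  -- the errors
  have n1 := (hnx (σ.k : ℤ)).ch (hPz g.gg.1.2.2).deriv
  have n2 := (hny (σ.k : ℤ)).ch (hPz g.gg.1.2.1).deriv
  have n3 := n2.sub n1
  have n3t := CH.tendsto n3
  have hq : ∀ l' : Fin (n + 1), good R (y l' / y i) (φ z) →
      ∀ᶠ p : ℕ × ℂ in (𝓤 : Filter ℕ) ×ˢ 𝓝 z,
      dqf (ev R (y l' / y i)) P Q wt p.1 p.2 = dqf (qv (X l') (X i)) P Q wt p.1 p.2 ∧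
      deriv (fun w => ev R (y l' / y i) (P p.1 w)) p.2 =
        deriv (fun w => qv (X l') (X i) (P p.1 w)) p.2 := by
    intro l' hl'
    have m1 := good_ev R h.lP hl'
    have m2 := good_ev R h.lQ hl'
    have m3 : ∀ᶠ p : ℕ × ℂ in (𝓤 : Filter ℕ) ×ˢ 𝓝 z, nz (X i) (P p.1 p.2) :=
      (h.lP z (mem_univ z)).eventually ((isOpen_nz (X i)).mem_nhds hnz)
    have m4 : ∀ᶠ p : ℕ × ℂ in (𝓤 : Filter ℕ) ×ˢ 𝓝 z, nz (X i) (Q p.1 p.2) :=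
      (h.lQ z (mem_univ z)).eventually ((isOpen_nz (X i)).mem_nhds hnz)
    filter_upwards [m1, m2, m3, m4, ev_ev (r := fun m w => good R (y l' / y i) (P m w)) m1,
      ev_ev (r := fun m w => nz (X i) (P m w)) m3] with p k1 k2 k3 k4 k5 k6
    constructor
    · unfold dqf
      rw [ev_ratio R l' hi (h.mP _ _) k1 k3, ev_ratio R l' hi (h.mQ _ _) k2 k4]
    · apply EventuallyEq.deriv_eq
      filter_upwards [k5, k6] with w m1 m2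
      exact ev_ratio R l' hi (h.mP _ _) m1 m2
  have h2 := (h1t.sub n3t).div hJPc.tendsto hJP0
  rw [sub_zero, ← hJ1] at h2
  refine h2.congr' ?_
  filter_upwards [hJPc.ne hJP0, (hPz g.gg.1.2.1).deriv.ne g.gg.2, cgd_ev R h hcx, cgd_ev R h hcy,
    hq j hcx.2.2.2.1, hq k hcx.2.2.2.2] with p k1 k2 k3 k4 k5 k6
  obtain ⟨a1, a2, a3, a4, a5⟩ := k3
  obtain ⟨b1, b2, b3, b4, b5⟩ := k4
  have c1 := ev_chain R (cvP p.1) hx a1 a2 a3 a4 a5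
  have c2 := ev_chain R (cvP p.1) hx b1 b2 b3 b4 b5
  simp only [Matrix.cons_val_zero, Matrix.cons_val_one] at c1 c2
  rw [k5.2, k6.2] at c1 c2
  rw [Pi.div_apply, div_eq_iff k1]
  have d1 : deriv (fun w => ev R σ.x (P p.1 w)) p.2 * Er wt (tq R σ.x P Q wt)
      (fun m w => ev R σ.y (P m w)) (fun m w => ev R σ.y (Q m w)) p.1 p.2 =
      deriv (fun w => ev R σ.x (P p.1 w)) p.2 * dqf (ev R σ.y) P Q wt p.1 p.2 -
      dqf (ev R σ.x) P Q wt p.1 p.2 * deriv (fun w => ev R σ.y (P p.1 w)) p.2 := by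
    unfold Er tq
    have d2 : dq wt (fun m w => ev R σ.y (P m w)) (fun m w => ev R σ.y (Q m w)) p.1 p.2 =
      dqf (ev R σ.y) P Q wt p.1 p.2 := rfl
    rw [d2]
    field_simp
  have d3 : ∀ f : K, dqf (ev R f) P Q wt p.1 p.2 =
      Dfe R ![y j / y i, y k / y i] E P Q wt f p.1 p.2 +
      (ev R (E 0 f) (P p.1 p.2) * dqf (qv (X j) (X i)) P Q wt p.1 p.2 +
        ev R (E 1 f) (P p.1 p.2) * dqf (qv (X k) (X i)) P Q wt p.1 p.2) := by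
    intro f
    unfold Dfe
    simp only [Matrix.cons_val_zero, Matrix.cons_val_one]
    rw [k5.1, k6.1]
    ring
  rw [d1, zpow_natCast, d3 σ.x, d3 σ.y, c1, c2]
  unfold NN
  rw [hJP]
  ring

end

end Pool.Agent.L7h90.JG
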