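import Pool.Agent.L7h90.JG.Seq

/-! Pairs of sequences of holomorphic functions and their normalised differences. -/

set_option autoImplicit false
set_option linter.unusedSectionVars false
set_option linter.unusedVariables false

open Filter Topology Set Metric

namespace Pool.Agent.L7h90.JG

open Pool.Agent.L7h90.WR (at_z)

/-- the sequences which are admitted, and the sequences which are neglected -/
structure Cal (l : Filter ℕ) (z : ℂ) (a : ℕ → ℂ) (M N : (ℕ → ℂ → ℂ) → Prop) : Prop where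
  m_ch : ∀ {F : ℕ → ℂ → ℂ} {f : ℂ → ℂ}, CH l z F f → M F
  m_add : ∀ {F G : ℕ → ℂ → ℂ}, M F → M G → M (fun m w => F m w + G m w)
  m_mul : ∀ {F G : ℕ → ℂ → ℂ}, M F → M G → M (fun m w => F m w * G m w)
  m_der : ∀ {F : ℕ → ℂ → ℂ}, M F → M (fun m => deriv (F m))
  m_a : ∀ {F : ℕ → ℂ → ℂ}, M F → M (fun m w => a m * F m w)
  m_an : ∀ {F : ℕ → ℂ → ℂ}, M F → ∀ᶠ p : ℕ × ℂ in l ×ˢ 𝓝 z, AnalyticAt ℂ (F p.1) p.2
  m_congr : ∀ {F G : ℕ → ℂ → ℂ}, M F → (∀ᶠ p : ℕ × ℂ in l ×ˢ 𝓝 z, F p.1 p.2 = G p.1 p.2) → M G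
  n_m : ∀ {F : ℕ → ℂ → ℂ}, N F → M F
  n_add : ∀ {F G : ℕ → ℂ → ℂ}, N F → N G → N (fun m w => F m w + G m w)
  n_mul : ∀ {F G : ℕ → ℂ → ℂ}, N F → M G → N (fun m w => F m w * G m w)
  n_der : ∀ {F : ℕ → ℂ → ℂ}, N F → N (fun m => deriv (F m))
  n_congr : ∀ {F G : ℕ → ℂ → ℂ}, N F → (∀ᶠ p : ℕ × ℂ in l ×ˢ 𝓝 z, F p.1 p.2 = G p.1 p.2) → N G
  n_zero : N (fun _ _ => 0)

section

variable {l : Filter ℕ} [l.NeBot] {z : ℂ} {a : ℕ → ℂ} {M N : (ℕ → ℂ → ℂ) → Prop}
  {w t : ℕ → ℂ → ℂ}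

theorem Cal.m_neg (c : Cal l z a M N) {F : ℕ → ℂ → ℂ} (h : M F) : M (fun m w => -F m w) :=
  c.m_congr (c.m_mul (c.m_ch (CH.const (-1))) h) (Eventually.of_forall fun p => by ring)

theorem Cal.m_sub (c : Cal l z a M N) {F G : ℕ → ℂ → ℂ} (h : M F) (h' : M G) :
    M (fun m w => F m w - G m w) :=
  c.m_congr (c.m_add h (c.m_neg h')) (Eventually.of_forall fun p => by ring)

theorem Cal.n_neg (c : Cal l z a M N) {F : ℕ → ℂ → ℂ} (h : N F) : N (fun m w => -F m w) :=
  c.n_congr (c.n_mul h (c.m_ch (CH.const (-1)))) (Eventually.of_forall fun p => by ring)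

theorem Cal.n_sub (c : Cal l z a M N) {F G : ℕ → ℂ → ℂ} (h : N F) (h' : N G) :
    N (fun m w => F m w - G m w) :=
  c.n_congr (c.n_add h (c.n_neg h')) (Eventually.of_forall fun p => by ring)

theorem Cal.n_ch (c : Cal l z a M N) {F G : ℕ → ℂ → ℂ} {g : ℂ → ℂ} (h : N F) (h' : CH l z G g) :
    N (fun m w => F m w * G m w) := c.n_mul h (c.m_ch h')

/-- the normalised difference -/
def dq (w F G : ℕ → ℂ → ℂ) (m : ℕ) (x : ℂ) : ℂ := (G m x - F m x) * w m x

/-- the normal part of the normalised difference -/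
noncomputable def Er (w t F G : ℕ → ℂ → ℂ) (m : ℕ) (x : ℂ) : ℂ :=
  dq w F G m x - t m x * deriv (F m) x

/-- admissible pairs -/
structure Ad (l : Filter ℕ) (z : ℂ) (w : ℕ → ℂ → ℂ) (M N : (ℕ → ℂ → ℂ) → Prop)
    (F G : ℕ → ℂ → ℂ) (f : ℂ → ℂ) : Prop where
  cP : CH l z F f
  cQ : CH l z G f
  md : M (dq w F G)
  ng : N (fun m x => G m x - F m x)

variable {F G F' G' : ℕ → ℂ → ℂ} {f f' : ℂ → ℂ}

theorem Ad.const (c : Cal l z a M N) (e : ℂ) :
    Ad l z w M N (fun _ _ => e) (fun _ _ => e) (fun _ => e) where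
  cP := CH.const e
  cQ := CH.const e
  md := c.m_congr (c.m_ch (CH.const 0)) (Eventually.of_forall fun p => by unfold dq; ring)
  ng := c.n_congr c.n_zero (Eventually.of_forall fun p => by ring)

theorem Ad.add (c : Cal l z a M N) (h : Ad l z w M N F G f) (h' : Ad l z w M N F' G' f') :
    Ad l z w M N (fun m x => F m x + F' m x) (fun m x => G m x + G' m x)
      (fun x => f x + f' x) where
  cP := h.cP.add h'.cP
  cQ := h.cQ.add h'.cQ
  md := c.m_congr (c.m_add h.md h'.md) (Eventually.of_forall fun p => by unfold dq; ring)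
  ng := c.n_congr (c.n_add h.ng h'.ng) (Eventually.of_forall fun p => by ring)

theorem Ad.mul (c : Cal l z a M N) (h : Ad l z w M N F G f) (h' : Ad l z w M N F' G' f') :
    Ad l z w M N (fun m x => F m x * F' m x) (fun m x => G m x * G' m x)
      (fun x => f x * f' x) where
  cP := h.cP.mul h'.cP
  cQ := h.cQ.mul h'.cQ
  md := c.m_congr (c.m_add (c.m_mul h.md (c.m_ch h'.cQ)) (c.m_mul h'.md (c.m_ch h.cP)))
    (Eventually.of_forall fun p => by unfold dq; ring)
  ng := c.n_congr (c.n_add (c.n_ch h.ng h'.cQ) (c.n_ch h'.ng h.cP))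
    (Eventually.of_forall fun p => by ring)

theorem Ad.inv (c : Cal l z a M N) (h : Ad l z w M N F G f) (hf : f z ≠ 0) :
    Ad l z w M N (fun m x => (F m x)⁻¹) (fun m x => (G m x)⁻¹) (fun x => (f x)⁻¹) where
  cP := h.cP.inv hf
  cQ := h.cQ.inv hf
  md := by
    refine c.m_congr (c.m_neg (c.m_mul (c.m_mul h.md (c.m_ch (h.cQ.inv hf)))
      (c.m_ch (h.cP.inv hf)))) ?_
    filter_upwards [h.cP.ne hf, h.cQ.ne hf] with p h1 h2
    unfold dq
    field_simp
    ring
  ng := by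
    refine c.n_congr (c.n_neg (c.n_ch (c.n_ch h.ng (h.cQ.inv hf)) (h.cP.inv hf))) ?_
    filter_upwards [h.cP.ne hf, h.cQ.ne hf] with p h1 h2
    field_simp
    ring

theorem Ad.congr (c : Cal l z a M N) (h : Ad l z w M N F G f)
    (hF : ∀ᶠ p : ℕ × ℂ in l ×ˢ 𝓝 z, F p.1 p.2 = F' p.1 p.2)
    (hG : ∀ᶠ p : ℕ × ℂ in l ×ˢ 𝓝 z, G p.1 p.2 = G' p.1 p.2) (hf : f =ᶠ[𝓝 z] f') :
    Ad l z w M N F' G' f' where
  cP := h.cP.congr hF hf
  cQ := h.cQ.congr hG hf
  md := c.m_congr h.md (by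
    filter_upwards [hF, hG] with p h1 h2
    unfold dq
    rw [h1, h2])
  ng := c.n_congr h.ng (by
    filter_upwards [hF, hG] with p h1 h2
    rw [h1, h2])

/-- the normalised difference of the derivatives -/
theorem dq_der (c : Cal l z a M N) (hw : ∀ m x, HasDerivAt (w m) (a m * w m x) x)
    (h : Ad l z w M N F G f) : ∀ᶠ p : ℕ × ℂ in l ×ˢ 𝓝 z,
      dq w (fun m => deriv (F m)) (fun m => deriv (G m)) p.1 p.2 =
        deriv (dq w F G p.1) p.2 - a p.1 * dq w F G p.1 p.2 := by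
  filter_upwards [h.cP.ev, h.cQ.ev] with p h1 h2
  have h3 := ((h2.differentiableAt.hasDerivAt.sub h1.differentiableAt.hasDerivAt).mul
    (hw p.1 p.2)).deriv
  have h4 : deriv (dq w F G p.1) p.2 = deriv ((G p.1 - F p.1) * w p.1) p.2 := rfl
  rw [h4, h3, Pi.sub_apply]
  unfold dq
  ring

theorem Ad.deriv (c : Cal l z a M N) (hw : ∀ m x, HasDerivAt (w m) (a m * w m x) x)
    (h : Ad l z w M N F G f) :
    Ad l z w M N (fun m => deriv (F m)) (fun m => deriv (G m)) (deriv f) where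
  cP := h.cP.deriv
  cQ := h.cQ.deriv
  md := by
    refine c.m_congr (c.m_sub (c.m_der h.md) (c.m_a h.md)) ?_
    filter_upwards [dq_der c hw h] with p hp
    exact hp.symm
  ng := by
    refine c.n_congr (c.n_der h.ng) ?_
    filter_upwards [h.cP.ev, h.cQ.ev] with p h1 h2
    exact deriv_sub h2.differentiableAt h1.differentiableAt

/-- the normal part of the derivative -/
theorem er_der (c : Cal l z a M N) (hw : ∀ m x, HasDerivAt (w m) (a m * w m x) x)
    {τ : ℂ → ℂ} (ht : CH l z t τ) (h : Ad l z w M N F G f) : ∀ᶠ p : ℕ × ℂ in l ×ˢ 𝓝 z,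
      Er w t (fun m => deriv (F m)) (fun m => deriv (G m)) p.1 p.2 =
        (deriv (Er w t F G p.1) p.2 - a p.1 * Er w t F G p.1 p.2) +
          (deriv (t p.1) p.2 - a p.1 * t p.1 p.2) * deriv (F p.1) p.2 := by
  filter_upwards [dq_der c hw h, c.m_an h.md, ht.ev, h.cP.ev] with p h1 h2 h3 h4
  have h5 := (h2.differentiableAt.hasDerivAt.sub (h3.differentiableAt.hasDerivAt.mul
    h4.deriv.differentiableAt.hasDerivAt)).deriv
  have h6 : deriv (Er w t F G p.1) p.2 = deriv (dq w F G p.1 - t p.1 * deriv (F p.1)) p.2 := rfl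
  rw [h6, h5]
  unfold Er
  rw [h1]
  ring

/-- the product rule -/
theorem er_mul (c : Cal l z a M N) (h : Ad l z w M N F G f) (h' : Ad l z w M N F' G' f') :
    N (fun m x => Er w t (fun m x => F m x * F' m x) (fun m x => G m x * G' m x) m x -
      (F m x * Er w t F' G' m x + F' m x * Er w t F G m x)) := by
  refine c.n_congr (c.n_mul h'.ng h.md) ?_
  filter_upwards [h.cP.ev, h'.cP.ev] with p h1 h2
  unfold Er
  have h3 : _root_.deriv (fun x => F p.1 x * F' p.1 x) p.2 = _ :=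
    (h1.differentiableAt.hasDerivAt.mul h2.differentiableAt.hasDerivAt).deriv
  rw [h3]
  unfold dq
  ring

theorem er_add (h : Ad l z w M N F G f) (h' : Ad l z w M N F' G' f') :
    ∀ᶠ p : ℕ × ℂ in l ×ˢ 𝓝 z,
      Er w t (fun m x => F m x + F' m x) (fun m x => G m x + G' m x) p.1 p.2 =
        Er w t F G p.1 p.2 + Er w t F' G' p.1 p.2 := by
  filter_upwards [h.cP.ev, h'.cP.ev] with p h1 h2
  unfold Er
  have h3 : _root_.deriv (fun x => F p.1 x + F' p.1 x) p.2 = _ :=
    (h1.differentiableAt.hasDerivAt.add h2.differentiableAt.hasDerivAt).deriv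
  rw [h3]
  unfold dq
  ring

theorem er_congr (hF : ∀ᶠ p : ℕ × ℂ in l ×ˢ 𝓝 z, F p.1 p.2 = F' p.1 p.2)
    (hG : ∀ᶠ p : ℕ × ℂ in l ×ˢ 𝓝 z, G p.1 p.2 = G' p.1 p.2) :
    ∀ᶠ p : ℕ × ℂ in l ×ˢ 𝓝 z, Er w t F G p.1 p.2 = Er w t F' G' p.1 p.2 := by
  filter_upwards [ev_ev (r := fun m x => F m x = F' m x) hF, hG] with p h1 h2
  unfold Er dq
  rw [h2, h1.self_of_nhds, (show F p.1 =ᶠ[𝓝 p.2] F' p.1 from h1).deriv_eq]

theorem er_m (c : Cal l z a M N) {τ : ℂ → ℂ} (ht : CH l z t τ) (h : Ad l z w M N F G f) :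
    M (Er w t F G) := c.m_sub h.md (c.m_ch (ht.mul h.cP.deriv))

/-- ideals of sequences -/
structure Idl (l : Filter ℕ) (z : ℂ) (N T : (ℕ → ℂ → ℂ) → Prop) : Prop where
  n : ∀ {F : ℕ → ℂ → ℂ}, N F → T F
  add : ∀ {F G : ℕ → ℂ → ℂ}, T F → T G → T (fun m w => F m w + G m w)
  ch : ∀ {F G : ℕ → ℂ → ℂ} {g : ℂ → ℂ}, T F → CH l z G g → T (fun m w => F m w * G m w)
  congr : ∀ {F G : ℕ → ℂ → ℂ}, T F → (∀ᶠ p : ℕ × ℂ in l ×ˢ 𝓝 z, F p.1 p.2 = G p.1 p.2) → T G

theorem Idl.neg {T : (ℕ → ℂ → ℂ) → Prop} (hT : Idl l z N T) (h : T F) : T (fun m w => -F m w) :=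
  hT.congr (hT.ch h (CH.const (-1))) (Eventually.of_forall fun p => by ring)

theorem Idl.sub {T : (ℕ → ℂ → ℂ) → Prop} (hT : Idl l z N T) (h : T F) (h' : T G) :
    T (fun m w => F m w - G m w) :=
  hT.congr (hT.add h (hT.neg h')) (Eventually.of_forall fun p => by ring)

/-- admissible pairs with small normal part -/
structure AdT (l : Filter ℕ) (z : ℂ) (w t : ℕ → ℂ → ℂ) (M N T : (ℕ → ℂ → ℂ) → Prop)
    (F G : ℕ → ℂ → ℂ) (f : ℂ → ℂ) : Prop where
  ad : Ad l z w M N F G f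
  er : T (Er w t F G)

variable {T : (ℕ → ℂ → ℂ) → Prop}

theorem AdT.const (c : Cal l z a M N) (hT : Idl l z N T) (e : ℂ) :
    AdT l z w t M N T (fun _ _ => e) (fun _ _ => e) (fun _ => e) where
  ad := Ad.const c e
  er := hT.congr (hT.n c.n_zero) (Eventually.of_forall fun p => by
    unfold Er dq
    simp)

theorem AdT.add (c : Cal l z a M N) (hT : Idl l z N T) (h : AdT l z w t M N T F G f)
    (h' : AdT l z w t M N T F' G' f') :
    AdT l z w t M N T (fun m x => F m x + F' m x) (fun m x => G m x + G' m x)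
      (fun x => f x + f' x) where
  ad := h.ad.add c h'.ad
  er := hT.congr (hT.add h.er h'.er) (by
    filter_upwards [er_add (t := t) h.ad h'.ad] with p hp using hp.symm)

theorem AdT.mul (c : Cal l z a M N) (hT : Idl l z N T) (h : AdT l z w t M N T F G f)
    (h' : AdT l z w t M N T F' G' f') :
    AdT l z w t M N T (fun m x => F m x * F' m x) (fun m x => G m x * G' m x)
      (fun x => f x * f' x) where
  ad := h.ad.mul c h'.ad
  er := hT.congr (hT.add (hT.n (er_mul (t := t) c h.ad h'.ad))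
    (hT.add (hT.ch h'.er h.ad.cP) (hT.ch h.er h'.ad.cP)))
    (Eventually.of_forall fun p => by ring)

theorem AdT.pow (c : Cal l z a M N) (hT : Idl l z N T) (h : AdT l z w t M N T F G f) (n : ℕ) :
    AdT l z w t M N T (fun m x => F m x ^ n) (fun m x => G m x ^ n) (fun x => f x ^ n) := by
  induction n with
  | zero =>
    simp only [pow_zero]
    exact AdT.const c hT 1
  | succ n ih =>
    simp only [pow_succ]
    exact ih.mul c hT h

theorem AdT.sum (c : Cal l z a M N) (hT : Idl l z N T) {ι : Type} (s : Finset ι)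
    {F G : ι → ℕ → ℂ → ℂ} {f : ι → ℂ → ℂ} (h : ∀ i ∈ s, AdT l z w t M N T (F i) (G i) (f i)) :
    AdT l z w t M N T (fun m x => ∑ i ∈ s, F i m x) (fun m x => ∑ i ∈ s, G i m x)
      (fun x => ∑ i ∈ s, f i x) := by
  classical
  induction s using Finset.induction_on with
  | empty =>
    simp only [Finset.sum_empty]
    exact AdT.const c hT 0
  | insert b s hb ih =>
    simp only [Finset.sum_insert hb]
    exact (h b (Finset.mem_insert_self b s)).add c hT
      (ih fun i hi => h i (Finset.mem_insert_of_mem hi))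

theorem AdT.prod (c : Cal l z a M N) (hT : Idl l z N T) {ι : Type} (s : Finset ι)
    {F G : ι → ℕ → ℂ → ℂ} {f : ι → ℂ → ℂ} (h : ∀ i ∈ s, AdT l z w t M N T (F i) (G i) (f i)) :
    AdT l z w t M N T (fun m x => ∏ i ∈ s, F i m x) (fun m x => ∏ i ∈ s, G i m x)
      (fun x => ∏ i ∈ s, f i x) := by
  classical
  induction s using Finset.induction_on with
  | empty =>
    simp only [Finset.prod_empty]
    exact AdT.const c hT 1
  | insert b s hb ih =>
    simp only [Finset.prod_insert hb]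
    exact (h b (Finset.mem_insert_self b s)).mul c hT
      (ih fun i hi => h i (Finset.mem_insert_of_mem hi))

theorem Ad.pow (c : Cal l z a M N) (h : Ad l z w M N F G f) (n : ℕ) :
    Ad l z w M N (fun m x => F m x ^ n) (fun m x => G m x ^ n) (fun x => f x ^ n) := by
  induction n with
  | zero =>
    simp only [pow_zero]
    exact Ad.const c 1
  | succ n ih =>
    simp only [pow_succ]
    exact ih.mul c h

/-- the normal part of a power -/
theorem er_pow (c : Cal l z a M N) {τ : ℂ → ℂ} (ht : CH l z t τ) (h : Ad l z w M N F G f)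
    (n : ℕ) : N (fun m x => Er w t (fun m x => F m x ^ n) (fun m x => G m x ^ n) m x -
      n * F m x ^ (n - 1) * Er w t F G m x) := by
  induction n with
  | zero =>
    refine c.n_congr c.n_zero (Eventually.of_forall fun p => ?_)
    unfold Er dq
    simp
  | succ n ih =>
    have h1 := er_mul (t := t) c (h.pow c n) h
    have h2 := c.n_add h1 (c.n_ch ih h.cP)
    refine c.n_congr h2 (Eventually.of_forall fun p => ?_)
    rcases Nat.eq_zero_or_pos n with rfl | hn
    · simp only [pow_succ, pow_zero, one_mul, Nat.cast_zero, zero_mul, sub_zero, Nat.zero_add,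
        Nat.sub_self, Nat.cast_one]
      ring
    · have h3 : F p.1 p.2 ^ n = F p.1 p.2 ^ (n - 1) * F p.1 p.2 := by
        rw [← pow_succ, Nat.sub_add_cancel hn]
      simp only [pow_succ, Nat.add_sub_cancel]
      push_cast
      linear_combination (n * Er w t F G p.1 p.2) * h3

/-- the derivative with respect to the first coordinate -/
noncomputable def qd (X F : ℕ → ℂ → ℂ) (m : ℕ) (x : ℂ) : ℂ := deriv (F m) x / deriv (X m) x

variable {X X' : ℕ → ℂ → ℂ} {ξ : ℂ → ℂ}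

theorem Ad.qd (c : Cal l z a M N) (hw : ∀ m x, HasDerivAt (w m) (a m * w m x) x)
    (hX : Ad l z w M N X X' ξ) (hξ : _root_.deriv ξ z ≠ 0) (h : Ad l z w M N F G f) :
    Ad l z w M N (qd X F) (qd X' G) (fun x => _root_.deriv f x / _root_.deriv ξ x) := by
  have h1 := (h.deriv c hw).mul c ((hX.deriv c hw).inv c hξ)
  refine h1.congr c (Eventually.of_forall fun p => ?_) (Eventually.of_forall fun p => ?_)
    (Eventually.of_forall fun x => ?_)
  · unfold JG.qd
    rw [div_eq_mul_inv]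
  · unfold JG.qd
    rw [div_eq_mul_inv]
  · exact (div_eq_mul_inv _ _).symm

/-- the normal part of the quotient of the derivatives -/
theorem er_qd (c : Cal l z a M N) (hw : ∀ m x, HasDerivAt (w m) (a m * w m x) x)
    {τ : ℂ → ℂ} (ht : CH l z t τ) (hX : Ad l z w M N X X' ξ) (hξ : _root_.deriv ξ z ≠ 0)
    (hX0 : ∀ᶠ p : ℕ × ℂ in l ×ˢ 𝓝 z, Er w t X X' p.1 p.2 = 0) (h : Ad l z w M N F G f) :
    N (fun m x => Er w t (qd X F) (qd X' G) m x -
      (_root_.deriv (Er w t F G m) x - a m * Er w t F G m x) * (_root_.deriv (X m) x)⁻¹) := by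
  have hq := hX.qd c hw hξ h
  have hD := hX.deriv c hw
  have h1 := er_mul (t := t) c hq hD
  have h2 := c.n_ch h1 (hD.cP.inv hξ)
  have h3 := er_congr (w := w) (t := t)
    (F := fun m x => qd X F m x * _root_.deriv (X m) x)
    (F' := fun m => _root_.deriv (F m)) (G := fun m x => qd X' G m x * _root_.deriv (X' m) x)
    (G' := fun m => _root_.deriv (G m))
    (by
      filter_upwards [hD.cP.ne hξ] with p hp
      unfold qd
      field_simp)
    (by
      filter_upwards [hD.cQ.ne hξ] with p hp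
      unfold qd
      field_simp)
  refine c.n_congr (c.n_neg h2) ?_
  filter_upwards [h3, er_der c hw ht h, er_der c hw ht hX, hD.cP.ne hξ,
    ev_ev (r := fun m x => Er w t X X' m x = 0) hX0] with p k1 k2 k3 k4 k5
  have k6 : _root_.deriv (Er w t X X' p.1) p.2 = 0 := by
    have : Er w t X X' p.1 =ᶠ[𝓝 p.2] fun _ => 0 := k5
    rw [this.deriv_eq, deriv_const]
  rw [k6, k5.self_of_nhds] at k3
  rw [k1, k2, k3]
  unfold qd
  field_simp
  ring

end

end Pool.Agent.L7h90.JG
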