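import Pool.Agent.L7h90.JG.Wr
import Pool.Agent.L7h90.JT.Lines

/-! Products of Wronskians in the ideal of the regular invariant differential expressions. -/

set_option autoImplicit false

open MvPolynomial FF Pool.Agent.W602.GT Pool.Agent.TH143.GT

namespace Pool.Agent.L7h90.JG

open Pool.Agent.L7h90.WR Pool.Agent.L7h90.GL

section app

variable {K : Type} [Field K] [Algebra ℂ K] {A : Type} [CommRing A] [Algebra ℂ A] [Algebra K A]

omit [Algebra ℂ K] in
theorem app_C (D : Derivation ℂ A A) (f : K) : app (C f) D = algebraMap K A f := by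
  unfold app
  exact aeval_C _ _

omit [Algebra ℂ K] in
theorem app_X (D : Derivation ℂ A A) (i : K × ℕ) :
    app (X i) D = (D : A → A)^[i.2 + 1] (algebraMap K A i.1) := by
  unfold app
  exact aeval_X _ _

omit [Algebra ℂ K] in
theorem app_mul (D : Derivation ℂ A A) (p q : MvPolynomial (K × ℕ) K) :
    app (p * q) D = app p D * app q D := by
  unfold app
  rw [map_mul]

omit [Algebra ℂ K] in
theorem app_sub (D : Derivation ℂ A A) (p q : MvPolynomial (K × ℕ) K) :
    app (p - q) D = app p D - app q D := by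
  unfold app
  rw [map_sub]

omit [Algebra ℂ K] in
theorem app_pow (D : Derivation ℂ A A) (p : MvPolynomial (K × ℕ) K) (N : ℕ) :
    app (p ^ N) D = app p D ^ N := by
  unfold app
  rw [map_pow]

omit [Algebra ℂ K] in
theorem app_sum (D : Derivation ℂ A A) {ι : Type} (s : Finset ι)
    (p : ι → MvPolynomial (K × ℕ) K) : app (∑ i ∈ s, p i) D = ∑ i ∈ s, app (p i) D := by
  unfold app
  rw [map_sum]

omit [Algebra ℂ K] in
theorem app_prod (D : Derivation ℂ A A) {ι : Type} (s : Finset ι)
    (p : ι → MvPolynomial (K × ℕ) K) : app (∏ i ∈ s, p i) D = ∏ i ∈ s, app (p i) D := by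
  unfold app
  rw [map_prod]

end app

/-- the values on extensions -/
theorem app_ext {K A B : Type} [Field K] [Field A] [Algebra ℂ A] [Algebra K A]
    [Field B] [Algebra ℂ B] [Algebra K B] [Algebra A B] [IsScalarTower K A B]
    (p : MvPolynomial (K × ℕ) K) {D : Derivation ℂ A A} {D' : Derivation ℂ B B}
    (h : ∀ a, D' (algebraMap A B a) = algebraMap A B (D a)) :
    app p D' = algebraMap A B (app p D) := by
  have h1 : ∀ (n : ℕ) (f : K), algebraMap A B ((D : A → A)^[n] (algebraMap K A f)) =
      (D' : B → B)^[n] (algebraMap K B f) := by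
    intro n f
    induction n with
    | zero => exact (IsScalarTower.algebraMap_apply K A B f).symm
    | succ n ih => rw [Function.iterate_succ_apply', Function.iterate_succ_apply', ← ih, h]
  unfold app
  change _ = IsScalarTower.toAlgHom K A B _
  rw [← AlgHom.comp_apply, comp_aeval]
  congr 2
  funext i
  exact (h1 _ _).symm

theorem indep_ext {M B : Type} [Field M] [Algebra ℂ M] [Field B] [Algebra ℂ B] [Algebra M B]
    [IsScalarTower ℂ M B] {n : ℕ} {u : Fin n → M} (hu : Indep u) :
    Indep fun j => algebraMap M B (u j) := by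
  intro c e h
  apply hu c e
  apply (algebraMap M B).injective
  rw [map_sum, ← IsScalarTower.algebraMap_apply, ← h]
  refine Finset.sum_congr rfl fun j _ => ?_
  rw [map_mul, ← IsScalarTower.algebraMap_apply]

/-- **Products exclude solutions.** -/
theorem rigid_of_product {K : Type} [Field K] [Algebra ℂ K] (hK : JetProduct K) :
    JetRigid K := by
  intro A _ _ _ _ D hD
  by_contra hcon
  push Not at hcon
  obtain ⟨M, _, _, _, _, r, s, N, σ, ρ, h, u, halg, hσ, hh, hu, hid⟩ := hK
  let B := AlgebraicClosure A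
  let j : M →ₐ[K] B := IsAlgClosed.lift
  let _ : Algebra M B := j.toRingHom.toAlgebra
  have hjK : ∀ k : K, algebraMap M B (algebraMap K M k) = algebraMap A B (algebraMap K A k) := by
    intro k
    have h1 : j (algebraMap K M k) = algebraMap K B k := j.commutes k
    rw [← IsScalarTower.algebraMap_apply K A B]
    exact h1
  have : IsScalarTower ℂ M B := IsScalarTower.of_algebraMap_eq fun c => by
    rw [IsScalarTower.algebraMap_apply ℂ K M, hjK, ← IsScalarTower.algebraMap_apply ℂ K A,
      ← IsScalarTower.algebraMap_apply ℂ A B]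
  have : IsScalarTower K M B := IsScalarTower.of_algebraMap_eq fun k => (j.commutes k).symm
  obtain ⟨D', hD'⟩ := exists_ext (A := A) (B := B) D
  have hc' : ∀ b, D' b = 0 → ∃ c : ℂ, b = algebraMap ℂ B c := fun b hb => const_ext hD hD' hb
  have h1 := hid B D' hc'
  have h2 : ∀ i, app (σ i).p D' = 0 := by
    intro i
    have h3 := hcon (σ i) (hσ i).1 (hσ i).2
    rw [app_ext (A := A) (σ i).p hD', h3, map_zero]
  have h3 : ∀ j : ℕ, (D' : B → B)^[j] 0 = 0 := fun j => iterate_map_zero D' j
  simp only [h2, h3, mul_zero, Finset.sum_const_zero] at h1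
  rcases mul_eq_zero.1 h1.symm with h4 | h4
  · exact hh ((map_eq_zero _).1 h4)
  · obtain ⟨l, -, hl⟩ := Finset.prod_eq_zero_iff.1 h4
    exact wr_ne hc' (indep_ext (hu l)) hl

/-! ### products of Wronskians -/

section wpoly

variable {K : Type} [Field K] [Algebra ℂ K]

/-- the Wronskian as a differential expression -/
noncomputable def wpoly {n : ℕ} (u : Fin n → K) : MvPolynomial (K × ℕ) K :=
  (Matrix.of fun i j : Fin n => (X (u j, (i : ℕ)) : MvPolynomial (K × ℕ) K)).det

omit [Algebra ℂ K] in
theorem app_wpoly {A : Type} [CommRing A] [Algebra ℂ A] [Algebra K A] (D : Derivation ℂ A A)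
    {n : ℕ} (u : Fin n → K) : app (wpoly u) D = wr D fun j => algebraMap K A (u j) := by
  unfold app wpoly wr
  rw [AlgHom.map_det]
  congr 1
  ext i j
  exact aeval_X _ _

omit [Algebra ℂ K] in
theorem wpoly_mem {n : ℕ} (hn : 0 < n) (u : Fin n → K) :
    wpoly u ∈ Ideal.span (Set.range fun f : K => (X (f, 0) : MvPolynomial (K × ℕ) K)) := by
  obtain ⟨n, rfl⟩ : ∃ m, n = m + 1 := ⟨n - 1, by omega⟩
  unfold wpoly
  rw [Matrix.det_succ_row_zero]
  refine Ideal.sum_mem _ fun j _ => ?_
  refine Ideal.mul_mem_right _ _ (Ideal.mul_mem_left _ _ (Ideal.subset_span ⟨u j, ?_⟩))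
  rw [Matrix.of_apply]
  rfl

/-- a product of Wronskians -/
noncomputable def jprod {N : ℕ} (h : K) (u : Fin N → (n : ℕ) × (Fin n → K))
    (h0 : ∃ l, 0 < (u l).1) : Jet K where
  m := ∑ l, ∑ i : Fin (u l).1, ((i : ℕ) + 1)
  p := C h * ∏ l, wpoly (u l).2
  first := by
    obtain ⟨l, hl⟩ := h0
    apply Ideal.mul_mem_left
    rw [← Finset.mul_prod_erase Finset.univ (fun l => wpoly (u l).2) (Finset.mem_univ l)]
    exact Ideal.mul_mem_right _ _ (wpoly_mem hl _)
  inv := fun A _ _ _ _ D g => by
    rw [app_mul, app_mul, app_C, app_C, app_prod, app_prod, mul_left_comm, ← Finset.prod_pow_eq_pow_sum,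
      ← Finset.prod_mul_distrib]
    congr 1
    refine Finset.prod_congr rfl fun l _ => ?_
    rw [app_wpoly, app_wpoly, wr_smul]

theorem app_jprod {N : ℕ} (h : K) (u : Fin N → (n : ℕ) × (Fin n → K))
    (h0 : ∃ l, 0 < (u l).1) {A : Type} [CommRing A] [Algebra ℂ A] [Algebra K A]
    (D : Derivation ℂ A A) : app (jprod h u h0).p D =
      algebraMap K A h * ∏ l, wr D fun j => algebraMap K A ((u l).2 j) := by
  change app (C h * ∏ l, wpoly (u l).2) D = _
  rw [app_mul, app_C, app_prod]
  simp only [app_wpoly]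

theorem product_of_wronskians (hK : RegularWronskians K) : JetProduct K := by
  obtain ⟨N, h, u, h0, hh, hu, hreg⟩ := hK
  refine ⟨K, inferInstance, inferInstance, inferInstance, inferInstance, 1, 1, N,
    fun _ => jprod h u h0, fun _ _ => 1, h, u, inferInstance, fun _ => ⟨?_, fun P hP D hD => ?_⟩,
    hh, hu, ?_⟩
  · obtain ⟨l, hl⟩ := h0
    change 0 < ∑ l, ∑ i : Fin (u l).1, ((i : ℕ) + 1)
    refine Finset.sum_pos' (fun _ _ => Nat.zero_le _) ⟨l, Finset.mem_univ l, ?_⟩
    exact Finset.sum_pos' (fun _ _ => Nat.zero_le _) ⟨⟨0, hl⟩, Finset.mem_univ _, Nat.succ_pos _⟩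
  · rw [app_jprod]
    exact hreg P hP D hD
  · intro B iF iC iK iM iT iS D _
    have heq : iK = iM := Algebra.algebra_ext iK iM fun f =>
      @IsScalarTower.algebraMap_apply K K B _ _ _ _ iM iK iS f
    subst heq
    rw [Fin.sum_univ_one, Fin.sum_univ_one, app_jprod]
    have h1 : app (1 : MvPolynomial (K × ℕ) K) D = 1 := by
      unfold app
      rw [map_one]
    rw [h1, one_mul]
    rfl

end wpoly

/-! ### expressions of the second order -/

section conv

variable {K : Type} [Field K] [Algebra ℂ K]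

/-- an expression of the second order as a polynomial -/
noncomputable def jdp (σ : JT.JD K) : MvPolynomial (K × ℕ) K :=
  ∑ s ∈ σ.p.support, C (σ.p.coeff s) * X (σ.x, 0) ^ s 0 * X (σ.y, 0) ^ s 1 *
    (X (σ.x, 0) * X (σ.y, 1) - X (σ.x, 1) * X (σ.y, 0)) ^ s 2

theorem app_jdp {B : Type} [Field B] [Algebra ℂ B] [Algebra K B] (σ : JT.JD K)
    (D : Derivation ℂ B B) : app (jdp σ) D = σ.app D := by
  unfold jdp JT.JD.app JT.wrD
  rw [app_sum]
  refine Finset.sum_congr rfl fun s _ => ?_
  rw [app_mul, app_mul, app_mul, app_pow, app_pow, app_pow, app_sub, app_mul, app_mul, app_C,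
    app_X, app_X, app_X, app_X]
  rfl

theorem app_jd_smul {B : Type} [Field B] [Algebra ℂ B] [Algebra K B] (σ : JT.JD K)
    (D : Derivation ℂ B B) (g : B) : σ.app (g • D) = g ^ σ.m * σ.app D := by
  unfold JT.JD.app
  rw [Finset.mul_sum]
  refine Finset.sum_congr rfl fun s hs => ?_
  have h1 : ∀ a b : B, JT.wrD (g • D) a b = g ^ 3 * JT.wrD D a b := by
    intro a b
    unfold JT.wrD
    simp only [Derivation.smul_apply, smul_eq_mul, D.leibniz]
    ring
  rw [h1, ← σ.hom s hs]
  simp only [Derivation.smul_apply, smul_eq_mul]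
  ring

/-- an expression of the second order as an invariant differential expression -/
noncomputable def ofJD (σ : JT.JD K) (hm : 0 < σ.m) : Jet K where
  m := σ.m
  p := jdp σ
  first := by
    set I := Ideal.span (Set.range fun f : K => (X (f, 0) : MvPolynomial (K × ℕ) K)) with hI
    have hX : ∀ f : K, (X (f, 0) : MvPolynomial (K × ℕ) K) ∈ I := fun f =>
      Ideal.subset_span ⟨f, rfl⟩
    refine Ideal.sum_mem _ fun s hs => ?_
    have h1 := σ.hom s hs
    rcases Nat.eq_zero_or_pos (s 0) with h2 | h2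
    · rcases Nat.eq_zero_or_pos (s 1) with h3 | h3
      · refine Ideal.mul_mem_left _ _ (Ideal.pow_mem_of_mem _ ?_ _ (by omega))
        exact Ideal.sub_mem _ (Ideal.mul_mem_right _ _ (hX _)) (Ideal.mul_mem_left _ _ (hX _))
      · refine Ideal.mul_mem_right _ _ (Ideal.mul_mem_left _ _ ?_)
        exact Ideal.pow_mem_of_mem _ (hX _) _ h3
    · refine Ideal.mul_mem_right _ _ (Ideal.mul_mem_right _ _ (Ideal.mul_mem_left _ _ ?_))
      exact Ideal.pow_mem_of_mem _ (hX _) _ h2
  inv := fun A _ _ _ _ D g => by rw [app_jdp, app_jdp, app_jd_smul]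

theorem wr_one {B : Type} [Field B] [Algebra ℂ B] (D : Derivation ℂ B B) (a : B) :
    wr D (fun _ : Fin 1 => a) = D a := by
  unfold wr
  rw [Matrix.det_fin_one]
  rfl

theorem wr_two {B : Type} [Field B] [Algebra ℂ B] (D : Derivation ℂ B B) (u : Fin 2 → B) :
    wr D u = JT.wrD D (u 0) (u 1) := by
  unfold wr JT.wrD
  rw [Matrix.det_fin_two]
  change D (u 0) * D (D (u 1)) - D (u 1) * D (D (u 0)) = _
  ring

/-- a list of functions and pairs of functions -/
def lst {M : Type} {k N : ℕ} (a : Fin k → M) (u v : Fin N → M) :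
    Fin (k + N) → (n : ℕ) × (Fin n → M) :=
  Fin.append (fun l => ⟨1, fun _ => a l⟩) fun l => ⟨2, ![u l, v l]⟩

theorem lst_prod {M B : Type} [Field M] [Field B] [Algebra ℂ B] [Algebra M B] {k N : ℕ}
    (a : Fin k → M) (u v : Fin N → M) (D : Derivation ℂ B B) :
    ∏ l, wr D (fun j => algebraMap M B ((lst a u v l).2 j)) = (∏ l, D (algebraMap M B (a l))) *
      ∏ l, JT.wrD D (algebraMap M B (u l)) (algebraMap M B (v l)) := by
  set G : (n : ℕ) × (Fin n → M) → B := fun p => wr D fun j => algebraMap M B (p.2 j) with hG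
  change ∏ l, G (lst a u v l) = _
  rw [Fin.prod_univ_add]
  unfold lst
  simp only [Fin.append_left, Fin.append_right]
  congr 1
  · refine Finset.prod_congr rfl fun l _ => ?_
    exact wr_one D _
  · refine Finset.prod_congr rfl fun l _ => ?_
    exact wr_two D _

theorem lst_indep {M : Type} [Field M] [Algebra ℂ M] {k N : ℕ} {a : Fin k → M} {u v : Fin N → M}
    (ha : ∀ l, Transcendental ℂ (a l)) (hu : ∀ l, AlgebraicIndependent ℂ ![u l, v l]) :
    ∀ l, Indep (lst a u v l).2 := by
  intro l
  set G : (n : ℕ) × (Fin n → M) → Prop := fun p => Indep p.2 with hG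
  change G (lst a u v l)
  unfold lst
  refine Fin.addCases (fun l => ?_) (fun l => ?_) l
  · rw [Fin.append_left]
    intro c e h
    change ∑ j : Fin 1, algebraMap ℂ M (c j) * a l = algebraMap ℂ M e at h
    rw [Fin.sum_univ_one] at h
    funext j
    rw [Subsingleton.elim j 0]
    by_contra h0
    apply ha l
    have h1 : a l = algebraMap ℂ M (e / c 0) := by
      have h2 : algebraMap ℂ M (c 0) ≠ 0 := (map_ne_zero _).2 h0
      rw [map_div₀, ← h, mul_comm, mul_div_assoc, div_self h2, mul_one]
    rw [h1]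
    exact isAlgebraic_algebraMap _
  · rw [Fin.append_right]
    intro c e h
    change ∑ j : Fin 2, algebraMap ℂ M (c j) * (![u l, v l] : Fin 2 → M) j = algebraMap ℂ M e at h
    rw [Fin.sum_univ_two] at h
    have h6 := hu l
    rw [algebraicIndependent_iff] at h6
    have h7 := h6 (C (c 0) * X 0 + C (c 1) * X 1 - C e) (by
      simp only [map_sub, map_add, map_mul, aeval_X, aeval_C]
      rw [h, sub_self])
    have key : ∀ i : Fin 2, c i = 0 := by
      intro i
      have h8 := congrArg (MvPolynomial.coeff (Finsupp.single i 1)) h7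
      rw [coeff_sub, coeff_add, coeff_C_mul, coeff_C_mul, coeff_C, coeff_zero, coeff_X, coeff_X]
        at h8
      have hne : ¬ (0 : Fin 2 →₀ ℕ) = Finsupp.single i 1 := fun h => by
        have := DFunLike.congr_fun h i
        simp at this
      rw [if_neg hne] at h8
      fin_cases i
      · have h9 : ¬ (Finsupp.single (1 : Fin 2) 1 : Fin 2 →₀ ℕ) = Finsupp.single 0 1 := fun h => by
          have := DFunLike.congr_fun h 0
          simp at this
        simpa [h9] using h8
      · have h9 : ¬ (Finsupp.single (0 : Fin 2) 1 : Fin 2 →₀ ℕ) = Finsupp.single 1 1 := fun h => by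
          have := DFunLike.congr_fun h 0
          simp at this
        simpa [h9] using h8
    funext i
    exact key i

/-- products of the second order -/
theorem product_of_jt (htr : Algebra.trdeg ℂ K = 2) (hK : JT.JetProduct K) : JetProduct K := by
  obtain ⟨M, iF, iC, iK, iT, r, k, N, σ, ρ, h, a, u, v, halg, hσ, hh, ha, hu, hid⟩ := hK
  have htrM : Algebra.trdeg ℂ M = 2 := by
    have h0 : Algebra.trdeg ℂ K + Algebra.trdeg K M = Algebra.trdeg ℂ M := _root_.trdeg_add_eq ℂ K
    rw [_root_.trdeg_eq_zero (R := K) (A := M), add_zero, htr] at h0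
    exact h0.symm
  obtain ⟨x, E, hx⟩ := JT.dual_of_trdeg htrM
  refine ⟨M, iF, iC, iK, iT, r, 1, k + N, fun i => ofJD (σ i) (hσ i).1, fun i _ => jdp (ρ i), h,
    lst a u v, halg, fun i => ⟨(hσ i).1, fun P hP D hD => ?_⟩, hh, lst_indep ha hu, ?_⟩
  · change P.Reg (app (jdp (σ i)) D)
    rw [app_jdp]
    exact (hσ i).2 P hP D hD
  · intro B _ _ _ _ _ _ D hD
    have hne : ∀ f : M, Transcendental ℂ f → D (algebraMap M B f) ≠ 0 := by
      intro f hf h0
      obtain ⟨c, hc⟩ := hD _ h0
      apply hf
      have h4 : f = algebraMap ℂ M c := by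
        apply (algebraMap M B).injective
        rw [hc, ← IsScalarTower.algebraMap_apply]
      rw [h4]
      exact isAlgebraic_algebraMap _
    have h1 := JT.jid_transfer (B := B) hx (ρ := ρ) (τ := fun i => (σ i).onExt M) (fun D => by
      rw [← hid D]
      refine Finset.sum_congr rfl fun i _ => ?_
      rw [JT.app_onExt]) D (hne _ (hx.1.1.transcendental 0))
    rw [lst_prod, ← mul_assoc, ← h1]
    refine Finset.sum_congr rfl fun i _ => ?_
    rw [Fin.sum_univ_one, JT.app_onExt, app_jdp]
    change (ρ i).app D * app (jdp (σ i)) D = _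
    rw [app_jdp]

/-- regular products of the second order -/
theorem wronskians_of_jt (hK : JT.RegularProduct K) : RegularWronskians K := by
  obtain ⟨k, N, h, a, u, v, h0, hh, ha, hu, hreg⟩ := hK
  refine ⟨k + N, h, lst a u v, ?_, hh, lst_indep ha hu, fun P hP D hD => ?_⟩
  · refine ⟨⟨0, h0⟩, ?_⟩
    have h1 : ∀ l : Fin (k + N), 0 < (lst a u v l).1 := by
      intro l
      unfold lst
      refine Fin.addCases (fun l => ?_) (fun l => ?_) l
      · rw [Fin.append_left]
        exact one_pos
      · rw [Fin.append_right]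
        exact two_pos
    exact h1 _
  · have h1 := lst_prod (M := K) (B := K) a u v D
    have h2 : ∏ l, wr D (lst a u v l).2 = (∏ l, D (a l)) * ∏ l, JT.wrD D (u l) (v l) := h1
    rw [h2, ← mul_assoc]
    exact hreg P hP D hD

end conv

end Pool.Agent.L7h90.JG
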