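import Pool.Agent.L7h90.JG.Del

/-! The coefficients of a regular invariant differential expression in local coordinates. -/

set_option autoImplicit false
set_option linter.unusedSectionVars false

open Filter Topology Set Metric MvPolynomial FF

namespace Pool.Agent.L7h90.JG

open Pool.Agent.N155 Pool.Agent.Y190.OP Pool.Agent.W602.GT Pool.Agent.TH143.GT
open Pool.Agent.L7h90.WR
open Pool.Agent.W603.LV (Ge)

variable {K : Type} [Field K] [Algebra ℂ K] {v : Place ℂ K} {ι κ : Type}

/-! ### polynomials with regular coefficients -/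

theorem ge_mul0 {a b : K} (ha : Ge v 0 a) (hb : Ge v 0 b) : Ge v 0 (a * b) := by
  have := ha.mul hb
  rwa [add_zero] at this

/-- all coefficients are regular -/
def RG (v : Place ℂ K) (p : MvPolynomial ι K) : Prop := ∀ s, Ge v 0 (p.coeff s)

theorem RG.add {p q : MvPolynomial ι K} (hp : RG v p) (hq : RG v q) : RG v (p + q) := fun s => by
  rw [coeff_add]
  exact (hp s).add (hq s)

theorem RG.neg {p : MvPolynomial ι K} (hp : RG v p) : RG v (-p) := fun s => by
  rw [coeff_neg]
  exact (hp s).neg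

theorem RG.mul {p q : MvPolynomial ι K} (hp : RG v p) (hq : RG v q) : RG v (p * q) := fun s => by
  classical
  rw [coeff_mul]
  exact Ge.sum _ _ fun x _ => ge_mul0 (hp x.1) (hq x.2)

theorem RG.zero : RG v (0 : MvPolynomial ι K) := fun s => by
  rw [coeff_zero]
  exact Ge.zero

theorem RG.monomial {a : K} (ha : Ge v 0 a) (m : ι →₀ ℕ) :
    RG v (MvPolynomial.monomial m a : MvPolynomial ι K) := fun s => by
  classical
  rw [coeff_monomial]
  split_ifs
  · exact ha
  · exact Ge.zero

theorem RG.C {a : K} (ha : Ge v 0 a) : RG v (MvPolynomial.C a : MvPolynomial ι K) :=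
  RG.monomial ha 0

theorem RG.X (i : ι) : RG v (MvPolynomial.X i : MvPolynomial ι K) := RG.monomial Ge.one _

theorem RG.one : RG v (1 : MvPolynomial ι K) := by
  rw [← C_1]
  exact RG.C Ge.one

theorem RG.natCast (n : ℕ) : RG v (n : MvPolynomial ι K) := by
  rw [← map_natCast (MvPolynomial.C : K →+* MvPolynomial ι K)]
  exact RG.C (Ge.natCast n)

theorem RG.pow {p : MvPolynomial ι K} (hp : RG v p) (N : ℕ) : RG v (p ^ N) := by
  induction N with
  | zero =>
    rw [pow_zero]
    exact RG.one
  | succ N ih =>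
    rw [pow_succ]
    exact ih.mul hp

theorem RG.sum {κ : Type} (s : Finset κ) {f : κ → MvPolynomial ι K} (h : ∀ i ∈ s, RG v (f i)) :
    RG v (∑ i ∈ s, f i) :=
  Finset.sum_induction f (RG v) (fun _ _ => RG.add) RG.zero h

theorem RG.prod {κ : Type} (s : Finset κ) {f : κ → MvPolynomial ι K} (h : ∀ i ∈ s, RG v (f i)) :
    RG v (∏ i ∈ s, f i) :=
  Finset.prod_induction f (RG v) (fun _ _ => RG.mul) RG.one h

theorem RG.aeval {p : MvPolynomial ι K} (hp : RG v p) {g : ι → MvPolynomial κ K}
    (hg : ∀ i, RG v (g i)) : RG v (MvPolynomial.aeval g p) := by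
  rw [aeval_def, eval₂_eq]
  exact RG.sum _ fun s _ => (RG.C (hp s)).mul (RG.prod _ fun i _ => (hg i).pow _)

theorem RG.mc {p : MvPolynomial ι K} (hp : RG v p) {E : Derivation ℂ K K} (hE : DerReg v E) :
    RG v (mc E p) := fun s => hE _ (hp s)

theorem RG.mkDer {p : MvPolynomial ι K} (hp : RG v p) {f : ι → MvPolynomial ι K}
    (hf : ∀ i, RG v (f i)) : RG v (mkDerivation K f p) := by
  rw [p.as_sum, map_sum]
  refine RG.sum _ fun s _ => ?_
  rw [mkDerivation_monomial, smul_eq_C_mul]
  refine (RG.C (hp s)).mul (RG.sum _ fun i _ => ?_)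
  exact (RG.monomial (Ge.natCast _) _).mul (hf i)

theorem RG.dj {E : Fin 2 → Derivation ℂ K K} {p : MvPolynomial (Fin 2 × ℕ) K} (hp : RG v p)
    (hE : ∀ l, DerReg v (E l)) : RG v (dj E p) := by
  rw [dj_apply]
  exact (((RG.X _).mul (hp.mc (hE 0))).add ((RG.X _).mul (hp.mc (hE 1)))).add
    (hp.mkDer fun i => RG.X _)

/-- a polynomial with regular values at the constants has regular coefficients -/
theorem RG.of_eval {q : MvPolynomial ι K}
    (h : ∀ c : ι → ℂ, Ge v 0 (MvPolynomial.eval (fun i => algebraMap ℂ K (c i)) q)) : RG v q := by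
  intro s
  by_contra hs
  let W : Submodule ℂ K :=
    { carrier := {f | Ge v 0 f}
      add_mem' := fun ha hb => Ge.add ha hb
      zero_mem' := Ge.zero
      smul_mem' := fun c f hf => by
        rw [Algebra.smul_def]
        exact ge_mul0 (Ge.const c) hf }
  have hsW : coeff s q ∉ W := hs
  obtain ⟨l, hl1, hl2⟩ := Submodule.exists_le_ker_of_notMem hsW
  set P : MvPolynomial ι ℂ := AddMonoidAlgebra.map l.toAddMonoidHom q with hP
  have hc : ∀ m, coeff m P = l (coeff m q) := fun m => rfl
  have hsub : P.support ⊆ q.support := fun m hm => by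
    rw [mem_support_iff] at hm ⊢
    intro h0
    exact hm (by rw [hc, h0, map_zero])
  have h0 : P = 0 := by
    apply MvPolynomial.funext
    intro c
    rw [map_zero]
    have h1 : l (MvPolynomial.eval (fun i => algebraMap ℂ K (c i)) q) = 0 := hl2 (h c)
    rw [eval_eq, map_sum] at h1
    rw [eval_eq, ← h1]
    refine (Finset.sum_subset hsub fun m _ hm => ?_).trans (Finset.sum_congr rfl fun m _ => ?_)
    · rw [notMem_support_iff.1 hm, zero_mul]
    · have h2 : ∏ i ∈ m.support, algebraMap ℂ K (c i) ^ m i =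
          algebraMap ℂ K (∏ i ∈ m.support, c i ^ m i) := by
        rw [map_prod]
        simp only [map_pow]
      rw [h2, mul_comm (coeff m q), ← Algebra.smul_def, map_smul, smul_eq_mul, hc, mul_comm]
  exact hl1 (by rw [← hc, h0, coeff_zero])

/-! ### generic polynomials -/

/-- the generic polynomial -/
noncomputable def gp (K : Type) [Field K] (n : ℕ) : Polynomial (MvPolynomial ℕ K) :=
  ∑ j ∈ Finset.range (n + 1), Polynomial.monomial j (MvPolynomial.X j)

/-- the generic polynomial, with divided coefficients -/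
noncomputable def gh (K : Type) [Field K] (n : ℕ) : Polynomial (MvPolynomial ℕ K) :=
  ∑ j ∈ Finset.range (n + 1), Polynomial.monomial j
    (MvPolynomial.C ((j.factorial : K)⁻¹) * MvPolynomial.X j)

/-- the values of the derivatives -/
noncomputable def gU (ξ : K) (n i : ℕ) : MvPolynomial ℕ K :=
  (Polynomial.derivative^[i] (gp K n)).eval (MvPolynomial.C ξ)

/-- the inverse substitution -/
noncomputable def gW (ξ : K) (n i : ℕ) : MvPolynomial ℕ K :=
  (Polynomial.taylor (-MvPolynomial.C ξ) (gh K n)).coeff i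

theorem gh_coeff (n i : ℕ) : (gh K n).coeff i = if i ≤ n then
    MvPolynomial.C ((i.factorial : K)⁻¹) * MvPolynomial.X i else 0 := by
  unfold gh
  rw [Polynomial.finsetSum_coeff]
  simp only [Polynomial.coeff_monomial]
  rw [Finset.sum_ite_eq']
  simp only [Finset.mem_range, Nat.lt_succ_iff]

theorem gh_deg (n : ℕ) : (gh K n).natDegree < n + 1 := by
  rw [Nat.lt_succ_iff, Polynomial.natDegree_le_iff_coeff_eq_zero]
  intro N hN
  rw [gh_coeff, if_neg (by omega)]

theorem gW_gU (ξ : K) {n i : ℕ} (hi : i ≤ n) :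
    MvPolynomial.aeval (gW ξ n) (gU ξ n i) = MvPolynomial.X i := by
  have : CharZero K := charZero_of_injective_algebraMap (algebraMap ℂ K).injective
  set φ : MvPolynomial ℕ K →+* MvPolynomial ℕ K :=
    ((MvPolynomial.aeval (gW ξ n) : MvPolynomial ℕ K →ₐ[K] MvPolynomial ℕ K) :
      MvPolynomial ℕ K →+* MvPolynomial ℕ K) with hφ
  have hφC : φ (MvPolynomial.C ξ) = MvPolynomial.C ξ :=
    (MvPolynomial.aeval (gW ξ n) : MvPolynomial ℕ K →ₐ[K] MvPolynomial ℕ K).commutes ξ
  have hφX : ∀ j, φ (MvPolynomial.X j) = gW ξ n j := fun j => MvPolynomial.aeval_X _ _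
  have h1 : (gp K n).map φ = Polynomial.taylor (-MvPolynomial.C ξ) (gh K n) := by
    rw [Polynomial.as_sum_range' (Polynomial.taylor (-MvPolynomial.C ξ) (gh K n)) (n + 1) (by
      rw [Polynomial.natDegree_taylor]
      exact gh_deg n)]
    unfold gp
    rw [Polynomial.map_sum]
    refine Finset.sum_congr rfl fun j _ => ?_
    rw [Polynomial.map_monomial, hφX]
    rfl
  change φ (gU ξ n i) = _
  unfold gU
  rw [← Polynomial.eval₂_at_apply, ← Polynomial.eval_map, ← Polynomial.iterate_derivative_map, h1,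
    hφC, ← Polynomial.factorial_smul_hasseDeriv]
  have h2 := Polynomial.taylor_coeff (MvPolynomial.C ξ : MvPolynomial ℕ K)
    (Polynomial.taylor (-MvPolynomial.C ξ) (gh K n)) i
  rw [Polynomial.taylor_taylor, add_neg_cancel, Polynomial.taylor_zero, gh_coeff, if_pos hi] at h2
  rw [LinearMap.smul_apply, Polynomial.eval_smul, ← h2, nsmul_eq_mul, ← mul_assoc,
    ← map_natCast (MvPolynomial.C : K →+* MvPolynomial ℕ K), ← MvPolynomial.C_mul,
    mul_inv_cancel₀ (by exact_mod_cast Nat.factorial_ne_zero i), MvPolynomial.C_1, one_mul]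

theorem eval_gU (ξ : K) (n i : ℕ) (c : ℕ → ℂ) :
    MvPolynomial.eval (fun j => algebraMap ℂ K (c j)) (gU ξ n i) =
      Polynomial.aeval ξ (Polynomial.derivative^[i]
        (∑ j ∈ Finset.range (n + 1), Polynomial.monomial j (c j))) := by
  set ψ : MvPolynomial ℕ K →+* K := MvPolynomial.eval (fun j => algebraMap ℂ K (c j)) with hψ
  have hψC : ψ (MvPolynomial.C ξ) = ξ := MvPolynomial.eval_C _
  have hψX : ∀ j, ψ (MvPolynomial.X j) = algebraMap ℂ K (c j) := fun j => MvPolynomial.eval_X _
  have h1 : (gp K n).map ψ =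
      (∑ j ∈ Finset.range (n + 1), Polynomial.monomial j (c j)).map (algebraMap ℂ K) := by
    unfold gp
    rw [Polynomial.map_sum, Polynomial.map_sum]
    refine Finset.sum_congr rfl fun j _ => ?_
    rw [Polynomial.map_monomial, Polynomial.map_monomial, hψX]
  unfold gU
  rw [← Polynomial.eval₂_at_apply, ← Polynomial.eval_map, ← Polynomial.iterate_derivative_map, h1,
    hψC, Polynomial.iterate_derivative_map, Polynomial.eval_map_algebraMap]

theorem RG.gW {ξ : K} (hξ : Ge v 0 ξ) (n i : ℕ) : RG v (gW ξ n i) := by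
  unfold JG.gW
  rw [Polynomial.taylor_coeff, Polynomial.eval_eq_sum_range]
  refine RG.sum _ fun j _ => RG.mul ?_ ((RG.C hξ).neg.pow j)
  rw [Polynomial.hasseDeriv_coeff, gh_coeff]
  refine (RG.natCast _).mul ?_
  split_ifs
  · refine (RG.C ?_).mul (RG.X _)
    have h1 : (((j + i).factorial : K))⁻¹ = algebraMap ℂ K (((j + i).factorial : ℂ)⁻¹) := by
      rw [map_inv₀, map_natCast]
    rw [h1]
    exact Ge.const _
  · exact RG.zero

/-- **A polynomial with regular values on the derivatives of the polynomials in a regular function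
has regular coefficients.** -/
theorem RG.of_der {q : MvPolynomial ℕ K} {ξ : K} (hξ : Ge v 0 ξ)
    (h : ∀ g : Polynomial ℂ, Ge v 0 (MvPolynomial.aeval (fun i => Polynomial.aeval ξ
      (Polynomial.derivative^[i] g)) q)) : RG v q := by
  obtain ⟨n, hn⟩ : ∃ n, ∀ s ∈ q.support, ∀ i ∈ s.support, i ≤ n :=
    ⟨q.support.sup fun s => s.support.sup id, fun s hs i hi =>
      (Finset.le_sup (f := id) hi).trans
        (Finset.le_sup (f := fun s : ℕ →₀ ℕ => s.support.sup id) hs)⟩
  have h1 : RG v (MvPolynomial.aeval (JG.gU ξ n) q) := RG.of_eval fun c => by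
    have h2 : MvPolynomial.eval (fun i => algebraMap ℂ K (c i)) (MvPolynomial.aeval (JG.gU ξ n) q) =
        MvPolynomial.aeval (fun i => Polynomial.aeval ξ (Polynomial.derivative^[i]
          (∑ j ∈ Finset.range (n + 1), Polynomial.monomial j (c j)))) q := by
      rw [← MvPolynomial.coe_aeval_eq_eval, RingHom.coe_coe, ← AlgHom.comp_apply, comp_aeval]
      congr 2
      funext i
      exact eval_gU ξ n i c
    rw [h2]
    exact h _
  have h3 := h1.aeval (g := JG.gW ξ n) (fun i => RG.gW hξ n i)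
  have h4 : MvPolynomial.aeval (JG.gW ξ n) (MvPolynomial.aeval (JG.gU ξ n) q) = q := by
    rw [← AlgHom.comp_apply, comp_aeval]
    conv_rhs => rw [← aeval_X_left_apply q]
    rw [aeval_def, aeval_def, eval₂_eq, eval₂_eq]
    refine Finset.sum_congr rfl fun s hs => congrArg₂ _ rfl (Finset.prod_congr rfl fun i hi => ?_)
    rw [gW_gU ξ (hn s hs i hi)]
  rwa [h4] at h3

/-! ### local coordinates -/

variable {x : Fin 2 → K} {E : Fin 2 → Derivation ℂ K K}

theorem nf_reg {σ : Jet K} (hreg : ∀ D : Derivation ℂ K K, DerReg v D → v.Reg (app σ.p D))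
    (hx : Dual x E) (hE : ∀ l, DerReg v (E l)) (hx0 : v.Reg (x 0)) :
    RG v (nf (app σ.p (dj E))) := by
  apply RG.of_der (ξ := x 0) hx0
  intro g
  set G := Polynomial.aeval (x 0) g with hG
  set D : Derivation ℂ K K := (1 : K) • E 0 + G • E 1 with hD
  have hGr : Ge v 0 G := Pool.Agent.W603.LV.ge_aeval v hx0 g
  have h1 := hreg D (derReg_comb' hE v.reg_one hGr)
  have hE' : ∀ i j, E i (x j) = if i = j then 1 else 0 := hx.2
  have hDf : ∀ f, D f = E 0 f + G * E 1 f := fun f => by
    rw [hD, Derivation.add_apply, Derivation.smul_apply, Derivation.smul_apply, smul_eq_mul,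
      smul_eq_mul, one_mul]
  have hD0 : D (x 0) = 1 := by
    rw [hDf, hE', hE', if_pos rfl, if_neg (by decide), mul_zero, add_zero]
  have hD1 : D (x 1) = G := by
    rw [hDf, hE', hE', if_pos rfl, if_neg (by decide), mul_one, zero_add]
  have hDi : ∀ i, (D : K → K)^[i + 1] (x 1) =
      Polynomial.aeval (x 0) (Polynomial.derivative^[i] g) := by
    intro i
    induction i with
    | zero => exact hD1
    | succ i ih =>
      rw [Function.iterate_succ_apply', ih, D.map_aeval, hD0, smul_eq_mul, mul_one,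
        Function.iterate_succ_apply']
  rw [← ep_app hx D, ep_nf D hD0] at h1
  have h2 : (fun i : ℕ => (D : K → K)^[i + 1] (algebraMap K K (x 1))) =
      fun i => Polynomial.aeval (x 0) (Polynomial.derivative^[i] g) := funext hDi
  rw [h2] at h1
  exact h1

/-- the numerators of the derivatives of the second coordinate with respect to the first one -/
noncomputable def nj (E : Fin 2 → Derivation ℂ K K) : ℕ → MvPolynomial (Fin 2 × ℕ) K
  | 0 => MvPolynomial.X (1, 0)
  | i + 1 => dj E (nj E i) * MvPolynomial.X (0, 0) -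
      ((2 * i + 1 : ℕ) : MvPolynomial (Fin 2 × ℕ) K) * nj E i * MvPolynomial.X (0, 1)

theorem RG.nj (hE : ∀ l, DerReg v (E l)) (i : ℕ) : RG v (nj E i) := by
  induction i with
  | zero => exact RG.X _
  | succ i ih =>
    change RG v (JG.dj E (JG.nj E i) * MvPolynomial.X (0, 0) -
      ((2 * i + 1 : ℕ) : MvPolynomial (Fin 2 × ℕ) K) * JG.nj E i * MvPolynomial.X (0, 1))
    rw [sub_eq_add_neg]
    exact ((ih.dj hE).mul (RG.X _)).add (((RG.natCast _).mul ih).mul (RG.X _)).neg

theorem nj_iter {B : Type} [Field B] [Algebra ℂ B] [Algebra K B] [IsScalarTower ℂ K B]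
    (hx : Dual x E) (D : Derivation ℂ B B) (h0 : D (algebraMap K B (x 0)) ≠ 0) (i : ℕ) :
    (((D (algebraMap K B (x 0)))⁻¹ • D : Derivation ℂ B B) : B → B)^[i + 1]
      (algebraMap K B (x 1)) = ep x D (nj E i) / D (algebraMap K B (x 0)) ^ (2 * i + 1) := by
  set g := D (algebraMap K B (x 0)) with hg
  induction i with
  | zero =>
    change (g⁻¹ • D : Derivation ℂ B B) (algebraMap K B (x 1)) = ep x D (MvPolynomial.X (1, 0)) / _
    rw [Derivation.smul_apply, smul_eq_mul, ep_X, mul_zero, zero_add, pow_one]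
    change g⁻¹ * D (algebraMap K B (x 1)) = D (algebraMap K B (x 1)) / g
    rw [div_eq_mul_inv, mul_comm]
  | succ i ih =>
    rw [Function.iterate_succ_apply', ih, Derivation.smul_apply, smul_eq_mul,
      Derivation.leibniz_div, Derivation.leibniz_pow, ← ep_dj hx]
    have h1 : D g = ep x D (MvPolynomial.X (0, 1)) := by
      rw [ep_X]
      rfl
    have h2 : g = ep x D (MvPolynomial.X (0, 0)) := by
      rw [ep_X]
      rfl
    have h3 : ep x D (nj E (i + 1)) = ep x D (dj E (nj E i)) * g -
        ((2 * i + 1 : ℕ) : B) * ep x D (nj E i) * D g := by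
      change ep x D (dj E (nj E i) * MvPolynomial.X (0, 0) -
        ((2 * i + 1 : ℕ) : MvPolynomial (Fin 2 × ℕ) K) * nj E i * MvPolynomial.X (0, 1)) = _
      rw [map_sub, map_mul, map_mul, map_mul, map_natCast, ← h1, ← h2]
    rw [h3, Nat.add_sub_cancel]
    simp only [smul_eq_mul, nsmul_eq_mul]
    rw [show 2 * (i + 1) + 1 = 2 * i + 1 + 2 from by ring]
    have hgp : g ^ (2 * i + 1) = g ^ (2 * i) * g := pow_succ _ _
    have hg2 : g ^ (2 * i) ≠ 0 := pow_ne_zero _ h0
    rw [pow_add g (2 * i + 1) 2, hgp]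
    field_simp

theorem fld_aux {F : Type} [Field F] (P Q R S : F) (hS : S ≠ 0) :
    P * S * (Q * (R / S)) = Q * R * P := by
  field_simp

/-- **The coefficients in local coordinates are regular.** -/
theorem reg_coeff {σ : Jet K} (hreg : ∀ D : Derivation ℂ K K, DerReg v D → v.Reg (app σ.p D))
    (hx : Dual x E) (hE : ∀ l, DerReg v (E l)) (hx0 : v.Reg (x 0)) :
    RG v (app σ.p (dj E)) := by
  set r := app σ.p (dj E) with hr
  set q := nf r with hq
  have hqr : RG v q := nf_reg hreg hx hE hx0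
  obtain ⟨D, hD⟩ := exists_gen hx
  set A := FractionRing (MvPolynomial (Fin 2 × ℕ) K) with hA
  set a : MvPolynomial (Fin 2 × ℕ) K →+* A := algebraMap _ A with ha
  have hinj : Function.Injective a := IsFractionRing.injective (MvPolynomial (Fin 2 × ℕ) K) A
  have hD' : ∀ p, ep x D p = a p := hD
  have hx0' : D (algebraMap K A (x 0)) = a (MvPolynomial.X (0, 0)) := by
    rw [← hD', ep_X]
    rfl
  have hne : D (algebraMap K A (x 0)) ≠ 0 := by
    rw [hx0']
    intro h0
    exact X_ne_zero (R := K) ((0 : Fin 2), 0) (hinj (by rw [h0, map_zero]))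
  have h1 := app_nf hx σ D hne
  rw [← ep_app hx D, hD', ← hr, ← hq] at h1
  simp only [nj_iter hx D hne, hD'] at h1
  rw [hx0'] at h1
  set w : (ℕ →₀ ℕ) → ℕ := fun s => ∑ i ∈ s.support, (2 * i + 1) * s i with hw
  set M := q.support.sup w with hM
  have hX : a (MvPolynomial.X (0, 0)) ≠ 0 := by rwa [← hx0']
  have h2 : MvPolynomial.X (0, 0) ^ M * r = MvPolynomial.X (0, 0) ^ σ.m *
      ∑ s ∈ q.support, MvPolynomial.C (q.coeff s) * (∏ i ∈ s.support, nj E i ^ s i) *
        MvPolynomial.X (0, 0) ^ (M - w s) := by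
    apply hinj
    rw [map_mul, h1, aeval_def, eval₂_eq, map_mul, map_pow, map_pow, map_sum, mul_left_comm,
      Finset.mul_sum]
    congr 1
    refine Finset.sum_congr rfl fun s hs => ?_
    have h3 : ∏ i ∈ s.support, (a (nj E i) / a (MvPolynomial.X (0, 0)) ^ (2 * i + 1)) ^ s i =
        (∏ i ∈ s.support, a (nj E i) ^ s i) / a (MvPolynomial.X (0, 0)) ^ w s := by
      rw [hw, ← Finset.prod_pow_eq_pow_sum, ← Finset.prod_div_distrib]
      refine Finset.prod_congr rfl fun i _ => ?_
      rw [div_pow, ← pow_mul]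
    have h4 : w s ≤ M := Finset.le_sup (f := w) hs
    have h5 : a (MvPolynomial.X (0, 0)) ^ M =
        a (MvPolynomial.X (0, 0)) ^ (M - w s) * a (MvPolynomial.X (0, 0)) ^ w s := by
      rw [← pow_add, Nat.sub_add_cancel h4]
    have h6 : algebraMap K A (q.coeff s) = a (MvPolynomial.C (q.coeff s)) := rfl
    rw [h3, h5, map_mul, map_mul, map_prod, map_pow, h6]
    simp only [map_pow]
    exact fld_aux _ _ _ _ (pow_ne_zero _ hX)
  have h3 : RG v (MvPolynomial.X (0, 0) ^ M * r) := by
    rw [h2]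
    exact ((RG.X _).pow _).mul (RG.sum _ fun s _ => ((RG.C (hqr s)).mul
      (RG.prod _ fun i _ => (RG.nj hE i).pow _)).mul ((RG.X _).pow _))
  intro s
  have h4 := h3 (Finsupp.single (0, 0) M + s)
  rwa [X_pow_eq_monomial, coeff_monomial_mul, one_mul] at h4

end Pool.Agent.L7h90.JG
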