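import Pool.Agent.L7h90.JG.Lam

/-! Rigidity of the curves on which an invariant differential expression is a nonzero constant. -/

set_option autoImplicit false
set_option linter.unusedSectionVars false
set_option linter.unusedVariables false

open Filter Topology Set Metric MvPolynomial FF

namespace Pool.Agent.L7h90.JG

open Pool.Agent.N155 Pool.Agent.Y190.OP Pool.Agent.W602.GT Pool.Agent.TH143.GT
open Pool.Agent.L7h90.WR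
open Pool.Agent.L7h90.JT (const_gen)

section

variable {n : ℕ} {K : Type} [Field K] [Algebra ℂ K] {y : Fin (n + 1) → K}
  (R : ∀ h : K, Frac y h) {𝓤 : Ultrafilter ℕ} {φ : ℂ → Mat (n + 1)} {P Q : ℕ → ℂ → Mat (n + 1)}
  {wt : ℕ → ℂ → ℂ} {a : ℕ → ℂ} {σ : Ex K}

/-- the normal component is locally bounded -/
theorem glam_bdd (h : Dfo y 𝓤 φ P Q wt) (ha : Inf 𝓤 a)
    (hng : ∀ z, Ng 𝓤 z a (fun m x => (wt m x)⁻¹))
    (hne : ∀ z, ∀ᶠ p : ℕ × ℂ in (𝓤 : Filter ℕ) ×ˢ 𝓝 z, wt p.1 p.2 ≠ 0)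
    (hwt : ∀ m z, HasDerivAt (wt m) (a m * wt m z) z) (cvP : ∀ m, Cv y (P m))
    {E0 : Fin 2 → Derivation ℂ K K} (hE0 : Dual ![σ.x, σ.y] E0)
    {c : ℂ} (hP : ∀ m, GEq R σ c (P m)) (hQ : ∀ m, GEq R σ c (Q m))
    {E : Fin 2 → Derivation ℂ K K} {i j k : Fin (n + 1)}
    (hi : y i ≠ 0) (hx : Dual ![y j / y i, y k / y i] E) {γ : ℂ}
    (hδ : ∀ k, h.del R k = algebraMap ℂ MK γ * MD (h.cv.emb R k))
    (h1 : ∀ᶠ z in codiscrete ℂ, gv R σ 1 φ z ≠ 0) {z0 : ℂ} (hz0 : nz (X i) (φ z0)) :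
    ∃ C : ℝ, ∀ᶠ z in 𝓝[≠] z0,
      ‖σ.n * c * γ * lam R σ φ z / ev R (cJ E σ.x σ.y) (φ z)‖ ≤ C := by
  have hJ : cJ E σ.x σ.y ≠ 0 := cJ_ne hx σ.alg
  set x' : Fin 2 → K := ![y j / y i, y k / y i] with hx'
  have hJe : ∀ᶠ z in codiscrete ℂ, ev R (cJ E σ.x σ.y) (φ z) =
      ev R (E 0 σ.x) (φ z) * ev R (E 1 σ.y) (φ z) -
      ev R (E 1 σ.x) (φ z) * ev R (E 0 σ.y) (φ z) := by
    have h2 : h.cv.emb R (cJ E σ.x σ.y) = h.cv.emb R (E 0 σ.x) * h.cv.emb R (E 1 σ.y) -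
        h.cv.emb R (E 1 σ.x) * h.cv.emb R (E 0 σ.y) := by
      unfold cJ
      rw [map_sub, map_mul, map_mul]
    simp only [Cv.emb_apply, cl_mul] at h2
    have hsub : ∀ {f g : ℂ → ℂ} (hf : Meromorphic f) (hg : Meromorphic g),
      cl f hf - cl g hg = cl (f - g) (hf.sub hg) := fun hf hg => rfl
    rw [hsub] at h2
    exact cl_eq.1 h2
  set G : Set ℂ := {z | Gpt R 𝓤 φ P Q wt a σ E0 γ z ∧ gv R σ 1 φ z ≠ 0 ∧ nz (X i) (φ z) ∧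
    cgd R x' E σ.x (φ z) ∧ cgd R x' E σ.y (φ z) ∧ Ng 𝓤 z a (Dfe R x' E P Q wt σ.x) ∧
    Ng 𝓤 z a (Dfe R x' E P Q wt σ.y) ∧ good R (cJ E σ.x σ.y) (φ z) ∧
    ev R (cJ E σ.x σ.y) (φ z) ≠ 0 ∧ ev R (cJ E σ.x σ.y) (φ z) =
      ev R (E 0 σ.x) (φ z) * ev R (E 1 σ.y) (φ z) -
      ev R (E 1 σ.x) (φ z) * ev R (E 0 σ.y) (φ z)} with hG
  have hGc : G ∈ codiscrete ℂ := by
    have h2 : ∀ᶠ z in codiscrete ℂ, nz (X i) (φ z) :=
      h.cv.nz ⟨1, isHomogeneous_X _ _⟩ (by rwa [val_X'])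
    filter_upwards [gpt_codis R h ha hng hne hE0 hδ, h1, h2, cgd_codis R h.cv x' E σ.x,
      cgd_codis R h.cv x' E σ.y, chain_ng R h ha hng hne hx σ.x,
      chain_ng R h ha hng hne hx σ.y, h.cv.good R (cJ E σ.x σ.y), ev_ne_codis R h.cv hJ, hJe]
      with z k1 k2 k3 k4 k5 k6 k7 k8 k9 k10 using ⟨k1, k2, k3, k4, k5, k6, k7, k8, k9, k10⟩
  have hlim : ∀ z ∈ G, Tendsto (fun p : ℕ × ℂ => a p.1 ^ σ.k * NN i j k P Q wt p.1 p.2)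
      ((𝓤 : Filter ℕ) ×ˢ 𝓝 z)
      (𝓝 (σ.n * c * γ * lam R σ φ z / ev R (cJ E σ.x σ.y) (φ z))) := by
    intro z hz
    have hzn := codis_nhds hGc hz
    obtain ⟨k1, k2, k3, k4, k5, k6, k7, k8, k9, k10⟩ := hz
    exact gnn_lim R h ha hng hne hwt cvP hE0 (by filter_upwards [hzn] with u hu using hu.1) hP hQ
      k2 hi hx k3 k4 k5 k6 k7 k8 k9 k10
  have hU : IsOpen {w | nz (X i) (φ w)} := (isOpen_nz _).preimage h.cont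
  have h1' : ∀ᶠ z in 𝓝 z0, z ∈ ({z0} : Set ℂ)ᶜ → z ∈ G :=
    eventually_nhdsWithin_iff.1 (codis_punct hGc z0)
  obtain ⟨ε, hε, hsub⟩ := Metric.mem_nhds_iff.1 (inter_mem h1' (hU.mem_nhds hz0))
  have hρ : 0 < ε / 2 := by positivity
  have hcl : ∀ z ∈ closedBall z0 (ε / 2), (z ≠ z0 → z ∈ G) ∧ nz (X i) (φ z) := by
    intro z hz
    have h2 := hsub (closedBall_subset_ball (by linarith) hz)
    exact ⟨fun hne => h2.1 hne, h2.2⟩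
  obtain ⟨C, hC⟩ := seq_max (l := (𝓤 : Filter ℕ)) (F := fun m z => a m ^ σ.k *
      NN i j k P Q wt m z) hρ (by
    intro z hz
    have hzG : z ∈ G := (hcl z (sphere_subset_closedBall hz)).1 (ne_of_mem_sphere hz hρ.ne')
    have h3 := (hlim z hzG).norm.eventually_lt_const (lt_add_one _)
    rw [eventually_prod_iff] at h3
    obtain ⟨pa, hpa, pb, hpb, hab⟩ := h3
    refine ⟨{w | pb w}, hpb,
      ‖σ.n * c * γ * lam R σ φ z / ev R (cJ E σ.x σ.y) (φ z)‖ + 1, ?_⟩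
    filter_upwards [hpa] with m hm w hw
    exact (hab hm hw).le) (by
    intro z hz
    obtain ⟨V, hV, hd⟩ := diff_NN h i j k (hcl z hz).2
    refine ⟨V, hV, ?_⟩
    filter_upwards [hd] with m hm
    exact hm.const_mul _)
  refine ⟨C, ?_⟩
  have h4 : ∀ᶠ z in 𝓝[≠] z0, z ∈ closedBall z0 (ε / 2) :=
    nhdsWithin_le_nhds (closedBall_mem_nhds z0 hρ)
  filter_upwards [h4, self_mem_nhdsWithin] with z hz hne
  have h5 := at_z (hlim z ((hcl z hz).1 hne))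
  refine le_of_tendsto h5.norm ?_
  filter_upwards [hC] with m hm
  exact hm z hz

end

variable {n : ℕ} {K : Type} [Field K] [Algebra ℂ K] {y : Fin (n + 1) → K}
  {R : ∀ h : K, Frac y h} {𝒞 : (ℂ → Mat (n + 1)) → Prop} {c0 : ℝ} {σ : Ex K} {c : ℂ}

/-- classes of Zariski dense curves on which a differential expression is a nonzero constant -/
structure GCls (R : ∀ h : K, Frac y h) (𝒞 : (ℂ → Mat (n + 1)) → Prop) (c0 : ℝ) (σ : Ex K)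
    (c : ℂ) : Prop where
  cls : Cls (TX y) c0 𝒞
  cv : ∀ φ, 𝒞 φ → Cv y φ
  seq : ∀ φ, 𝒞 φ → GEq R σ c φ
  lb : ∀ M ∈ TX y, LBa R M
  cne : c ≠ 0
  mpos : 0 < σ.n
  basis : ∃ (x : Fin 2 → K) (E : Fin 2 → Derivation ℂ K K), Dual x E
  forms : ∃ (N : ℕ) (ω0 ω1 : (Fin 2 → Derivation ℂ K K) → K) (D : Fin 2 → Derivation ℂ K K),
    0 < N ∧ IsPluri N ω0 ∧ IsPluri N ω1 ∧
    (∀ v : Place ℂ K, Divisorial 2 v → RegAt v ω0) ∧
    (∀ v : Place ℂ K, Divisorial 2 v → RegAt v ω1) ∧ ω0 D ≠ 0 ∧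
    Transcendental ℂ (ω1 D / ω0 D)

/-- a dual basis for the basic functions -/
theorem exists_dual_ex {x : Fin 2 → K} {E : Fin 2 → Derivation ℂ K K} (hx : Dual x E)
    (σ : Ex K) : ∃ E0 : Fin 2 → Derivation ℂ K K, Dual ![σ.x, σ.y] E0 := by
  have htr : Algebra.trdeg ℂ K ≤ 2 := by
    have := hx.1.cardinalMk_eq_trdeg
    rw [← this, Cardinal.mk_fin]
    exact le_rfl
  have hb : IsTranscendenceBasis ℂ ![σ.x, σ.y] := by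
    apply σ.alg.isTranscendenceBasis_of_trdeg_le_of_finite
    rw [Cardinal.mk_fin]
    exact htr
  obtain ⟨D, hD⟩ := exists_dual hb
  refine ⟨D, hb, fun i j => ?_⟩
  have h1 : D i (![σ.x, σ.y] j) = (1 : Matrix (Fin 2) (Fin 2) K) i j := by
    rw [← hD]
    rfl
  rw [h1, Matrix.one_apply]

theorem gdfo (h : GCls R 𝒞 c0 σ c) {𝓤 : Ultrafilter ℕ} {φ : ℂ → Mat (n + 1)}
    {P Q : ℕ → ℂ → Mat (n + 1)} {a κ : ℕ → ℂ} (d : Dat 𝒞 𝓤 φ P Q a κ) :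
    Dfo y 𝓤 φ P Q (fun m z => κ m * Complex.exp (a m * z)) where
  cv := h.cv φ d.cφ
  hP := fun m => h.cls.hol _ (d.cP m)
  hQ := fun m => h.cls.hol _ (d.cQ m)
  mP := fun m z => h.cls.mem _ (d.cP m) z
  mQ := fun m z => h.cls.mem _ (d.cQ m) z
  lP := d.lP
  lQ := d.lQ
  wd := fun m => by fun_prop
  bd := d.bd

theorem GCls.exists_mul (h : GCls R 𝒞 c0 σ c) {𝓤 : Ultrafilter ℕ} {φ : ℂ → Mat (n + 1)}
    {P Q : ℕ → ℂ → Mat (n + 1)} {a κ : ℕ → ℂ} (d : Dat 𝒞 𝓤 φ P Q a κ) :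
    ∃ g : MK, ∀ k, (gdfo h d).del R k = g * MD ((gdfo h d).cv.emb R k) := by
  obtain ⟨x, E, hx⟩ := h.basis
  obtain ⟨N, ω0, ω1, D, hN, hω0, hω1, hr0, hr1, hD, htr⟩ := h.forms
  obtain ⟨C, hC⟩ := d.tb
  apply Dfo.exists_mul R (gdfo h d) hx
  refine Dfo.W2_zero R (gdfo h d) (C0 := C) hC h.cls.isCompact_pts (fun z => ?_)
    (Cn := fun _ => True) ?_
    (h.cls.bd φ d.cφ) hN hω0 hω1 (fun v hv _ => hr0 v hv) (fun v hv _ => hr1 v hv) hD htr hx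
  · exact ⟨_, h.cls.shift φ d.cφ z, by rw [add_zero]⟩
  · rintro M0 ⟨χ, hχ, rfl⟩
    exact (h.lb _ (h.cls.mem χ hχ 0)).lbc

theorem GCls.rigA (h : GCls R 𝒞 c0 σ c) : RigA 𝒞 := by
  intro 𝓤 φ P Q a κ a0 d ha
  obtain ⟨g, hg⟩ := h.exists_mul d
  have h1 := gls R (gdfo h d) (a := a) (α := a0) (σ := σ) (c := c)
    (fun m z => exp_der (κ m) (a m) z) ha h.cne h.mpos
    (fun m => h.seq _ (d.cP m)) (fun m => h.seq _ (d.cQ m)) hg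
  obtain ⟨h0, hm, rfl⟩ := MD_eq_mul h1
  refine ⟨h0, fun z z0 s hz hs hsw => ?_⟩
  exact Dfo.nd R (gdfo h d) (γ := fun z => h0 * Complex.exp (a0 * z)) (by fun_prop) hm hg hz hs
    hsw

/-- rigidity follows from the vanishing of the constant -/
theorem GCls.rigB_of (h : GCls R 𝒞 c0 σ c)
    (hzero : ∀ {𝓤 : Ultrafilter ℕ} {φ : ℂ → Mat (n + 1)} {P Q : ℕ → ℂ → Mat (n + 1)}
      {a κ : ℕ → ℂ} (d : Dat 𝒞 𝓤 φ P Q a κ), Inf 𝓤 a → ∀ γ : ℂ,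
      (∀ k, (gdfo h d).del R k = algebraMap ℂ MK γ * MD ((gdfo h d).cv.emb R k)) →
      (∀ z, Ng 𝓤 z a (fun m x => (κ m * Complex.exp (a m * x))⁻¹)) →
      (∀ z, ∀ᶠ p : ℕ × ℂ in (𝓤 : Filter ℕ) ×ˢ 𝓝 z, κ p.1 * Complex.exp (a p.1 * p.2) ≠ 0) →
      γ = 0) : RigB' 𝒞 := by
  intro 𝓤 φ P Q a κ d hinf hbd
  obtain ⟨g, hg⟩ := h.exists_mul d
  obtain ⟨B, hB⟩ := hbd
  obtain ⟨x, E, hx⟩ := h.basis
  obtain ⟨γ, rfl⟩ := gam_const R (gdfo h d) hB h.cls.pos (h.cls.low φ d.cφ) hg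
  have hγ0 : γ = 0 := by
    by_contra hγ
    have hgne : algebraMap ℂ MK γ ≠ 0 := by
      intro h0
      exact hγ ((map_eq_zero_iff (algebraMap ℂ MK) (algebraMap ℂ MK).injective).1 h0)
    have hgr := growth (gdfo h d) hinf hx.1.1 hgne hg
    exact hγ (hzero d hinf γ hg (fun z => (ng_exp hinf (hgr z)).1)
      (fun z => (ng_exp hinf (hgr z)).2))
  subst hγ0
  have hm : Meromorphic (fun _ : ℂ => (0 : ℂ)) := Meromorphic.const 0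
  have h2 : algebraMap ℂ MK 0 = cl (fun _ => 0) hm := (cl_const 0).symm
  rw [h2] at hg
  have h3 := Dfo.nd R (gdfo h d) (γ := fun _ => 0) (by fun_prop) hm hg
    (z := fun _ => 0) (z0 := 0) (s := fun _ => 0) tendsto_const_nhds tendsto_const_nhds
    (by simp)
  refine h3.congr fun m => ?_
  simp

theorem GCls.empty_of (h : GCls R 𝒞 c0 σ c) (hB : RigB' 𝒞) {φ : ℂ → Mat (n + 1)} (hφ : 𝒞 φ) :
    False := by
  obtain ⟨x, E, hx⟩ := h.basis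
  exact no_class' R h.cls h.rigA hB h.cv hx.1.1 hφ

/-- the second case -/
theorem GCls.rigBt (h : GCls R 𝒞 c0 σ c) {t : ℕ} (ht : ∀ ψ, 𝒞 ψ → GEt R σ t ψ)
    (hne : ∀ ψ, 𝒞 ψ → ∀ᶠ z in codiscrete ℂ, gv R σ (t + 1) ψ z ≠ 0) : RigB' 𝒞 := by
  refine h.rigB_of fun {𝓤 φ P Q a κ} d hinf γ hδ hng hn0 => ?_
  obtain ⟨x, E, hx⟩ := h.basis
  obtain ⟨E0, hE0⟩ := exists_dual_ex hx σ
  exact gam_zero R (gdfo h d) hinf hng hn0 (fun m z => exp_der (κ m) (a m) z)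
    (fun m => h.cv _ (d.cP m)) hE0 hδ h.cne h.mpos (fun m => h.seq _ (d.cP m))
    (fun m => h.seq _ (d.cQ m)) (fun m => ht _ (d.cP m)) (fun m => ht _ (d.cQ m))
    (hne φ d.cφ)

/-- the quotient of a pluricanonical form by the derivative -/
noncomputable def tau (R : ∀ h : K, Frac y h) (σ : Ex K) (g : K) (N : ℕ)
    (ψ : ℂ → Mat (n + 1)) (z : ℂ) : ℂ := ev R g (ψ z) * lam R σ ψ z ^ N

theorem lam_mero {ψ : ℂ → Mat (n + 1)} (h : Cv y ψ) : Meromorphic (lam R σ ψ) := by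
  have h1 := (h.mero R σ.x).deriv
  intro z
  exact (h1 z).div ((((h1 z).pow σ.n).mul (gv_mero R h σ 1 z)).mul ((h1 z).inv.neg.pow _))

theorem bS_ne {ψ : ℂ → Mat (n + 1)} {z : ℂ} (hz : gg R σ ψ z) (h1 : gv R σ 1 ψ z ≠ 0) :
    bS σ.S (fun s w => ev R (σ.h s) (ψ w)) (fun w => ev R σ.x (ψ w)) (fun w => ev R σ.y (ψ w))
      σ.k 1 σ.n z ≠ 0 :=
  mul_ne_zero (mul_ne_zero (pow_ne_zero _ hz.2) h1)
    (pow_ne_zero _ (neg_ne_zero.2 (inv_ne_zero hz.2)))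

theorem lam_ne {ψ : ℂ → Mat (n + 1)} {z : ℂ} (hz : gg R σ ψ z) (h1 : gv R σ 1 ψ z ≠ 0) :
    lam R σ ψ z ≠ 0 := div_ne_zero hz.2 (bS_ne hz h1)

theorem lam_ch {l : Filter ℕ} [l.NeBot] {P : ℕ → ℂ → Mat (n + 1)} {ψ : ℂ → Mat (n + 1)}
    (hc : CConv l univ P ψ) (hP : ∀ m, HolP univ (P m)) (hψ : HolP univ ψ) {z : ℂ}
    (hz : gg R σ ψ z) (h1 : gv R σ 1 ψ z ≠ 0) : CH l z (fun m => lam R σ (P m)) (lam R σ ψ) := by
  have h2 := (ch_ev R hc hP hψ hz.1.2.1).deriv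
  exact h2.div (((h2.pow σ.n).mul (gv_lim R hc hP hψ 1 hz)).mul
    ((h2.inv hz.2).neg.pow (σ.k + 1))) (bS_ne hz h1)

theorem lam_shift (ψ : ℂ → Mat (n + 1)) (u z : ℂ) :
    lam R σ (fun w => ψ (u + w)) z = lam R σ ψ (u + z) := by
  have h1 := dx_shift R σ.x ψ u z
  have h2 := gv_shift R σ 1 ψ u z
  unfold lam bS
  unfold gv at h2
  rw [h1, h2]

/-- the quotient is constant -/
theorem tau_const (h : GCls R 𝒞 c0 σ c)
    (hne : ∀ ψ, 𝒞 ψ → ∀ᶠ z in codiscrete ℂ, gv R σ 1 ψ z ≠ 0) {g : K} {N : ℕ}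
    {φ : ℂ → Mat (n + 1)} (hφ : 𝒞 φ)
    (hb : ∀ z0, ∃ C : ℝ, ∀ᶠ z in 𝓝[≠] z0, ‖tau R σ g N φ z‖ ≤ C) :
    ∃ c : ℂ, (h.cv φ hφ).emb R g * cl (lam R σ φ) (lam_mero (h.cv φ hφ)) ^ N =
      algebraMap ℂ MK c := by
  have hm : ∀ ψ, 𝒞 ψ → Meromorphic (tau R σ g N ψ) := fun ψ hψ z =>
    ((h.cv ψ hψ).mero R g z).mul ((lam_mero (h.cv ψ hψ) z).pow N)
  have hcc : ∀ ψ, 𝒞 ψ → Continuous ψ := fun ψ hψ => h.cls.cont hψ
  obtain ⟨c1, hc1⟩ := const_gen h.cls (τ := tau R σ g N)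
    (G := fun ψ z => good R g (ψ z) ∧ gg R σ ψ z ∧ gv R σ 1 ψ z ≠ 0) hm
    (fun ψ hψ => ((h.cv ψ hψ).good R g).and ((gg_codis R (h.cv ψ hψ) σ).and (hne ψ hψ)))
    (fun ψ hψ z hz => by
      have h1 := (h.cv ψ hψ)
      have h2 := (h1.an R hz.2.1.1.2.1).deriv
      exact (h1.an R hz.1).continuousAt.mul ((h2.div (((h2.pow σ.n).mul
        (gv_an R h1 1 hz.2.1)).mul ((h2.inv hz.2.1.2).neg.pow (σ.k + 1)))
        (bS_ne hz.2.1 hz.2.2)).continuousAt.pow N))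
    (fun ψ t z => by
      unfold tau
      rw [lam_shift])
    (fun ψ t z hz => by
      obtain ⟨k1, k2, k3⟩ := hz
      rw [gv_shift] at k3
      exact ⟨k1, gg_shift R k2, k3⟩)
    (fun 𝓤 P χ hP hχ hc z hz => by
      obtain ⟨k1, k2, k3⟩ := hz
      have hhP : ∀ m, HolP univ (P m) := fun m => h.cls.hol _ (hP m)
      have hhχ : HolP univ χ := h.cls.hol _ hχ
      have m1 := ch_ev R hc hhP hhχ k1
      have m2 := lam_ch hc hhP hhχ k2 k3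
      refine ⟨?_, (m1.mul (m2.pow N)).tendsto⟩
      filter_upwards [good_ev R hc k1, gg_lim R hc hhP hhχ k2,
        (gv_lim R hc hhP hhχ 1 k2).ne k3] with p l1 l2 l3 using ⟨l1, l2, l3⟩)
    hφ hb
  refine ⟨c1, ?_⟩
  rw [← hc1, Cv.emb_apply, cl_pow', cl_mul]
  rfl

/-- the quotient has no poles on the limit curve of a rapidly oscillating deformation -/
theorem tau_bdd (h : GCls R 𝒞 c0 σ c)
    (hne : ∀ ψ, 𝒞 ψ → ∀ᶠ z in codiscrete ℂ, gv R σ 1 ψ z ≠ 0)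
    {𝓤 : Ultrafilter ℕ} {φ : ℂ → Mat (n + 1)} {P Q : ℕ → ℂ → Mat (n + 1)}
    {a κ : ℕ → ℂ} (d : Dat 𝒞 𝓤 φ P Q a κ) (hinf : Inf 𝓤 a) {γ : ℂ} (hγ0 : γ ≠ 0)
    (hδ : ∀ k, (gdfo h d).del R k = algebraMap ℂ MK γ * MD ((gdfo h d).cv.emb R k))
    (hng : ∀ z, Ng 𝓤 z a (fun m x => (κ m * Complex.exp (a m * x))⁻¹))
    (hn0 : ∀ z, ∀ᶠ p : ℕ × ℂ in (𝓤 : Filter ℕ) ×ˢ 𝓝 z, κ p.1 * Complex.exp (a p.1 * p.2) ≠ 0)
    {N : ℕ} {ω : (Fin 2 → Derivation ℂ K K) → K} (hω : IsPluri N ω)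
    (hreg : ∀ v : Place ℂ K, Divisorial 2 v → RegAt v ω)
    {E0 : Fin 2 → Derivation ℂ K K} (hE0 : Dual ![σ.x, σ.y] E0) (z0 : ℂ) :
    ∃ C : ℝ, ∀ᶠ z in 𝓝[≠] z0, ‖tau R σ (ω E0) N φ z‖ ≤ C := by
  have hcv := h.cv φ d.cφ
  obtain ⟨i, j, k, E, hi, hnz, hE, hq⟩ := h.lb (φ z0) (hcv.mem z0)
  have hJ : cJ E σ.x σ.y ≠ 0 := cJ_ne hE σ.alg
  have hquo : ω E0 = ω E / cJ E σ.x σ.y ^ N := by
    have h1 := pluri_change (E := E) hω hE0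
    simp only [Matrix.cons_val_zero, Matrix.cons_val_one] at h1
    have h2 : E 0 σ.x * E 1 σ.y - E 0 σ.y * E 1 σ.x = cJ E σ.x σ.y := by
      unfold cJ
      ring
    rw [h2] at h1
    rw [h1, mul_div_cancel_left₀ _ (pow_ne_zero _ hJ)]
  obtain ⟨O, hO, C1, hC1⟩ := hq (ω E) fun v hv _ hr => hreg v hv E hr
  obtain ⟨C2, hC2⟩ := glam_bdd R (gdfo h d) hinf hng hn0 (fun m z => exp_der (κ m) (a m) z)
    (fun m => h.cv _ (d.cP m)) hE0 (fun m => h.seq _ (d.cP m)) (fun m => h.seq _ (d.cQ m))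
    hi hE hδ (hne φ d.cφ) hnz
  have hmC : (σ.n : ℂ) ≠ 0 := by exact_mod_cast h.mpos.ne'
  have hcc : (σ.n : ℂ) * c * γ ≠ 0 := mul_ne_zero (mul_ne_zero hmC h.cne) hγ0
  set ε : ℝ := ‖(σ.n : ℂ) * c * γ‖ with hε
  have hε0 : 0 < ε := norm_pos_iff.2 hcc
  refine ⟨|C1| * (|C2| / ε) ^ N, ?_⟩
  have hcont : Continuous φ := h.cls.cont d.cφ
  have hquot : ∀ᶠ z in codiscrete ℂ, ev R (ω E0) (φ z) =
      ev R (ω E) (φ z) / ev R (cJ E σ.x σ.y) (φ z) ^ N := by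
    have h1 : hcv.emb R (ω E0) = hcv.emb R (ω E) / hcv.emb R (cJ E σ.x σ.y) ^ N := by
      rw [hquo, map_div₀, map_pow]
    rw [Cv.emb_apply, Cv.emb_apply, Cv.emb_apply, cl_pow', cl_div] at h1
    exact cl_eq.1 h1
  have hOc : ∀ᶠ z in 𝓝[≠] z0, φ z ∈ O := nhdsWithin_le_nhds (hcont.continuousAt hO)
  filter_upwards [hOc, hC2, codis_ev (hcv.good R (ω E)) z0, codis_ev hquot z0,
    codis_ev (ev_ne_codis R hcv hJ) z0] with z k1 k2 k3 k5 k6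
  unfold tau
  rw [k5]
  have e1 : ev R (ω E) (φ z) / ev R (cJ E σ.x σ.y) (φ z) ^ N * lam R σ φ z ^ N =
      ev R (ω E) (φ z) * (lam R σ φ z / ev R (cJ E σ.x σ.y) (φ z)) ^ N := by
    rw [div_pow]
    ring
  rw [e1, norm_mul, norm_pow]
  have b1 : ‖ev R (ω E) (φ z)‖ ≤ |C1| := (hC1 _ ⟨k1, hcv.mem z⟩ k3).trans (le_abs_self _)
  have b2 : ‖lam R σ φ z / ev R (cJ E σ.x σ.y) (φ z)‖ ≤ |C2| / ε := by
    rw [le_div_iff₀ hε0, hε, ← norm_mul]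
    have e2 : lam R σ φ z / ev R (cJ E σ.x σ.y) (φ z) * (σ.n * c * γ) =
        σ.n * c * γ * lam R σ φ z / ev R (cJ E σ.x σ.y) (φ z) := by ring
    rw [e2]
    exact k2.trans (le_abs_self _)
  exact mul_le_mul b1 (pow_le_pow_left₀ (norm_nonneg _) b2 _) (by positivity) (abs_nonneg _)

/-- the first case -/
theorem GCls.rigB0 (h : GCls R 𝒞 c0 σ c)
    (hne : ∀ ψ, 𝒞 ψ → ∀ᶠ z in codiscrete ℂ, gv R σ 1 ψ z ≠ 0) : RigB' 𝒞 := by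
  refine h.rigB_of fun {𝓤 φ P Q a κ} d hinf γ hδ hng hn0 => ?_
  by_contra hγ
  obtain ⟨x, E, hx⟩ := h.basis
  obtain ⟨E0, hE0⟩ := exists_dual_ex hx σ
  obtain ⟨N, ω0, ω1, D, hN, hω0, hω1, hr0, hr1, hD, htr⟩ := h.forms
  obtain ⟨k0, hk0⟩ := tau_const h hne d.cφ (g := ω0 E0) (N := N) fun z0 =>
    tau_bdd h hne d hinf hγ hδ hng hn0 hω0 hr0 hE0 z0
  obtain ⟨k1, hk1⟩ := tau_const h hne d.cφ (g := ω1 E0) (N := N) fun z0 =>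
    tau_bdd h hne d hinf hγ hδ hng hn0 hω1 hr1 hE0 z0
  set e := (h.cv φ d.cφ).emb R with he
  set j := cl (lam R σ φ) (lam_mero (h.cv φ d.cφ)) with hj
  have hj0 : j ≠ 0 := by
    intro h0
    rw [hj, cl_eq_zero] at h0
    obtain ⟨z, ⟨hz, hz'⟩, hz''⟩ := ((h0.and (hne φ d.cφ)).and
      (gg_codis R (h.cv φ d.cφ) σ)).exists
    exact lam_ne hz'' hz' hz
  have hE00 : ω0 E0 ≠ 0 := pluri_ne hω0 hE0 hD
  have hratio : ω1 D / ω0 D = ω1 E0 / ω0 E0 := pluri_ratio hω0 hω1 hE0 hD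
  apply htr
  rw [hratio]
  have h1 : e (ω1 E0 / ω0 E0) = algebraMap ℂ MK (k1 / k0) := by
    rw [map_div₀, map_div₀, ← hk0, ← hk1, mul_div_mul_right _ _ (pow_ne_zero _ hj0)]
  have h2 : ω1 E0 / ω0 E0 = algebraMap ℂ K (k1 / k0) := by
    apply e.toRingHom.injective
    change e _ = e _
    rw [h1, e.commutes]
  rw [h2]
  exact isAlgebraic_algebraMap _

end Pool.Agent.L7h90.JG
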