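import Pool.Agent.L7h90.WR.Crv

/-! Sequences of holomorphic functions near a point: convergence and orders. -/

set_option autoImplicit false

open Filter Topology Set Metric

namespace Pool.Agent.L7h90.JG

open Pool.Agent.N155 Pool.Agent.Y190.OP
open Pool.Agent.L7h90.WR (cc_deriv at_z)

variable {l : Filter ℕ} {z : ℂ}

theorem ev_open {r : ℕ → ℂ → Prop} (h : ∀ᶠ p : ℕ × ℂ in l ×ˢ 𝓝 z, r p.1 p.2) :
    ∃ V : Set ℂ, IsOpen V ∧ z ∈ V ∧ ∀ᶠ m in l, ∀ w ∈ V, r m w := by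
  rw [eventually_prod_iff] at h
  obtain ⟨pa, hpa, pb, hpb, hab⟩ := h
  obtain ⟨V, hVs, hV, hzV⟩ := _root_.mem_nhds_iff.1 hpb
  exact ⟨V, hV, hzV, by filter_upwards [hpa] with m hm w hw using hab hm (hVs hw)⟩

theorem ev_of_open {r : ℕ → ℂ → Prop} {V : Set ℂ} (hV : IsOpen V) (hz : z ∈ V)
    (h : ∀ᶠ m in l, ∀ w ∈ V, r m w) : ∀ᶠ p : ℕ × ℂ in l ×ˢ 𝓝 z, r p.1 p.2 := by
  rw [eventually_prod_iff]
  exact ⟨_, h, fun w => w ∈ V, hV.mem_nhds hz, fun hm w hw => hm w hw⟩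

/-- a property near a point holds near the points nearby -/
theorem ev_ev {r : ℕ → ℂ → Prop} (h : ∀ᶠ p : ℕ × ℂ in l ×ˢ 𝓝 z, r p.1 p.2) :
    ∀ᶠ p : ℕ × ℂ in l ×ˢ 𝓝 z, ∀ᶠ w in 𝓝 p.2, r p.1 w := by
  obtain ⟨V, hV, hz, hm⟩ := ev_open h
  refine ev_of_open (r := fun m w => ∀ᶠ v in 𝓝 w, r m v) hV hz ?_
  filter_upwards [hm] with m hm w hw
  filter_upwards [hV.mem_nhds hw] with v hv using hm v hv

theorem ev_nhds {r : ℕ → ℂ → Prop} (h : ∀ᶠ p : ℕ × ℂ in l ×ˢ 𝓝 z, r p.1 p.2) :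
    ∀ᶠ w in 𝓝 z, ∀ᶠ p : ℕ × ℂ in l ×ˢ 𝓝 w, r p.1 p.2 := by
  obtain ⟨V, hV, hz, hm⟩ := ev_open h
  filter_upwards [hV.mem_nhds hz] with w hw
  exact ev_of_open hV hw hm

/-- convergence of holomorphic functions near a point -/
structure CH (l : Filter ℕ) (z : ℂ) (F : ℕ → ℂ → ℂ) (f : ℂ → ℂ) : Prop where
  ev : ∀ᶠ p : ℕ × ℂ in l ×ˢ 𝓝 z, AnalyticAt ℂ (F p.1) p.2
  lim : ∀ᶠ w in 𝓝 z, Tendsto (fun p : ℕ × ℂ => F p.1 p.2) (l ×ˢ 𝓝 w) (𝓝 (f w))

variable {F G : ℕ → ℂ → ℂ} {f g : ℂ → ℂ}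

theorem CH.nhds (h : CH l z F f) : ∀ᶠ w in 𝓝 z, CH l w F f := by
  filter_upwards [ev_nhds (r := fun m w => AnalyticAt ℂ (F m) w) h.ev, h.lim.eventually_nhds]
    with w h1 h2 using ⟨h1, h2⟩

theorem CH.tendsto (h : CH l z F f) :
    Tendsto (fun p : ℕ × ℂ => F p.1 p.2) (l ×ˢ 𝓝 z) (𝓝 (f z)) := h.lim.self_of_nhds

theorem CH.cc (h : CH l z F f) : ∃ U : Set ℂ, IsOpen U ∧ z ∈ U ∧ CConv l U F f ∧
    ∀ w ∈ U, ∃ V ∈ 𝓝 w, ∀ᶠ m in l, DifferentiableOn ℂ (F m) V := by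
  obtain ⟨V, hV, hz, hm⟩ := ev_open (r := fun m w => AnalyticAt ℂ (F m) w) h.ev
  obtain ⟨W, hWs, hW, hzW⟩ := _root_.mem_nhds_iff.1 (inter_mem h.lim (hV.mem_nhds hz))
  refine ⟨W, hW, hzW, fun w hw => (hWs hw).1, fun w hw => ⟨V, hV.mem_nhds (hWs hw).2, ?_⟩⟩
  filter_upwards [hm] with m hm v hv
  exact (hm v hv).differentiableAt.differentiableWithinAt

theorem CH.of_cc {U : Set ℂ} (hU : IsOpen U) (hz : z ∈ U) (hc : CConv l U F f)
    (hd : ∀ w ∈ U, ∃ V ∈ 𝓝 w, ∀ᶠ m in l, DifferentiableOn ℂ (F m) V) : CH l z F f := by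
  constructor
  · obtain ⟨V, hV, hm⟩ := hd z hz
    obtain ⟨W, hWs, hW, hzW⟩ := _root_.mem_nhds_iff.1 hV
    refine ev_of_open (r := fun m w => AnalyticAt ℂ (F m) w) hW hzW ?_
    filter_upwards [hm] with m hm w hw
    exact (hm.mono hWs).analyticAt (hW.mem_nhds hw)
  · filter_upwards [hU.mem_nhds hz] with w hw using hc w hw

theorem CH.an [l.NeBot] (h : CH l z F f) : AnalyticAt ℂ f z := by
  obtain ⟨U, hU, hz, hc, hd⟩ := h.cc
  exact (CConv.an hc hU hz (hd z hz)).1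

theorem CH.deriv [l.NeBot] (h : CH l z F f) : CH l z (fun m => deriv (F m)) (deriv f) := by
  obtain ⟨U, hU, hz, hc, hd⟩ := h.cc
  obtain ⟨h1, h2⟩ := cc_deriv hU hc hd
  exact CH.of_cc hU hz h1 h2

theorem CH.congr (h : CH l z F f) (hF : ∀ᶠ p : ℕ × ℂ in l ×ˢ 𝓝 z, F p.1 p.2 = G p.1 p.2)
    (hf : f =ᶠ[𝓝 z] g) : CH l z G g := by
  constructor
  · filter_upwards [ev_ev (r := fun m w => F m w = G m w) hF, h.ev] with p h1 h2
    exact h2.congr h1
  · filter_upwards [h.lim, ev_nhds (r := fun m w => F m w = G m w) hF, hf] with w h1 h2 h3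
    rw [← h3]
    exact h1.congr' h2

theorem CH.congr' (h : CH l z F f) (hF : ∀ᶠ p : ℕ × ℂ in l ×ˢ 𝓝 z, F p.1 p.2 = G p.1 p.2) :
    CH l z G f := h.congr hF EventuallyEq.rfl

theorem CH.unique [l.NeBot] (h : CH l z F f) (h' : CH l z F g) : f =ᶠ[𝓝 z] g := by
  filter_upwards [h.lim, h'.lim] with w h1 h2 using tendsto_nhds_unique h1 h2

theorem CH.fix (hf : AnalyticAt ℂ f z) : CH l z (fun _ => f) f where
  ev := by
    have := hf.eventually_analyticAt
    exact Tendsto.eventually tendsto_snd this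
  lim := by
    filter_upwards [hf.eventually_analyticAt] with w hw
    exact hw.continuousAt.tendsto.comp tendsto_snd

theorem CH.const (c : ℂ) : CH l z (fun _ _ => c) (fun _ => c) := CH.fix analyticAt_const

theorem CH.seq {b : ℕ → ℂ} {β : ℂ} (h : Tendsto b l (𝓝 β)) :
    CH l z (fun m _ => b m) (fun _ => β) where
  ev := Eventually.of_forall fun _ => analyticAt_const
  lim := Eventually.of_forall fun _ => h.comp tendsto_fst

theorem CH.add (h : CH l z F f) {F' : ℕ → ℂ → ℂ} {f' : ℂ → ℂ} (h' : CH l z F' f') :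
    CH l z (fun m w => F m w + F' m w) (fun w => f w + f' w) where
  ev := by filter_upwards [h.ev, h'.ev] with p h1 h2 using h1.add h2
  lim := by filter_upwards [h.lim, h'.lim] with w h1 h2 using h1.add h2

theorem CH.neg (h : CH l z F f) : CH l z (fun m w => -F m w) (fun w => -f w) where
  ev := by filter_upwards [h.ev] with p h1 using h1.neg
  lim := by filter_upwards [h.lim] with w h1 using h1.neg

theorem CH.sub (h : CH l z F f) {F' : ℕ → ℂ → ℂ} {f' : ℂ → ℂ} (h' : CH l z F' f') :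
    CH l z (fun m w => F m w - F' m w) (fun w => f w - f' w) where
  ev := by filter_upwards [h.ev, h'.ev] with p h1 h2 using h1.sub h2
  lim := by filter_upwards [h.lim, h'.lim] with w h1 h2 using h1.sub h2

theorem CH.mul (h : CH l z F f) {F' : ℕ → ℂ → ℂ} {f' : ℂ → ℂ} (h' : CH l z F' f') :
    CH l z (fun m w => F m w * F' m w) (fun w => f w * f' w) where
  ev := by filter_upwards [h.ev, h'.ev] with p h1 h2 using h1.mul h2
  lim := by filter_upwards [h.lim, h'.lim] with w h1 h2 using h1.mul h2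

theorem CH.pow (h : CH l z F f) (n : ℕ) :
    CH l z (fun m w => F m w ^ n) (fun w => f w ^ n) where
  ev := by filter_upwards [h.ev] with p h1 using h1.pow n
  lim := by filter_upwards [h.lim] with w h1 using h1.pow n

theorem CH.ne (h : CH l z F f) (hf : f z ≠ 0) : ∀ᶠ p : ℕ × ℂ in l ×ˢ 𝓝 z, F p.1 p.2 ≠ 0 :=
  h.tendsto.eventually_ne hf

theorem CH.inv [l.NeBot] (h : CH l z F f) (hf : f z ≠ 0) :
    CH l z (fun m w => (F m w)⁻¹) (fun w => (f w)⁻¹) where
  ev := by filter_upwards [h.ev, h.ne hf] with p h1 h2 using h1.inv h2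
  lim := by
    filter_upwards [h.lim, h.an.continuousAt.eventually_ne hf] with w h1 h2 using h1.inv₀ h2

theorem CH.div [l.NeBot] (h : CH l z F f) {F' : ℕ → ℂ → ℂ} {f' : ℂ → ℂ} (h' : CH l z F' f')
    (hf : f' z ≠ 0) : CH l z (fun m w => F m w / F' m w) (fun w => f w / f' w) := by
  have := h.mul (h'.inv hf)
  simpa only [div_eq_mul_inv] using this

theorem CH.sum {ι : Type} (s : Finset ι) {F : ι → ℕ → ℂ → ℂ} {f : ι → ℂ → ℂ}
    (h : ∀ i ∈ s, CH l z (F i) (f i)) :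
    CH l z (fun m w => ∑ i ∈ s, F i m w) (fun w => ∑ i ∈ s, f i w) := by
  classical
  induction s using Finset.induction_on with
  | empty => simpa using CH.const 0
  | insert a s ha ih =>
    simp only [Finset.sum_insert ha]
    exact (h a (Finset.mem_insert_self a s)).add
      (ih fun i hi => h i (Finset.mem_insert_of_mem hi))

theorem CH.prod {ι : Type} (s : Finset ι) {F : ι → ℕ → ℂ → ℂ} {f : ι → ℂ → ℂ}
    (h : ∀ i ∈ s, CH l z (F i) (f i)) :
    CH l z (fun m w => ∏ i ∈ s, F i m w) (fun w => ∏ i ∈ s, f i w) := by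
  classical
  induction s using Finset.induction_on with
  | empty => simpa using CH.const 1
  | insert a s ha ih =>
    simp only [Finset.prod_insert ha]
    exact (h a (Finset.mem_insert_self a s)).mul
      (ih fun i hi => h i (Finset.mem_insert_of_mem hi))

/-- sequences which tend to zero -/
def CZ (l : Filter ℕ) (z : ℂ) (F : ℕ → ℂ → ℂ) : Prop := CH l z F (fun _ => 0)

theorem CZ.add (h : CZ l z F) (h' : CZ l z G) : CZ l z (fun m w => F m w + G m w) := by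
  have := CH.add h h'
  unfold CZ
  simpa using this

theorem CZ.neg (h : CZ l z F) : CZ l z (fun m w => -F m w) := by
  have := CH.neg h
  unfold CZ
  simpa using this

theorem CZ.mul (h : CZ l z F) (h' : CH l z G g) : CZ l z (fun m w => F m w * G m w) := by
  have := CH.mul h h'
  unfold CZ
  simpa using this

theorem CZ.deriv [l.NeBot] (h : CZ l z F) : CZ l z (fun m => deriv (F m)) := by
  have := CH.deriv h
  rwa [show _root_.deriv (fun _ : ℂ => (0 : ℂ)) = fun _ => 0 from funext fun w => deriv_const w 0]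
    at this

/-! ### orders -/

/-- the norms tend to infinity -/
def Inf (l : Filter ℕ) (a : ℕ → ℂ) : Prop := ∀ C : ℝ, ∀ᶠ m in l, C ≤ ‖a m‖

variable {a : ℕ → ℂ}

theorem Inf.ne (h : Inf l a) : ∀ᶠ m in l, a m ≠ 0 := by
  filter_upwards [h 1] with m hm h0
  rw [h0, norm_zero] at hm
  linarith

theorem Inf.inv (h : Inf l a) : Tendsto (fun m => (a m)⁻¹) l (𝓝 0) := by
  have h1 : Tendsto (fun m => ‖a m‖) l atTop := tendsto_atTop.2 h
  have h2 := h1.inv_tendsto_atTop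
  rw [tendsto_zero_iff_norm_tendsto_zero]
  refine h2.congr fun m => ?_
  rw [Pi.inv_apply, norm_inv]

/-- `a ^ i F` tends to zero -/
def Sm (l : Filter ℕ) (z : ℂ) (a : ℕ → ℂ) (i : ℤ) (F : ℕ → ℂ → ℂ) : Prop :=
  CZ l z (fun m w => a m ^ i * F m w)

theorem Sm.congr {i : ℤ} (h : Sm l z a i F)
    (hF : ∀ᶠ p : ℕ × ℂ in l ×ˢ 𝓝 z, F p.1 p.2 = G p.1 p.2) : Sm l z a i G := by
  refine CH.congr' (F := fun m w => a m ^ i * F m w) h ?_
  filter_upwards [hF] with p hp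
  rw [hp]

theorem Sm.add {i : ℤ} (h : Sm l z a i F) (h' : Sm l z a i G) :
    Sm l z a i (fun m w => F m w + G m w) := by
  refine CH.congr' (CZ.add h h') (Eventually.of_forall fun p => ?_)
  ring

theorem Sm.neg {i : ℤ} (h : Sm l z a i F) : Sm l z a i (fun m w => -F m w) := by
  refine CH.congr' (CZ.neg h) (Eventually.of_forall fun p => ?_)
  ring

theorem Sm.sub {i : ℤ} (h : Sm l z a i F) (h' : Sm l z a i G) :
    Sm l z a i (fun m w => F m w - G m w) := by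
  simpa only [sub_eq_add_neg] using h.add h'.neg

theorem Sm.ch {i : ℤ} (h : Sm l z a i F) (h' : CH l z G g) :
    Sm l z a i (fun m w => F m w * G m w) := by
  refine CH.congr' (CZ.mul h h') (Eventually.of_forall fun p => ?_)
  ring

theorem Sm.mul (ha : Inf l a) {i j : ℤ} (h : Sm l z a i F) (h' : Sm l z a j G) :
    Sm l z a (i + j) (fun m w => F m w * G m w) := by
  refine CH.congr' (CZ.mul h h') ?_
  filter_upwards [tendsto_fst.eventually ha.ne] with p hp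
  rw [zpow_add₀ hp]
  ring

theorem Sm.sa (ha : Inf l a) {i : ℤ} (h : Sm l z a i F) :
    Sm l z a (i - 1) (fun m w => a m * F m w) := by
  refine CH.congr' h ?_
  filter_upwards [tendsto_fst.eventually ha.ne] with p hp
  have h1 : a p.1 ^ i = a p.1 ^ (i - 1) * a p.1 := by
    rw [← zpow_add_one₀ hp, sub_add_cancel]
  rw [h1]
  ring

theorem Sm.deriv [l.NeBot] {i : ℤ} (h : Sm l z a i F) :
    Sm l z a i (fun m => deriv (F m)) := by
  refine CH.congr' (CZ.deriv h) (Eventually.of_forall fun p => ?_)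
  exact deriv_const_mul_field _

theorem Sm.mono (ha : Inf l a) {i j : ℤ} (h : Sm l z a j F) (hij : i ≤ j) : Sm l z a i F := by
  obtain ⟨k, hk⟩ := Int.eq_ofNat_of_zero_le (sub_nonneg.2 hij)
  have hj : j = i + k := by omega
  have h1 : CH l z (fun m _ => (a m)⁻¹ ^ k) (fun _ => (0 : ℂ) ^ k) :=
    CH.seq (ha.inv.pow k)
  refine CH.congr' (CZ.mul h h1) ?_
  filter_upwards [tendsto_fst.eventually ha.ne] with p hp
  rw [hj, zpow_add₀ hp, zpow_natCast]
  have h2 : a p.1 ^ k * (a p.1)⁻¹ ^ k = 1 := by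
    rw [← mul_pow, mul_inv_cancel₀ hp, one_pow]
  linear_combination (a p.1 ^ i * F p.1 p.2) * h2

theorem Sm.zero_iff : Sm l z a 0 F ↔ CZ l z F := by
  unfold Sm
  simp only [zpow_zero, one_mul]

theorem Sm.of_ch (ha : Inf l a) (h : CH l z F f) : Sm l z a (-1) F := by
  have h1 : CZ l z (fun m _ => (a m)⁻¹) := CH.seq ha.inv
  refine CH.congr' (CZ.mul h1 h) (Eventually.of_forall fun p => ?_)
  rw [zpow_neg_one]

/-- sequences of finite order -/
def Md (l : Filter ℕ) (z : ℂ) (a : ℕ → ℂ) (F : ℕ → ℂ → ℂ) : Prop := ∃ i, Sm l z a i F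

/-- negligible sequences -/
def Ng (l : Filter ℕ) (z : ℂ) (a : ℕ → ℂ) (F : ℕ → ℂ → ℂ) : Prop := ∀ i, Sm l z a i F

end Pool.Agent.L7h90.JG
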