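import Pool.Agent.L7h90.JG.Prd
import Pool.Agent.L7h90.WR.Net2

/-! Linear systems with multiple members and Wronskians. -/

set_option autoImplicit false

open FF MvPolynomial Pool.Agent.W602.GT Pool.Agent.TH143.GT

namespace Pool.Agent.L7h90.JG

open Pool.Agent.L7h90.WR
open Pool.Agent.W603.LV (Ge ge_det)

variable {K : Type} [Field K] [Algebra ℂ K]

/-! ### the homogeneous Wronskian -/

/-- the Wronskian of `f 0, ..., f (n - 1)` -/
noncomputable def hw (D : Derivation ℂ K K) {n : ℕ} (f : Fin n → K) : K :=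
  (Matrix.of fun i j : Fin n => (D : K → K)^[(i : ℕ)] (f j)).det

theorem hw_vec (D : Derivation ℂ K K) {N : ℕ} (u : Fin N → K) : hw D (vec u) = wr D u := by
  unfold hw wr
  rw [Matrix.det_succ_column_zero, Fin.sum_univ_succ, Finset.sum_eq_zero, add_zero]
  · rw [Fin.val_zero, pow_zero, one_mul]
    have h1 : (Matrix.of fun i j : Fin (N + 1) => (D : K → K)^[(i : ℕ)] (vec u j)) 0 0 = 1 := rfl
    rw [h1, one_mul]
    congr 1
  · intro i _
    have h1 : (Matrix.of fun i j : Fin (N + 1) => (D : K → K)^[(i : ℕ)] (vec u j)) i.succ 0 = 0 := by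
      change (D : K → K)^[((i.succ : Fin (N + 1)) : ℕ)] (1 : K) = 0
      rw [Fin.val_succ, Function.iterate_succ_apply, D.map_one_eq_zero]
      exact iterate_map_zero D _
    rw [h1, mul_zero, zero_mul]

theorem iter_lin (D : Derivation ℂ K K) {n : ℕ} (c : Fin n → ℂ) (f : Fin n → K) (i : ℕ) :
    (D : K → K)^[i] (∑ j, algebraMap ℂ K (c j) * f j) =
      ∑ j, algebraMap ℂ K (c j) * (D : K → K)^[i] (f j) := by
  induction i with
  | zero => rfl
  | succ i ih =>
    rw [Function.iterate_succ_apply', ih, map_sum]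
    refine Finset.sum_congr rfl fun j _ => ?_
    rw [D.leibniz, D.map_algebraMap, smul_zero, add_zero, smul_eq_mul,
      Function.iterate_succ_apply']

theorem hw_lin (D : Derivation ℂ K K) {n : ℕ} (f : Fin n → K) (A : Matrix (Fin n) (Fin n) ℂ) :
    hw D (fun k => ∑ j, algebraMap ℂ K (A k j) * f j) = algebraMap ℂ K A.det * hw D f := by
  unfold hw
  have h1 : (Matrix.of fun i k : Fin n => (D : K → K)^[(i : ℕ)]
      (∑ j, algebraMap ℂ K (A k j) * f j)) =
      (Matrix.of fun i j : Fin n => (D : K → K)^[(i : ℕ)] (f j)) *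
        ((algebraMap ℂ K).mapMatrix A).transpose := by
    ext i k
    rw [Matrix.mul_apply, Matrix.of_apply, iter_lin]
    refine Finset.sum_congr rfl fun j _ => ?_
    rw [mul_comm]
    rfl
  rw [h1, Matrix.det_mul, Matrix.det_transpose, ← RingHom.map_det, mul_comm]

theorem mul_iter (D : Derivation ℂ K K) (s : K) (i : ℕ) : ∃ L : ℕ → K, L i = s ∧
    ∀ f : K, (D : K → K)^[i] (s * f) =
      ∑ k ∈ Finset.range (i + 1), L k * (D : K → K)^[k] f := by
  induction i with
  | zero =>
    refine ⟨fun _ => s, rfl, fun f => ?_⟩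
    rw [Finset.sum_range_one]
    rfl
  | succ i ih =>
    obtain ⟨L, h1, h2⟩ := ih
    refine ⟨fun k => (if k ≤ i then D (L k) else 0) + (if k = 0 then 0 else L (k - 1)),
      ?_, fun f => ?_⟩
    · simp only
      rw [if_neg (by omega), if_neg (by omega), zero_add, Nat.add_sub_cancel, h1]
    · rw [Function.iterate_succ_apply', h2, map_sum]
      have h3 : ∀ k, D (L k * (D : K → K)^[k] f) =
          D (L k) * (D : K → K)^[k] f + L k * (D : K → K)^[k + 1] f := by
        intro k
        rw [D.leibniz, Function.iterate_succ_apply' (D : K → K) k]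
        simp only [smul_eq_mul]
        ring
      simp only [h3, Finset.sum_add_distrib, add_mul]
      congr 1
      · rw [Finset.sum_range_succ _ (i + 1), if_neg (by omega), zero_mul, add_zero]
        refine Finset.sum_congr rfl fun k hk => ?_
        rw [Finset.mem_range] at hk
        rw [if_pos (by omega)]
      · rw [Finset.sum_range_succ' _ (i + 1), if_pos rfl, zero_mul, add_zero]
        refine Finset.sum_congr rfl fun k _ => ?_
        rw [if_neg (Nat.succ_ne_zero k), Nat.add_sub_cancel]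

theorem hw_smul (D : Derivation ℂ K K) (s : K) {n : ℕ} (f : Fin n → K) :
    hw D (fun j => s * f j) = s ^ n * hw D f := by
  choose L h1 h2 using mul_iter D s
  set Lm : Matrix (Fin n) (Fin n) K := Matrix.of fun i k => if k ≤ i then L i k else 0 with hLm
  have h3 : (Matrix.of fun i j : Fin n => (D : K → K)^[(i : ℕ)] (s * f j)) =
      Lm * Matrix.of fun i j : Fin n => (D : K → K)^[(i : ℕ)] (f j) := by
    ext i j
    rw [Matrix.mul_apply, Matrix.of_apply, h2]
    simp only [hLm, Matrix.of_apply, ite_mul, zero_mul]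
    have h4 : ∀ k : Fin n, (if k ≤ i then L i k * (D : K → K)^[(k : ℕ)] (f j) else 0) =
        (fun k : ℕ => if k ≤ i then L i k * (D : K → K)^[k] (f j) else 0) k := fun k => rfl
    rw [Finset.sum_congr rfl fun k _ => h4 k, Fin.sum_univ_eq_sum_range
      (fun k : ℕ => if k ≤ i then L i k * (D : K → K)^[k] (f j) else 0) n]
    have h5 : Finset.range ((i : ℕ) + 1) ⊆ Finset.range n :=
      Finset.range_subset_range.2 (by omega)
    rw [← Finset.sum_subset h5 fun k _ hk => ?_]
    · refine Finset.sum_congr rfl fun k hk => ?_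
      rw [Finset.mem_range] at hk
      rw [if_pos (by omega)]
    · rw [Finset.mem_range] at hk
      rw [if_neg (by omega)]
  unfold hw
  rw [h3, Matrix.det_mul, Matrix.det_of_isLowerTriangular (M := Lm) (by
    intro i j hij
    have hij' : i < j := hij
    rw [hLm, Matrix.of_apply, if_neg (not_le.2 hij')])]
  congr 1
  have h6 : ∀ i : Fin n, Lm i i = s := fun i => by
    rw [hLm, Matrix.of_apply, if_pos le_rfl, h1]
  rw [Finset.prod_congr rfl fun i _ => h6 i, Finset.prod_const, Finset.card_univ,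
    Fintype.card_fin]

/-! ### orders -/

theorem ge_iter {P : Place ℂ K} {D : Derivation ℂ K K} (hD : DerReg P D) {m : ℤ} {x : K}
    (h0 : 0 ≤ m) (hx : Ge P m x) (i : ℕ) : Ge P (max 0 (m - i)) ((D : K → K)^[i] x) := by
  induction i with
  | zero =>
    rw [Nat.cast_zero, sub_zero, max_eq_right h0]
    exact hx
  | succ i ih =>
    rw [Function.iterate_succ_apply']
    exact (ge_der hD (le_max_left _ _) ih).mono (by push_cast; omega)

theorem ge_hw {P : Place ℂ K} {D : Derivation ℂ K K} (hD : DerReg P D) {N : ℕ}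
    {f : Fin (N + 1) → K} {a : Fin (N + 1) → ℤ} (h0 : ∀ k, 0 ≤ a k) (hf : ∀ k, Ge P (a k) (f k)) :
    Ge P (∑ k, max 0 (a k - N)) (hw D f) := by
  refine ge_det P _ _ (fun i j => max 0 (a j - i)) (fun i j => ge_iter hD (h0 j) (hf j) i)
    fun τ => ?_
  refine Finset.sum_le_sum fun i _ => max_le_max le_rfl ?_
  have := (τ i).2
  omega

/-- the numbers -/
theorem exists_sub {q : ℕ} (E : Fin q → ℕ) : ∀ S : ℕ, S ≤ ∑ i, E i →
    ∃ e : Fin q → ℕ, (∀ i, e i ≤ E i) ∧ ∑ i, e i = S := by
  intro S
  induction S with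
  | zero => exact fun _ => ⟨fun _ => 0, fun _ => Nat.zero_le _, by simp⟩
  | succ S ih =>
    intro hS
    obtain ⟨e, h1, h2⟩ := ih (by omega)
    obtain ⟨i, hi⟩ : ∃ i, e i < E i := by
      by_contra hcon
      push Not at hcon
      have := Finset.sum_le_sum fun i (_ : i ∈ Finset.univ) => hcon i
      omega
    refine ⟨Function.update e i (e i + 1), fun j => ?_, ?_⟩
    · by_cases hj : j = i
      · subst hj
        rw [Function.update_self]
        exact hi
      · rw [Function.update_of_ne hj]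
        exact h1 j
    · rw [Finset.sum_update_of_mem (Finset.mem_univ i), ← h2,
        ← Finset.add_sum_erase Finset.univ e (Finset.mem_univ i), Finset.sdiff_singleton_eq_erase]
      ring

theorem exists_num {N q : ℕ} {r : Fin q → ℕ} (hN : 0 < N) (hr : ∀ i, N ≤ r i)
    (hsum : (N : ℚ) + 1 ≤ ∑ i, (1 - N / (r i : ℚ))) :
    ∃ (M : ℕ) (e : Fin q → ℕ), 0 < M ∧ (∀ i, e i ≤ M) ∧ (∀ i, e i * r i ≤ M * (r i - N)) ∧
      ∑ i, e i = M * (N + 1) := by
  set M := ∏ i, r i with hM
  have hr0 : ∀ i, 0 < r i := fun i => hN.trans_le (hr i)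
  have hM0 : 0 < M := Finset.prod_pos fun i _ => hr0 i
  set E : Fin q → ℕ := fun i => (∏ j ∈ Finset.univ.erase i, r j) * (r i - N) with hE
  have hEr : ∀ i, E i * r i = M * (r i - N) := by
    intro i
    rw [hM, ← Finset.mul_prod_erase Finset.univ r (Finset.mem_univ i), hE]
    ring
  have hEM : ∀ i, E i ≤ M := by
    intro i
    have h1 : E i * r i ≤ M * r i := by
      rw [hEr]
      exact Nat.mul_le_mul_left _ (Nat.sub_le _ _)
    exact Nat.le_of_mul_le_mul_right h1 (hr0 i)
  have hsum' : M * (N + 1) ≤ ∑ i, E i := by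
    have h1 : ∀ i, (E i : ℚ) = M * (1 - N / (r i : ℚ)) := by
      intro i
      have h2 : (r i : ℚ) ≠ 0 := by exact_mod_cast (hr0 i).ne'
      have h3 : (E i : ℚ) * r i = M * (r i - N) := by
        have h5 := hEr i
        have h4 : (E i : ℚ) * (r i : ℚ) = (M : ℚ) * ((r i - N : ℕ) : ℚ) := by exact_mod_cast h5
        rw [Nat.cast_sub (hr i)] at h4
        exact h4
      field_simp
      linarith
    have h2 : ((∑ i, E i : ℕ) : ℚ) = M * ∑ i, (1 - N / (r i : ℚ)) := by
      rw [Nat.cast_sum, Finset.mul_sum]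
      exact Finset.sum_congr rfl fun i _ => h1 i
    have h3 : ((M * (N + 1) : ℕ) : ℚ) ≤ ((∑ i, E i : ℕ) : ℚ) := by
      rw [h2]
      push_cast
      exact mul_le_mul_of_nonneg_left hsum (Nat.cast_nonneg _)
    exact_mod_cast h3
  obtain ⟨e, h1, h2⟩ := exists_sub E _ hsum'
  refine ⟨M, e, hM0, fun i => (h1 i).trans (hEM i), fun i => ?_, h2⟩
  rw [← hEr]
  exact Nat.mul_le_mul_right _ (h1 i)

/-! ### the local analysis -/

section loc

variable {N : ℕ} {u : Fin N → K} {q : ℕ} {L : Fin q → Fin (N + 1) → ℂ} {r : Fin q → ℕ}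

theorem vec_ne (hu : Indep u) (j : Fin (N + 1)) : vec u j ≠ 0 := by
  classical
  refine Fin.cases ?_ (fun j => ?_) j
  · exact one_ne_zero
  · change u j ≠ 0
    intro h0
    have h1 := hu (Pi.single j 1) 0 (by
      rw [map_zero, Finset.sum_eq_single j]
      · rw [h0, mul_zero]
      · intro k _ hk
        rw [Pi.single_eq_of_ne hk, map_zero, zero_mul]
      · intro h
        exact absurd (Finset.mem_univ j) h)
    have h2 := congrFun h1 j
    rw [Pi.single_eq_same] at h2
    exact one_ne_zero h2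

theorem mem_ne (hu : Indep u) {a : Fin (N + 1) → ℂ} (ha : a ≠ 0) : mem u a ≠ 0 := by
  intro h0
  apply ha
  unfold mem at h0
  rw [Fin.sum_univ_succ] at h0
  change algebraMap ℂ K (a 0) * 1 + ∑ j : Fin N, algebraMap ℂ K (a j.succ) * u j = 0 at h0
  have h1 := hu (fun j => a j.succ) (-a 0) (by
    rw [map_neg]
    linear_combination h0)
  have h2 : a 0 = 0 := by
    have h3 : ∀ j : Fin N, a j.succ = 0 := fun j => congrFun h1 j
    simp only [h3, map_zero, zero_mul, Finset.sum_const_zero, add_zero, mul_one] at h0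
    exact (map_eq_zero _).1 h0
  funext j
  refine Fin.cases h2 (fun j => ?_) j
  exact congrFun h1 j

theorem exists_emb (I : Finset (Fin q)) (hI : I.card ≤ N + 1) (hq : N + 1 ≤ q) :
    ∃ j : Fin (N + 1) → Fin q, Function.Injective j ∧ ∀ i ∈ I, ∃ k, j k = i := by
  obtain ⟨J, hIJ, hJ⟩ := Finset.exists_superset_card_eq hI (by rwa [Fintype.card_fin])
  refine ⟨J.orderEmbOfFin hJ, (J.orderEmbOfFin hJ).injective, fun i hi => ?_⟩
  have h1 : i ∈ Set.range (J.orderEmbOfFin hJ) := by
    rw [Finset.range_orderEmbOfFin]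
    exact hIJ hi
  exact h1

theorem vec_comb (A : Matrix (Fin (N + 1)) (Fin (N + 1)) ℂ) (hA : A.det ≠ 0) (l : Fin (N + 1)) :
    vec u l = ∑ k, algebraMap ℂ K (A⁻¹ l k) * mem u (A k) := by
  unfold mem
  simp only [Finset.mul_sum, ← mul_assoc]
  rw [Finset.sum_comm]
  simp only [← Finset.sum_mul, ← map_mul, ← map_sum, ← Matrix.mul_apply]
  rw [Matrix.nonsing_inv_mul A (isUnit_iff_ne_zero.2 hA), Finset.sum_eq_single l]
  · rw [Matrix.one_apply_eq, map_one, one_mul]
  · intro k _ hk
    rw [Matrix.one_apply_ne hk.symm, map_zero, zero_mul]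
  · intro h
    exact absurd (Finset.mem_univ l) h

theorem sys_local (hu : Indep u) (hq : N + 1 ≤ q)
    (hdet : ∀ j : Fin (N + 1) → Fin q, Function.Injective j →
      (Matrix.of fun k => L (j k)).det ≠ 0) {P : Place ℂ K}
    (hP : ∀ i, P.ord (mem u (L i)) = pole P u ∨ pole P u + r i ≤ P.ord (mem u (L i)))
    {D : Derivation ℂ K K} (hD : DerReg P D) {M : ℕ} {e : Fin q → ℕ} (hr : ∀ i, N ≤ r i)
    (heM : ∀ i, e i ≤ M) (her : ∀ i, e i * r i ≤ M * (r i - N)) (hes : ∑ i, e i = M * (N + 1)) :
    P.Reg ((∏ i, mem u (L i) ^ e i)⁻¹ * wr D u ^ M) := by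
  classical
  have hL : ∀ i, L i ≠ 0 := by
    intro i h0
    obtain ⟨j, hj, hji⟩ := exists_emb (N := N) {i} (by rw [Finset.card_singleton]; omega) hq
    obtain ⟨k, hk⟩ := hji i (Finset.mem_singleton_self i)
    apply hdet j hj
    apply Matrix.det_eq_zero_of_row_eq_zero k
    intro l
    rw [Matrix.of_apply, hk, h0]
    rfl
  have hm0 : ∀ i, mem u (L i) ≠ 0 := fun i => mem_ne hu (hL i)
  set m := pole P u with hm
  obtain ⟨j0, -, hj0⟩ := Finset.exists_mem_eq_inf' (s := (Finset.univ : Finset (Fin (N + 1))))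
    Finset.univ_nonempty (fun j => P.ord (vec u j))
  set s := vec u j0 with hs
  have hs0 : s ≠ 0 := vec_ne hu j0
  have hsm : P.ord s = m := hj0.symm
  have hvm : ∀ j, Ge P m (vec u j) := fun j =>
    Or.inr (Finset.inf'_le (fun j => P.ord (vec u j)) (Finset.mem_univ j))
  have hmem : ∀ i, Ge P m (mem u (L i)) := fun i => Ge.sum _ _ fun j _ => by
    have := (Ge.const (P := P) (L i j)).mul (hvm j)
    rwa [zero_add] at this
  have hord : ∀ i, m ≤ P.ord (mem u (L i)) := fun i => (hmem i).resolve_left (hm0 i)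
  set a : Fin q → ℤ := fun i => P.ord (mem u (L i)) - m with ha
  have ha0 : ∀ i, 0 ≤ a i := fun i => sub_nonneg.2 (hord i)
  have har : ∀ i, a i = 0 ∨ (r i : ℤ) ≤ a i := by
    intro i
    rcases hP i with h1 | h1
    · left
      rw [ha]
      simp only
      omega
    · right
      rw [ha]
      simp only
      omega
  set I := Finset.univ.filter fun i => 0 < a i with hIdef
  have hI : I.card ≤ N := by
    by_contra hcon
    push Not at hcon
    obtain ⟨I', hI', hc⟩ := Finset.exists_subset_card_eq (s := I) (n := N + 1) hcon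
    have hinj := (I'.orderEmbOfFin hc).injective
    have hdet' := hdet _ hinj
    set A : Matrix (Fin (N + 1)) (Fin (N + 1)) ℂ :=
      Matrix.of fun k => L (I'.orderEmbOfFin hc k) with hA
    have h1 : Ge P (m + 1) s := by
      rw [hs, vec_comb A hdet' j0]
      refine Ge.sum _ _ fun k _ => ?_
      have h2 : I'.orderEmbOfFin hc k ∈ I := hI' (Finset.orderEmbOfFin_mem I' hc k)
      rw [hIdef, Finset.mem_filter] at h2
      have h3 : Ge P (m + 1) (mem u (A k)) := by
        right
        have h4 : 0 < P.ord (mem u (L (I'.orderEmbOfFin hc k))) - m := h2.2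
        change m + 1 ≤ P.ord (mem u (L (I'.orderEmbOfFin hc k)))
        omega
      have := (Ge.const (P := P) (A⁻¹ j0 k)).mul h3
      rwa [zero_add] at this
    have h2 := h1.resolve_left hs0
    omega
  obtain ⟨j, hj, hjI⟩ := exists_emb (N := N) I (by omega) hq
  set A : Matrix (Fin (N + 1)) (Fin (N + 1)) ℂ := Matrix.of fun k => L (j k) with hA
  have hAdet : A.det ≠ 0 := hdet j hj
  set g : Fin (N + 1) → K := fun k => mem u (L (j k)) with hg
  have hw1 : hw D g = algebraMap ℂ K A.det * hw D (vec u) := hw_lin D (vec u) A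
  have hw2 : hw D g = s ^ (N + 1) * hw D fun k => g k / s := by
    rw [← hw_smul]
    congr 1
    funext k
    rw [mul_div_cancel₀ _ hs0]
  have hgk : ∀ k, Ge P (a (j k)) (g k / s) := by
    intro k
    have h1 : Ge P (P.ord (g k)) (g k) := Or.inr le_rfl
    have h2 : Ge P (-m) s⁻¹ := Or.inr (by rw [P.ord_inv, hsm])
    have h3 := h1.mul h2
    rw [div_eq_mul_inv]
    exact h3
  set T : ℤ := ∑ k, max 0 (a (j k) - N) with hT
  have h1 : Ge P T (hw D fun k => g k / s) := ge_hw hD (fun k => ha0 _) hgk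
  have h2 : Ge P (((N + 1 : ℕ) : ℤ) * m + T) (hw D g) := by
    rw [hw2]
    exact (Ge.pow (Or.inr hsm.ge) (N + 1)).mul h1
  have h3 : Ge P (((N + 1 : ℕ) : ℤ) * m + T) (wr D u) := by
    have h4 : wr D u = algebraMap ℂ K (A.det)⁻¹ * hw D g := by
      rw [hw1, hw_vec, ← mul_assoc, ← map_mul, inv_mul_cancel₀ hAdet, map_one, one_mul]
    rw [h4]
    have := (Ge.const (P := P) (A.det)⁻¹).mul h2
    rwa [zero_add] at this
  have h4 := h3.pow M
  have hprod : P.ord (∏ i, mem u (L i) ^ e i) = ∑ i, (e i : ℤ) * P.ord (mem u (L i)) := by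
    have := ord_prod_zpow P Finset.univ hm0 fun i => (e i : ℤ)
    simp only [zpow_natCast] at this
    exact this
  have h5 : Ge P (-∑ i, (e i : ℤ) * P.ord (mem u (L i))) (∏ i, mem u (L i) ^ e i)⁻¹ :=
    Or.inr (by rw [P.ord_inv, hprod])
  refine (h5.mul h4).mono ?_
  -- the inequality
  have e1 : ∀ i, (e i : ℤ) * a i ≤ M * max 0 (a i - N) := by
    intro i
    have k1 : (e i : ℤ) ≤ M := by exact_mod_cast heM i
    have k2 : (e i : ℤ) * r i ≤ M * (r i - N) := by
      have k3 : ((e i * r i : ℕ) : ℤ) ≤ ((M * (r i - N) : ℕ) : ℤ) := by exact_mod_cast her i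
      rw [Nat.cast_mul, Nat.cast_mul, Nat.cast_sub (hr i)] at k3
      exact k3
    rcases har i with k3 | k3
    · rw [k3, mul_zero]
      exact mul_nonneg (Nat.cast_nonneg _) (le_max_left _ _)
    · have k4 : (M : ℤ) * (a i - N) ≤ M * max 0 (a i - N) :=
        mul_le_mul_of_nonneg_left (le_max_right _ _) (Nat.cast_nonneg _)
      have k5 : 0 ≤ ((M : ℤ) - e i) * (a i - r i) :=
        mul_nonneg (by omega) (by omega)
      nlinarith
  have e2 : T = ∑ i, max 0 (a i - N) := by
    rw [hT, ← Finset.sum_image (s := Finset.univ) (g := j) (f := fun i => max 0 (a i - (N : ℤ)))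
      fun x _ y _ h => hj h]
    apply Finset.sum_subset (Finset.subset_univ _)
    intro i _ hi
    have k1 : i ∉ I := by
      intro hiI
      obtain ⟨k, hk⟩ := hjI i hiI
      exact hi (Finset.mem_image.2 ⟨k, Finset.mem_univ _, hk⟩)
    have k2 : a i = 0 := by
      have k3 : ¬ 0 < a i := fun h => k1 (Finset.mem_filter.2 ⟨Finset.mem_univ _, h⟩)
      have := ha0 i
      omega
    rw [k2]
    apply max_eq_left
    omega
  have e3 : ∑ i, (e i : ℤ) * a i ≤ M * T := by
    rw [e2, Finset.mul_sum]
    exact Finset.sum_le_sum fun i _ => e1 i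
  have e4 : ∑ i, (e i : ℤ) * P.ord (mem u (L i)) =
      ∑ i, (e i : ℤ) * a i + (M * (N + 1) : ℤ) * m := by
    have k1 : ∀ i, (e i : ℤ) * P.ord (mem u (L i)) = (e i : ℤ) * a i + (e i : ℤ) * m := by
      intro i
      rw [ha]
      ring
    rw [Finset.sum_congr rfl fun i _ => k1 i, Finset.sum_add_distrib, ← Finset.sum_mul]
    congr 2
    have : ((∑ i, e i : ℕ) : ℤ) = ((M * (N + 1) : ℕ) : ℤ) := by rw [hes]
    push_cast at this
    exact this
  rw [e4]
  push_cast
  nlinarith

/-- **Linear systems with multiple members.** -/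
theorem wronskians_of_system (h : MultipleSystem K) : RegularWronskians K := by
  obtain ⟨N, u, q, L, r, hN, hu, hr, hdet, hP, hsum⟩ := h
  obtain ⟨M, e, hM, heM, her, hes⟩ := exists_num hN hr hsum
  have hq : N + 1 ≤ q := by
    have h1 : ∑ i, (1 - N / (r i : ℚ)) ≤ ∑ _i : Fin q, (1 : ℚ) :=
      Finset.sum_le_sum fun i _ => by
        have : (0 : ℚ) ≤ N / (r i : ℚ) := by positivity
        linarith
    rw [Finset.sum_const, Finset.card_univ, Fintype.card_fin, nsmul_eq_mul, mul_one] at h1
    have h2 : ((N + 1 : ℕ) : ℚ) ≤ q := by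
      push_cast
      linarith
    exact_mod_cast h2
  have hL : ∀ i, L i ≠ 0 := by
    intro i h0
    obtain ⟨j, hj, hji⟩ := exists_emb (N := N) {i} (by rw [Finset.card_singleton]; omega) hq
    obtain ⟨k, hk⟩ := hji i (Finset.mem_singleton_self i)
    apply hdet j hj
    apply Matrix.det_eq_zero_of_row_eq_zero k
    intro l
    rw [Matrix.of_apply, hk, h0]
    rfl
  refine ⟨M, (∏ i, mem u (L i) ^ e i)⁻¹, fun _ => ⟨N, u⟩, ⟨⟨0, hM⟩, hN⟩,
    inv_ne_zero (Finset.prod_ne_zero_iff.2 fun i _ => pow_ne_zero _ (mem_ne hu (hL i))),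
    fun _ => hu, fun P hPd D hD => ?_⟩
  rw [Finset.prod_const, Finset.card_univ, Fintype.card_fin]
  exact sys_local hu hq hdet (hP P hPd) hD hr heM her hes

theorem exists_min (hu : Indep u) (hq : N + 1 ≤ q)
    (hdet : ∀ j : Fin (N + 1) → Fin q, Function.Injective j →
      (Matrix.of fun k => L (j k)).det ≠ 0) (P : Place ℂ K) :
    (∀ i, pole P u ≤ P.ord (mem u (L i))) ∧ ∃ i, P.ord (mem u (L i)) = pole P u := by
  classical
  have hL : ∀ i, L i ≠ 0 := by
    intro i h0
    obtain ⟨j, hj, hji⟩ := exists_emb (N := N) {i} (by rw [Finset.card_singleton]; omega) hq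
    obtain ⟨k, hk⟩ := hji i (Finset.mem_singleton_self i)
    apply hdet j hj
    apply Matrix.det_eq_zero_of_row_eq_zero k
    intro l
    rw [Matrix.of_apply, hk, h0]
    rfl
  have hm0 : ∀ i, mem u (L i) ≠ 0 := fun i => mem_ne hu (hL i)
  have hvm : ∀ j, Ge P (pole P u) (vec u j) := fun j =>
    Or.inr (Finset.inf'_le (fun j => P.ord (vec u j)) (Finset.mem_univ j))
  have hord : ∀ i, pole P u ≤ P.ord (mem u (L i)) := fun i => by
    have h1 : Ge P (pole P u) (mem u (L i)) := Ge.sum _ _ fun j _ => by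
      have := (Ge.const (P := P) (L i j)).mul (hvm j)
      rwa [zero_add] at this
    exact h1.resolve_left (hm0 i)
  refine ⟨hord, ?_⟩
  by_contra hcon
  push Not at hcon
  obtain ⟨j0, -, hj0⟩ := Finset.exists_mem_eq_inf' (s := (Finset.univ : Finset (Fin (N + 1))))
    Finset.univ_nonempty (fun j => P.ord (vec u j))
  obtain ⟨j, hj, -⟩ := exists_emb (N := N) (q := q) ∅ (by rw [Finset.card_empty]; omega) hq
  have hdet' := hdet j hj
  set A : Matrix (Fin (N + 1)) (Fin (N + 1)) ℂ := Matrix.of fun k => L (j k) with hA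
  have h1 : Ge P (pole P u + 1) (vec u j0) := by
    rw [vec_comb A hdet' j0]
    refine Ge.sum _ _ fun k _ => ?_
    have h3 : Ge P (pole P u + 1) (mem u (A k)) := by
      right
      have h4 := hord (j k)
      have h5 := hcon (j k)
      change pole P u + 1 ≤ P.ord (mem u (L (j k)))
      omega
    have := (Ge.const (P := P) (A⁻¹ j0 k)).mul h3
    rwa [zero_add] at this
  have h2 := h1.resolve_left (vec_ne hu j0)
  have h3 : pole P u = P.ord (vec u j0) := hj0
  omega

/-- **Linear systems with many members which are powers.** -/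
theorem system_of_powers (h : PowerSystem K) : MultipleSystem K := by
  obtain ⟨N, u, q, d, L, w, hN, hd, hu, hw, hdet, hsum⟩ := h
  have hdQ : (0 : ℚ) < d := by exact_mod_cast hd
  have hNd : N ≤ d := by
    by_contra hcon
    push Not at hcon
    have h1 : (d : ℚ) < N := by exact_mod_cast hcon
    have h2 : (1 : ℚ) ≤ N / (d : ℚ) := by
      rw [le_div_iff₀ hdQ]
      linarith
    have h3 : (q : ℚ) * (1 - N / (d : ℚ)) ≤ 0 :=
      mul_nonpos_of_nonneg_of_nonpos (Nat.cast_nonneg _) (by linarith)
    have h4 : (0 : ℚ) ≤ N := Nat.cast_nonneg _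
    linarith
  have hq : N + 1 ≤ q := by
    have h1 : (q : ℚ) * (1 - N / (d : ℚ)) ≤ q := by
      have h2 : (0 : ℚ) ≤ N / (d : ℚ) := by positivity
      have h3 : (0 : ℚ) ≤ q := Nat.cast_nonneg _
      nlinarith
    have h2 : ((N + 1 : ℕ) : ℚ) ≤ q := by
      push_cast
      linarith
    exact_mod_cast h2
  refine ⟨N, u, q, L, fun _ => d, hN, hu, fun _ => hNd, hdet, fun P _ i => ?_, ?_⟩
  · obtain ⟨h1, i0, h2⟩ := exists_min hu hq hdet P
    have h3 := h1 i
    rw [hw i0, P.ord_pow] at h2
    rw [hw i, P.ord_pow] at h3 ⊢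
    have hdZ : (0 : ℤ) < d := by exact_mod_cast hd
    rw [← h2] at h3 ⊢
    have h4 : P.ord (w i0) ≤ P.ord (w i) := le_of_mul_le_mul_left h3 hdZ
    rcases h4.eq_or_lt with h5 | h5
    · left
      rw [h5]
    · right
      have h6 : P.ord (w i0) + 1 ≤ P.ord (w i) := h5
      nlinarith
  · rw [Finset.sum_const, Finset.card_univ, Fintype.card_fin, nsmul_eq_mul]
    exact hsum

/-- powers with one relation -/
theorem powers_of_relation {N d : ℕ} {w : Fin (N + 2) → K} (hN : 0 < N) (hd : N * (N + 2) ≤ d)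
    (hsum : ∑ i, w i ^ d = 0)
    (hli : LinearIndependent ℂ fun i : Fin (N + 1) => w i.castSucc ^ d) : PowerSystem K := by
  classical
  have hd0 : 0 < d := lt_of_lt_of_le (Nat.mul_pos hN (by omega)) hd
  have hw0 : w 0 ≠ 0 := by
    intro h0
    have h1 := hli.ne_zero 0
    apply h1
    change w 0 ^ d = 0
    rw [h0, zero_pow hd0.ne']
  set u : Fin N → K := fun j => (w j.succ.castSucc / w 0) ^ d with hu
  have hvec : ∀ j : Fin (N + 1), vec u j = (w j.castSucc / w 0) ^ d := by
    intro j
    refine Fin.cases ?_ (fun j => ?_) j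
    · change 1 = (w 0 / w 0) ^ d
      rw [div_self hw0, one_pow]
    · rfl
  obtain ⟨ζ, hζ⟩ : ∃ ζ : ℂ, ζ ^ d = -1 := IsAlgClosed.exists_pow_nat_eq (-1 : ℂ) hd0
  set L : Fin (N + 2) → Fin (N + 1) → ℂ := fun i j =>
    if i = Fin.last (N + 1) then 1 else if i = j.castSucc then 1 else 0 with hL
  set W : Fin (N + 2) → K := fun i =>
    if i = Fin.last (N + 1) then algebraMap ℂ K ζ * (w i / w 0) else w i / w 0 with hW
  refine ⟨N, u, N + 2, d, L, W, hN, hd0, ?_, ?_, ?_, ?_⟩
  · -- independence
    intro c e h0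
    have h1 := Fintype.linearIndependent_iff.1 hli (Fin.cons (-e) c) (by
      rw [Fin.sum_univ_succ]
      have h2 : ∀ j : Fin N, (Fin.cons (-e) c : Fin (N + 1) → ℂ) j.succ = c j := fun j => rfl
      have h3 : (Fin.cons (-e) c : Fin (N + 1) → ℂ) 0 = -e := rfl
      simp only [h2, h3, Algebra.smul_def, map_neg]
      rw [← h0]
      have h4 : ∀ j : Fin N, w j.succ.castSucc ^ d = u j * w 0 ^ d := by
        intro j
        rw [hu]
        simp only
        rw [div_pow, div_mul_cancel₀ _ (pow_ne_zero _ hw0)]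
      simp only [h4]
      change -(∑ j, algebraMap ℂ K (c j) * u j) * w 0 ^ d + _ = 0
      rw [neg_mul, Finset.sum_mul]
      have h5 : ∑ i, algebraMap ℂ K (c i) * (u i * w 0 ^ d) =
          ∑ i, algebraMap ℂ K (c i) * u i * w 0 ^ d :=
        Finset.sum_congr rfl fun i _ => by ring
      rw [h5, neg_add_cancel])
    funext j
    exact h1 j.succ
  · -- the powers
    intro i
    unfold mem
    simp only [hvec]
    by_cases hi : i = Fin.last (N + 1)
    · subst hi
      simp only [hL, hW, if_pos, map_one, one_mul]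
      rw [Fin.sum_univ_castSucc] at hsum
      rw [mul_pow, ← map_pow, hζ, map_neg, map_one, div_pow]
      have h1 : ∑ j : Fin (N + 1), (w j.castSucc / w 0) ^ d =
          (∑ j : Fin (N + 1), w j.castSucc ^ d) / w 0 ^ d := by
        rw [Finset.sum_div]
        exact Finset.sum_congr rfl fun j _ => div_pow _ _ _
      rw [h1, eq_neg_of_add_eq_zero_left hsum]
      ring
    · obtain ⟨j0, rfl⟩ : ∃ j0 : Fin (N + 1), j0.castSucc = i :=
        ⟨i.castPred hi, Fin.castSucc_castPred i hi⟩
      have h1 : ∀ j : Fin (N + 1), L j0.castSucc j = if j = j0 then 1 else 0 := by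
        intro j
        simp only [hL]
        rw [if_neg hi]
        by_cases h2 : j = j0
        · rw [if_pos (by rw [h2]), if_pos h2]
        · rw [if_neg (fun h => h2 (Fin.castSucc_injective _ h).symm), if_neg h2]
      simp only [h1]
      rw [Finset.sum_eq_single j0]
      · rw [if_pos rfl, map_one, one_mul]
        simp only [hW]
        rw [if_neg hi]
      · intro j _ hj
        rw [if_neg hj, map_zero, zero_mul]
      · intro h
        exact absurd (Finset.mem_univ j0) h
  · -- general position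
    intro j hj hdet
    obtain ⟨v, hv0, hv⟩ := Matrix.exists_mulVec_eq_zero_iff.2 hdet
    have hrow : ∀ k, ∑ l, L (j k) l * v l = 0 := fun k => congrFun hv k
    have hmiss : ∀ a b : Fin (N + 2), a ≠ b → (∀ k, j k ≠ a) → (∀ k, j k ≠ b) → False := by
      intro a b hab ha hb
      have h1 : Finset.univ.image j ⊆ (Finset.univ.erase a).erase b := by
        intro x hx
        obtain ⟨k, -, rfl⟩ := Finset.mem_image.1 hx
        exact Finset.mem_erase.2 ⟨hb k, Finset.mem_erase.2 ⟨ha k, Finset.mem_univ _⟩⟩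
      have h2 := Finset.card_le_card h1
      rw [Finset.card_image_of_injective _ hj, Finset.card_univ, Fintype.card_fin,
        Finset.card_erase_of_mem (Finset.mem_erase.2 ⟨hab.symm, Finset.mem_univ _⟩),
        Finset.card_erase_of_mem (Finset.mem_univ _), Finset.card_univ, Fintype.card_fin] at h2
      omega
    have hhit : ∀ l : Fin (N + 1), (∃ k, j k = l.castSucc) → v l = 0 := by
      rintro l ⟨k, hk⟩
      have h1 := hrow k
      rw [hk, Finset.sum_eq_single l] at h1
      · have h2 : L l.castSucc l = 1 := by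
          simp only [hL]
          rw [if_neg (Fin.castSucc_lt_last l).ne]
          exact if_pos trivial
        rwa [h2, one_mul] at h1
      · intro l' _ hl'
        have h2 : L l.castSucc l' = 0 := by
          simp only [hL]
          rw [if_neg (Fin.castSucc_lt_last l).ne,
            if_neg fun h => hl' (Fin.castSucc_injective _ h).symm]
        rw [h2, zero_mul]
      · intro h
        exact absurd (Finset.mem_univ l) h
    obtain ⟨l, hl⟩ : ∃ l, v l ≠ 0 := by
      by_contra hcon
      push Not at hcon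
      exact hv0 (funext hcon)
    have hl' : ∀ k, j k ≠ l.castSucc := fun k hk => hl (hhit l ⟨k, hk⟩)
    have hother : ∀ l', l' ≠ l → v l' = 0 := by
      intro l' hne
      apply hhit
      by_contra hcon
      push Not at hcon
      exact hmiss _ _ (fun h => hne (Fin.castSucc_injective _ h).symm) hl' hcon
    obtain ⟨k, hk⟩ : ∃ k, j k = Fin.last (N + 1) := by
      by_contra hcon
      push Not at hcon
      exact hmiss _ _ (Fin.castSucc_lt_last l).ne hl' hcon
    have h1 := hrow k
    rw [hk, Finset.sum_eq_single l] at h1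
    · have h2 : L (Fin.last (N + 1)) l = 1 := if_pos rfl
      rw [h2, one_mul] at h1
      exact hl h1
    · intro l' _ hl2
      rw [hother l' hl2, mul_zero]
    · intro h
      exact absurd (Finset.mem_univ l) h
  · -- the numbers
    have hdQ : (0 : ℚ) < d := by exact_mod_cast hd0
    have h1 : ((N * (N + 2) : ℕ) : ℚ) ≤ d := by exact_mod_cast hd
    push_cast at h1 ⊢
    have h2 : ((N : ℚ) + 2) * (N / d) ≤ 1 := by
      rw [← mul_div_assoc, div_le_one hdQ]
      linarith
    nlinarith

/-- **Surfaces in Fermat hypersurfaces.** -/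
theorem powers_of_fermat (h : FermatSystem K) : PowerSystem K := by
  classical
  obtain ⟨N, d, w, hN, hd, hsum, hw⟩ := h
  have hd0 : 0 < d := lt_of_lt_of_le (Nat.mul_pos hN (by omega)) hd
  have hw0 : ∀ i, w i ≠ 0 := by
    intro i h0
    obtain ⟨j, hj⟩ : ∃ j, j ≠ i := exists_ne i
    have := (hw i j hj.symm 1 0 (by rw [h0]; simp)).1
    exact one_ne_zero this
  -- a relation with minimal support
  have hex : ∃ m, ∃ c : Fin (N + 2) → ℂ, c ≠ 0 ∧ ∑ i, algebraMap ℂ K (c i) * w i ^ d = 0 ∧
      (Finset.univ.filter fun i => c i ≠ 0).card = m :=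
    ⟨_, fun _ => 1, fun h => one_ne_zero (congrFun h 0), by simpa using hsum, rfl⟩
  set m := Nat.find hex with hm
  obtain ⟨c, hc0, hc, hcm⟩ := Nat.find_spec hex
  have hmin : ∀ c' : Fin (N + 2) → ℂ, ∑ i, algebraMap ℂ K (c' i) * w i ^ d = 0 →
      (Finset.univ.filter fun i => c' i ≠ 0).card < m → c' = 0 := by
    intro c' h1 h2
    by_contra h3
    exact Nat.find_min hex h2 ⟨c', h3, h1, rfl⟩
  set I := Finset.univ.filter fun i => c i ≠ 0 with hI
  have hmI : I.card = m := hcm
  have hcI : ∀ i, i ∉ I → c i = 0 := by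
    intro i hi
    by_contra h
    exact hi (Finset.mem_filter.2 ⟨Finset.mem_univ _, h⟩)
  have hcI' : ∀ i ∈ I, c i ≠ 0 := fun i hi => (Finset.mem_filter.1 hi).2
  have hsumI : ∑ i ∈ I, algebraMap ℂ K (c i) * w i ^ d = 0 := by
    rw [← hc]
    apply Finset.sum_subset (Finset.subset_univ _)
    intro i _ hi
    rw [hcI i hi, map_zero, zero_mul]
  -- the support has at least three elements
  have h3 : 3 ≤ m := by
    by_contra hcon
    push Not at hcon
    rw [← hmI] at hcon
    have hne : I.Nonempty := by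
      obtain ⟨i, hi⟩ : ∃ i, c i ≠ 0 := by
        by_contra h
        push Not at h
        exact hc0 (funext h)
      exact ⟨i, Finset.mem_filter.2 ⟨Finset.mem_univ _, hi⟩⟩
    have hpos := hne.card_pos
    have h12 : I.card = 1 ∨ I.card = 2 := by omega
    rcases h12 with h1 | h2
    · obtain ⟨i, hi⟩ := Finset.card_eq_one.1 h1
      rw [hi, Finset.sum_singleton] at hsumI
      have hci := hcI' i (by rw [hi]; exact Finset.mem_singleton_self i)
      rcases mul_eq_zero.1 hsumI with h4 | h4
      · exact hci ((map_eq_zero _).1 h4)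
      · exact hw0 i (pow_eq_zero_iff hd0.ne' |>.1 h4)
    · obtain ⟨i, j, hij, hi⟩ := Finset.card_eq_two.1 h2
      rw [hi, Finset.sum_pair hij] at hsumI
      have hci := hcI' i (by rw [hi]; simp)
      have hcj := hcI' j (by rw [hi]; simp)
      have hci' : algebraMap ℂ K (c i) ≠ 0 := (map_ne_zero _).2 hci
      have hwj := hw0 j
      have h4 : (w i / w j) ^ d = algebraMap ℂ K (-(c j) / c i) := by
        rw [map_div₀, map_neg, div_pow, div_eq_div_iff (pow_ne_zero _ hwj) hci']
        linear_combination hsumI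
      have h5 : IsAlgebraic ℂ (w i / w j) := by
        refine ⟨Polynomial.X ^ d - Polynomial.C (-(c j) / c i), ?_, ?_⟩
        · exact Polynomial.X_pow_sub_C_ne_zero hd0 _
        · rw [map_sub, map_pow, Polynomial.aeval_X, Polynomial.aeval_C, h4, sub_self]
      obtain ⟨γ, hγ⟩ : ∃ γ : ℂ, w i / w j = algebraMap ℂ K γ := by
        have h6 : Polynomial.aeval (w i / w j) (minpoly ℂ (w i / w j)) = 0 := minpoly.aeval _ _
        have h7 : (minpoly ℂ (w i / w j)).degree = 1 :=
          IsAlgClosed.degree_eq_one_of_irreducible ℂ (minpoly.irreducible h5.isIntegral)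
        obtain ⟨γ, hγ⟩ := minpoly.mem_range_of_degree_eq_one ℂ (w i / w j) h7
        exact ⟨γ, hγ.symm⟩
      have h6 := (hw i j hij 1 (-γ) (by
        rw [map_one, one_mul, map_neg, ← hγ, neg_mul, div_mul_cancel₀ _ hwj, add_neg_cancel])).1
      exact one_ne_zero h6
  have hle : m ≤ N + 2 := by
    rw [← hmI]
    have := Finset.card_le_univ I
    rwa [Fintype.card_fin] at this
  obtain ⟨N', hN'⟩ : ∃ N', m = N' + 2 := ⟨m - 2, by omega⟩
  have hIN : I.card = N' + 2 := by rw [hmI, hN']
  set e := I.orderEmbOfFin hIN with he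
  have heI : ∀ k, e k ∈ I := fun k => Finset.orderEmbOfFin_mem I hIN k
  have hγ : ∀ k, ∃ γ : ℂ, γ ^ d = c (e k) := fun k => IsAlgClosed.exists_pow_nat_eq _ hd0
  choose γ hγ using hγ
  have hpow : ∀ k, (algebraMap ℂ K (γ k) * w (e k)) ^ d =
      algebraMap ℂ K (c (e k)) * w (e k) ^ d := by
    intro k
    rw [mul_pow, ← map_pow, hγ]
  have himg : Finset.univ.image e = I := by
    apply Finset.eq_of_subset_of_card_le
    · intro i hi
      obtain ⟨k, -, rfl⟩ := Finset.mem_image.1 hi
      exact heI k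
    · rw [Finset.card_image_of_injective _ e.injective, Finset.card_univ, Fintype.card_fin, hIN]
  refine powers_of_relation (N := N') (d := d)
    (w := fun k => algebraMap ℂ K (γ k) * w (e k)) (by omega) ?_ ?_ ?_
  · refine le_trans ?_ hd
    exact Nat.mul_le_mul (by omega) (by omega)
  · simp only [hpow]
    rw [← hsumI, ← himg, Finset.sum_image fun x _ y _ h => e.injective h]
  · rw [Fintype.linearIndependent_iff]
    intro g hg k0
    simp only [hpow, Algebra.smul_def] at hg
    set c' : Fin (N + 2) → ℂ := fun i =>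
      ∑ k : Fin (N' + 1), if e k.castSucc = i then g k * c i else 0 with hc'
    have h4 : ∑ i, algebraMap ℂ K (c' i) * w i ^ d = 0 := by
      rw [← hg]
      have h5 : ∀ i, algebraMap ℂ K (c' i) * w i ^ d = ∑ k : Fin (N' + 1),
          if e k.castSucc = i then algebraMap ℂ K (g k * c i) * w i ^ d else 0 := by
        intro i
        rw [hc']
        simp only
        rw [map_sum, Finset.sum_mul]
        refine Finset.sum_congr rfl fun k _ => ?_
        split_ifs
        · rfl
        · rw [map_zero, zero_mul]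
      rw [Finset.sum_congr rfl fun i _ => h5 i, Finset.sum_comm]
      refine Finset.sum_congr rfl fun k _ => ?_
      rw [Finset.sum_ite_eq, if_pos (Finset.mem_univ _), map_mul]
      ring
    have h5 : (Finset.univ.filter fun i => c' i ≠ 0).card < m := by
      rw [← hmI]
      apply Finset.card_lt_card
      refine ⟨fun i hi => ?_, fun hsub => ?_⟩
      · by_contra hiI
        apply (Finset.mem_filter.1 hi).2
        rw [hc']
        simp only
        apply Finset.sum_eq_zero
        intro k _
        rw [hcI i hiI, mul_zero]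
        split_ifs <;> rfl
      · have h6 := (Finset.mem_filter.1 (hsub (heI (Fin.last (N' + 1))))).2
        apply h6
        rw [hc']
        simp only
        apply Finset.sum_eq_zero
        intro k _
        rw [if_neg]
        intro h
        exact (Fin.castSucc_lt_last k).ne (e.injective h)
    have h6 := congrFun (hmin c' h4 h5) (e k0.castSucc)
    rw [hc'] at h6
    simp only [Pi.zero_apply] at h6
    rw [Finset.sum_eq_single k0] at h6
    · rw [if_pos rfl] at h6
      exact (mul_eq_zero.1 h6).resolve_right (hcI' _ (heI _))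
    · intro k _ hk
      rw [if_neg]
      intro h
      exact hk (Fin.castSucc_injective _ (e.injective h))
    · intro h
      exact absurd (Finset.mem_univ k0) h

end loc

end Pool.Agent.L7h90.JG
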