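import Pool.Agent.L7h90.JG.Bnd
import Pool.Agent.L7h90.JG.Cls
import Pool.Agent.L7h90.GL.Web

/-! Entire curves of bounded derivative and regular invariant differential expressions. -/

set_option autoImplicit false

open Filter Topology Set Metric MvPolynomial FF LinearAlgebra.Projectivization

namespace Pool.Agent.L7h90.JG

open Pool.Agent.Y190.OP Pool.Agent.W602.GT Pool.Agent.L7h90.WR
open Pool.Agent.N155 (Cv TX TX_PM isCompact_TX nc_of_fderiv ev good isOpen_good nz Frac ValAt frAt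
  frAt_good ev_of_valAt MK cl_eq_zero eq_of_codis)
open Pool.Agent.N154.GG (SmoothVariety HolMap holP_of holMap_of projDist toProj toProj_Phi
  Phi_rep_mk Phi_rep_toProj proj_ext)
open Pool.Agent.N154.TB
open Pool.Agent.L7h90.GL
open scoped LinearAlgebra.Projectivization

variable {n : ℕ} {ι : Type} {F : ι → MvPolynomial (Fin (n + 1)) ℂ} {K : Type} [Field K]
  [Algebra ℂ K] {y : Fin (n + 1) → K}

theorem gv_aff (R : ∀ h : K, Frac y h) (τ : Ex K) (φ : ℂ → Mat (n + 1)) {ρ : ℝ}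
    (hρ : (ρ : ℂ) ≠ 0) (z : ℂ) :
    gv R τ 0 (fun w => φ (aff 0 ρ w)) z = gv R τ 0 φ (aff 0 ρ z) :=
  fV_aff τ.S (fun s w => ev R (τ.h s) (φ w)) (fun w => ev R τ.x (φ w))
    (fun w => ev R τ.y (φ w)) hρ τ.k 0 z

theorem dx_aff (R : ∀ h : K, Frac y h) (x : K) (φ : ℂ → Mat (n + 1)) (ρ : ℝ) (z : ℂ) :
    deriv (fun w => ev R x (φ (aff 0 ρ w))) z = ρ * deriv (fun w => ev R x (φ w)) (aff 0 ρ z) :=
  congrFun (deriv_aff (fun w => ev R x (φ w)) ρ) z

/-- **Regular invariant differential expressions vanish on Brody curves.** -/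
theorem gd_all (hX : SmoothVariety F 2 y) (hgt : GeneralType ℂ K 2) {S : Set (Mat (n + 1))}
    (hSc : IsClosed S) (hST : S ⊆ TX y)
    (hnd : ∀ ψ : ℂ → Mat (n + 1), HolP univ ψ → (∀ z, ψ z ∈ S) → (∃ z, ψ z ≠ ψ 0) → Cv y ψ)
    {φ : ℂ → Mat (n + 1)} (hφ : HolP univ φ) (hS : ∀ z, φ z ∈ S) {B : ℝ}
    (hB : ∀ z, ‖fderiv ℝ φ z‖ ≤ B) (hnc : ∃ z, φ z ≠ φ 0) (R : ∀ h : K, Frac y h) {σ : Jet K}
    (hm : 0 < σ.m) (hreg : σ.Regular 2) (hcv0 : Cv y φ) : kc R hcv0 σ.p = 0 := by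
  have hLB : ∀ M ∈ TX y, LBa R M := fun M hM => lba_of_graph hX.sub hX.form hX.irred
    (fun x hx => graph_two (hX.smooth x hx)) R hM
  obtain ⟨-, N, hN', ω, hω, hregω, D, hD0, hDi⟩ := hgt
  have hB0 : 0 ≤ B := (norm_nonneg _).trans (hB 0)
  set ρ : ℝ := 2 / (B + 1) with hρ
  have hρ0 : 0 < ρ := by positivity
  have hρC : (ρ : ℂ) ≠ 0 := by exact_mod_cast hρ0.ne'
  have haff : ∀ z : ℂ, aff 0 ρ (z / ρ) = z := by
    intro z
    unfold aff
    field_simp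
    simp
  have haff0 : aff 0 ρ 0 = 0 := by
    unfold aff
    simp
  set ψ : ℂ → Mat (n + 1) := fun z => φ (aff 0 ρ z) with hψ
  have hψh : HolP univ ψ := by
    have := hφ.aff 0 ρ
    rwa [preimage_univ] at this
  have hψS : ∀ z, ψ z ∈ S := fun z => hS _
  have hψB : ∀ z, ‖fderiv ℝ ψ z‖ ≤ 2 := by
    intro z
    rw [hψ, norm_fderiv_aff hρ0.le (hφ.differentiableAt (mem_univ _))]
    have h1 := hB (aff 0 ρ z)
    rw [hρ, div_mul_eq_mul_div, div_le_iff₀ (by positivity)]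
    linarith
  have hψn : ∃ z, ψ z ≠ ψ 0 := by
    obtain ⟨z, hz⟩ := hnc
    refine ⟨z / ρ, ?_⟩
    change φ (aff 0 ρ (z / ρ)) ≠ φ (aff 0 ρ 0)
    rwa [haff, haff0]
  have hcv : Cv y ψ := hnd ψ hψh hψS hψn
  obtain ⟨i, j, k, E, -, -, hdual, -⟩ := hLB (ψ 0) (hST (hψS 0))
  obtain ⟨C, hC, hex⟩ := gexists_const R hLB hreg
  obtain ⟨c, hkc, hlow⟩ := hex ψ hcv hψB
  have hseq := geq_of_kc R hcv hdual hkc
  by_cases hc : c = 0
  · subst hc
    have hmer : Meromorphic fun z => deriv (fun w => ev R (σ.ex hdual).x (φ w)) z ^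
        (σ.ex hdual).n * gv R (σ.ex hdual) 0 φ z := fun z =>
      (((hcv0.mero R _).deriv z).pow _).mul (gv_mero R hcv0 _ _ z)
    rw [kc_ex R hcv0 σ hdual hmer, cl_eq_zero]
    filter_upwards [gg_codis R hcv0 (σ.ex hdual)] with z hz
    have hz' : gg R (σ.ex hdual) ψ (z / ρ) := by
      refine ⟨?_, ?_⟩
      · change ((∀ s ∈ (σ.ex hdual).S, good R ((σ.ex hdual).h s) (φ (aff 0 ρ (z / ρ)))) ∧
          good R (σ.ex hdual).x (φ (aff 0 ρ (z / ρ))) ∧
          good R (σ.ex hdual).y (φ (aff 0 ρ (z / ρ))))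
        rw [haff]
        exact hz.1
      · rw [hψ, dx_aff, haff]
        exact mul_ne_zero hρC hz.2
    have h2 := hseq (z / ρ) hz'
    rw [hψ, gv_aff R _ _ hρC, dx_aff, haff, mul_pow, mul_assoc] at h2
    exact (mul_eq_zero.1 h2).resolve_left (pow_ne_zero _ hρC)
  · exfalso
    have hcpos : 0 < ‖c‖ := norm_pos_iff.2 hc
    set c0 : ℝ := ‖c‖ / (C + 1) with hc0def
    have hc0 : 0 < c0 := by positivity
    have hlow' : ∀ z, c0 ≤ ‖fderiv ℝ ψ z‖ := by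
      intro z
      rw [hc0def, div_le_iff₀ (by positivity)]
      have h3 := hlow z
      have h4 := norm_nonneg (fderiv ℝ ψ z)
      nlinarith
    refine KG.empty hc0 hSc hnd hLB hc ⟨_, _, hdual⟩ ⟨N, ω 0, ω 1, D, hN', hω 0, hω 1,
      fun v hv => hregω v hv 0, fun v hv => hregω v hv 1, hD0, hDi.transcendental 0⟩
      _ (σ.ex hdual) rfl hm ψ ?_
    exact ⟨hψh, fun z => hST (hψS z), hψS, hψB, hlow', hseq, fun s h1 h2 => by omega⟩

/-- the differential equation in affine terms -/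
theorem solves_of_kc {f : ℂ → ℙ ℂ (Fin (n + 1) → ℂ)} (hirr : Cone F ⊆ VarPts ℂ y)
    (hgen : coords ℂ y = ⊤) (hf : HolMap f)
    (hfX : ∀ z, (f z).rep ∈ Cone F) {σ : Jet K} (hcv : Cv y fun z => Phi (f z).rep)
    (h : ∀ R : ∀ h : K, Frac y h, kc R hcv σ.p = 0) : σ.Solves y f := by
  intro V H Φ hV hH hΦ z0 hz0
  set φ : ℂ → Mat (n + 1) := fun z => Phi (f z).rep with hφ
  have hol : HolP univ φ := holP_of hf
  have hcont : Continuous φ := continuous_iff_continuousAt.2 fun _ => hol.continuousAt (mem_univ _)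
  have hne : ∀ z, (f z).rep ≠ 0 := fun z => (f z).rep_nonzero
  set R : ∀ h : K, Frac y h := frAt hgen (f z0).rep with hR
  have hg1 : ∀ s ∈ σ.p.support, good R (σ.p.coeff s) (φ z0) := fun s hs =>
    frAt_good _ (hne z0) (hH z0 hz0 s hs)
  have hg2 : ∀ s ∈ σ.p.support, ∀ i ∈ s.support, good R i.1 (φ z0) := fun s hs i hi =>
    frAt_good _ (hne z0) (hΦ z0 hz0 s hs i hi)
  have h1 : ∀ s ∈ σ.p.support, H s z0 = ev R (σ.p.coeff s) (φ z0) := fun s hs =>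
    ev_of_valAt R (hirr (hfX z0)) (hH z0 hz0 s hs) (hg1 s hs)
  have e1 : ∀ s ∈ σ.p.support, ∀ i ∈ s.support, Φ i.1 =ᶠ[𝓝 z0] fun w => ev R i.1 (φ w) := by
    intro s hs i hi
    filter_upwards [hV.mem_nhds hz0,
      ((isOpen_good R i.1).preimage hcont).mem_nhds (hg2 s hs i hi)] with w hw hw'
    exact ev_of_valAt R (hirr (hfX w)) (hΦ w hw s hs i hi) hw'
  have h2 := h R
  rw [kc_pv, cl_eq_zero] at h2
  have han : AnalyticAt ℂ (pv R σ.p φ) z0 := by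
    unfold pv mv
    refine Finset.analyticAt_fun_sum _ fun s hs => (hcv.an R (hg1 s hs)).mul
      (Finset.analyticAt_fun_prod _ fun i hi => AnalyticAt.pow ?_ _)
    have h3 := (hcv.an R (hg2 s hs i hi)).iterated_deriv (i.2 + 1)
    rw [← iteratedDeriv_eq_iterate] at h3
    exact h3
  have h3 : pv R σ.p φ z0 = 0 :=
    eq_of_codis h2 han.continuousAt continuousAt_const
  rw [← h3]
  unfold pv mv
  refine Finset.sum_congr rfl fun s hs => ?_
  rw [h1 s hs]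
  congr 1
  refine Finset.prod_congr rfl fun i hi => ?_
  rw [(e1 s hs i hi).iteratedDeriv_eq]

variable {V : Set (ℙ ℂ (Fin (n + 1) → ℂ))}

/-- **Brody curves in closed subsets of surfaces of general type.** -/
theorem gd_curves (hX : SmoothVariety F 2 y) (hgt : GeneralType ℂ K 2)
    (hVX : ∀ p ∈ V, p.rep ∈ Cone F) (hVc : IsClosedProj V)
    (hdeg : ∀ g : ℂ → ℙ ℂ (Fin (n + 1) → ℂ), CurveIn (Cone F) g → ¬ IsConst g → (∀ z, g z ∈ V) →
      Nondeg y g) {g : ℂ → ℙ ℂ (Fin (n + 1) → ℂ)} (hg : CurveIn (Cone F) g) (hne : ¬ IsConst g)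
    (hgV : ∀ z, g z ∈ V) (hgB : IsBrody g) :
    ∃ hcv : Cv y (fun z => Phi (g z).rep),
      (∀ (R : ∀ h : K, Frac y h) (σ : Jet K), 0 < σ.m → σ.Regular 2 → kc R hcv σ.p = 0) ∧
      ∀ σ : Jet K, 0 < σ.m → σ.Regular 2 → σ.Solves y g := by
  have hnd : ∀ ψ : ℂ → Mat (n + 1), HolP univ ψ → (∀ z, ψ z ∈ TV V) → (∃ z, ψ z ≠ ψ 0) →
      Cv y ψ := by
    intro ψ h1 h2 h3
    obtain ⟨h4, h5, h6⟩ := curve_of hX hVX h1 h2
    refine ⟨h1, fun z => TV_sub hX hVX (h2 z), fun G hG hGy => ?_⟩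
    have h7 := hdeg _ h6 (nc_iff.2 (by
      obtain ⟨z, hz⟩ := h3
      refine ⟨z, ?_⟩
      rw [congrFun h4 z, congrFun h4 0]
      exact hz)) h5
    by_contra hcon
    push Not at hcon
    refine hGy (h7 G hG fun z => ?_)
    by_contra h0
    apply hcon z
    rw [← congrFun h4 z]
    exact (nz_rep hG _).2 h0
  have hol := holP_of hg.1
  have hST : ∀ z, Phi (g z).rep ∈ TV V := fun z => ⟨_, hgV z, rfl⟩
  have hnc := nc_iff.1 hne
  obtain ⟨C, hC⟩ := hgB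
  have hB : ∀ z, ‖fderiv ℝ (fun z => Phi (g z).rep) z‖ ≤ (Real.toNNReal C : ℝ) := fun z =>
    norm_fderiv_le_of_lipschitz ℝ (LipschitzWith.of_dist_le_mul fun z w => by
      rw [dist_eq_norm, dist_eq_norm]
      exact (hC z w).trans (mul_le_mul_of_nonneg_right (Real.le_coe_toNNReal C) (norm_nonneg _)))
  have hcv : Cv y (fun z => Phi (g z).rep) := hnd _ hol hST hnc
  have hseq : ∀ (R : ∀ h : K, Frac y h) (σ : Jet K), 0 < σ.m → σ.Regular 2 →
      kc R hcv σ.p = 0 := fun R σ hd hreg =>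
    gd_all hX hgt (TV_closed hX hVX hVc) (TV_sub hX hVX) hnd hol hST hB hnc R hd hreg hcv
  exact ⟨hcv, hseq, fun σ hd hreg => solves_of_kc hX.irred hX.sub.gen hg.1 hg.2 hcv
    fun R => hseq R σ hd hreg⟩

end Pool.Agent.L7h90.JG
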