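import Pool.Agent.L7h90.JG.Pair

/-! The derivatives of a function with respect to another one, and polynomials in them. -/

set_option autoImplicit false
set_option linter.unusedSectionVars false
set_option linter.unusedVariables false

open Filter Topology Set Metric

namespace Pool.Agent.L7h90.JG

open Pool.Agent.L7h90.WR (at_z)

/-- the derivatives of the second function with respect to the first one -/
noncomputable def fY (X Y : ℂ → ℂ) : ℕ → ℂ → ℂ
  | 0 => Y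
  | j + 1 => fun x => deriv (fY X Y j) x / deriv X x

/-- the lower part of a monomial -/
noncomputable def fM (X Y : ℂ → ℂ) (k : ℕ) (s : ℕ →₀ ℕ) (x : ℂ) : ℂ :=
  ∏ j ∈ Finset.range k, fY X Y (j + 1) x ^ s j

/-- a term of a polynomial in the derivatives of order at most `k + 1`, differentiated `t` times
with respect to the derivative of order `k + 1` -/
noncomputable def fT (h : ℂ → ℂ) (s : ℕ →₀ ℕ) (X Y : ℂ → ℂ) (k t : ℕ) (x : ℂ) : ℂ :=
  ((s k).descFactorial t : ℂ) * h x * fM X Y k s x * fY X Y (k + 1) x ^ (s k - t)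

/-- a polynomial in the derivatives of order at most `k + 1`, differentiated `t` times with respect
to the derivative of order `k + 1` -/
noncomputable def fV (S : Finset (ℕ →₀ ℕ)) (H : (ℕ →₀ ℕ) → ℂ → ℂ) (X Y : ℂ → ℂ) (k t : ℕ)
    (x : ℂ) : ℂ := ∑ s ∈ S, fT (H s) s X Y k t x

section

variable {l : Filter ℕ} [l.NeBot] {z : ℂ} {a : ℕ → ℂ} {M N : (ℕ → ℂ → ℂ) → Prop}
  {w t : ℕ → ℂ → ℂ} {X X' Y Y' : ℕ → ℂ → ℂ} {ξ η τ : ℂ → ℂ}

/-- the data -/
structure Dta (l : Filter ℕ) (z : ℂ) (a : ℕ → ℂ) (M N : (ℕ → ℂ → ℂ) → Prop)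
    (w t X X' : ℕ → ℂ → ℂ) (ξ τ : ℂ → ℂ) : Prop where
  c : Cal l z a M N
  hw : ∀ m x, HasDerivAt (w m) (a m * w m x) x
  ht : CH l z t τ
  hX : Ad l z w M N X X' ξ
  hξ : deriv ξ z ≠ 0
  hX0 : ∀ᶠ p : ℕ × ℂ in l ×ˢ 𝓝 z, Er w t X X' p.1 p.2 = 0

theorem Dta.ad_Y (d : Dta l z a M N w t X X' ξ τ) (hY : Ad l z w M N Y Y' η) (j : ℕ) :
    Ad l z w M N (fun m => fY (X m) (Y m) j) (fun m => fY (X' m) (Y' m) j) (fY ξ η j) := by
  induction j with
  | zero => exact hY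
  | succ j ih => exact d.hX.qd d.c d.hw d.hξ ih

theorem Dta.er_Y (d : Dta l z a M N w t X X' ξ τ) (hY : Ad l z w M N Y Y' η) (j : ℕ) :
    N (fun m x => Er w t (fun m => fY (X m) (Y m) (j + 1)) (fun m => fY (X' m) (Y' m) (j + 1)) m x -
      (deriv (Er w t (fun m => fY (X m) (Y m) j) (fun m => fY (X' m) (Y' m) j) m) x -
        a m * Er w t (fun m => fY (X m) (Y m) j) (fun m => fY (X' m) (Y' m) j) m x) *
        (deriv (X m) x)⁻¹) :=
  JG.er_qd d.c d.hw d.ht d.hX d.hξ d.hX0 (d.ad_Y hY j)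

/-- the equation `X' ^ n * V = e` -/
theorem Dta.main (d : Dta l z a M N w t X X' ξ τ) {V V' : ℕ → ℂ → ℂ} {v : ℂ → ℂ}
    (hV : Ad l z w M N V V' v) {n : ℕ} {e : ℂ}
    (hP : ∀ᶠ p : ℕ × ℂ in l ×ˢ 𝓝 z, deriv (X p.1) p.2 ^ n * V p.1 p.2 = e)
    (hQ : ∀ᶠ p : ℕ × ℂ in l ×ˢ 𝓝 z, deriv (X' p.1) p.2 ^ n * V' p.1 p.2 = e) :
    N (fun m x => deriv (X m) x ^ n * Er w t V V' m x +
      n * e * (deriv (t m) x - a m * t m x)) := by
  have hD := d.hX.deriv d.c d.hw
  have h1 := er_mul (t := t) d.c (hD.pow d.c n) hV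
  have h2 := d.c.n_ch (er_pow d.c d.ht hD n) hV.cP
  have h3 := er_congr (w := w) (t := t)
    (F := fun m x => deriv (X m) x ^ n * V m x) (F' := fun _ _ => e)
    (G := fun m x => deriv (X' m) x ^ n * V' m x) (G' := fun _ _ => e) hP hQ
  refine d.c.n_congr (d.c.n_neg (d.c.n_add h1 h2)) ?_
  filter_upwards [h3, er_der d.c d.hw d.ht d.hX, hP,
    ev_ev (r := fun m x => Er w t X X' m x = 0) d.hX0] with p k1 k2 k3 k4
  have k5 : deriv (Er w t X X' p.1) p.2 = 0 := by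
    have : Er w t X X' p.1 =ᶠ[𝓝 p.2] fun _ => 0 := k4
    rw [this.deriv_eq, deriv_const]
  rw [k5, k4.self_of_nhds] at k2
  have k6 : Er w t (fun _ _ => e) (fun _ _ => e) p.1 p.2 = 0 := by
    unfold Er dq
    simp
  rw [k1, k6, k2]
  rcases Nat.eq_zero_or_pos n with rfl | hn
  · simp only [pow_zero, Nat.cast_zero, zero_mul, one_mul, add_zero]
    ring
  · have k7 : deriv (X p.1) p.2 ^ n = deriv (X p.1) p.2 ^ (n - 1) * deriv (X p.1) p.2 := by
      rw [← pow_succ, Nat.sub_add_cancel hn]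
    linear_combination ((n : ℂ) * (deriv (t p.1) p.2 - a p.1 * t p.1 p.2)) * k3 -
      ((n : ℂ) * (deriv (t p.1) p.2 - a p.1 * t p.1 p.2) * V p.1 p.2) * k7

variable {T : (ℕ → ℂ → ℂ) → Prop} {S : Finset (ℕ →₀ ℕ)} {H H' : (ℕ →₀ ℕ) → ℕ → ℂ → ℂ}
  {h : (ℕ →₀ ℕ) → ℂ → ℂ}

theorem ad_V (c : Cal l z a M N) (hT : Idl l z N T) (k q : ℕ)
    (hY : ∀ j ≤ k, AdT l z w t M N T (fun m => fY (X m) (Y m) (j + 1))
      (fun m => fY (X' m) (Y' m) (j + 1)) (fY ξ η (j + 1)))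
    (hH : ∀ s ∈ S, AdT l z w t M N T (H s) (H' s) (h s)) :
    AdT l z w t M N T (fun m => fV S (fun s => H s m) (X m) (Y m) k q)
      (fun m => fV S (fun s => H' s m) (X' m) (Y' m) k q) (fV S h ξ η k q) := by
  have := AdT.sum (w := w) (t := t) (M := M) (T := T) c hT S
    (F := fun s m x => fT (H s m) s (X m) (Y m) k q x)
    (G := fun s m x => fT (H' s m) s (X' m) (Y' m) k q x)
    (f := fun s x => fT (h s) s ξ η k q x) (fun s hs => by
      exact (((AdT.const c hT _).mul c hT (hH s hs)).mul c hT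
        (AdT.prod c hT (Finset.range k) fun j hj =>
          (hY j (Finset.mem_range.1 hj).le).pow c hT (s j))).mul c hT
        ((hY k le_rfl).pow c hT (s k - q)))
  exact this

end

/-! ### bounded weights -/

section

variable {l : Filter ℕ} [l.NeBot] {z : ℂ} {a : ℕ → ℂ} {w t : ℕ → ℂ → ℂ}
  {X X' Y Y' : ℕ → ℂ → ℂ} {ξ η τ : ℂ → ℂ}
  {S : Finset (ℕ →₀ ℕ)} {H H' : (ℕ →₀ ℕ) → ℕ → ℂ → ℂ} {h : (ℕ →₀ ℕ) → ℂ → ℂ}

/-- convergent sequences -/
def Mc (l : Filter ℕ) (z : ℂ) (F : ℕ → ℂ → ℂ) : Prop := ∃ f, CH l z F f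

theorem calA {a0 : ℂ} (ha : Tendsto a l (𝓝 a0)) : Cal l z a (Mc l z) (CZ l z) where
  m_ch := fun {F f} h => ⟨f, h⟩
  m_add := fun ⟨_, h⟩ ⟨_, h'⟩ => ⟨_, h.add h'⟩
  m_mul := fun ⟨_, h⟩ ⟨_, h'⟩ => ⟨_, h.mul h'⟩
  m_der := fun ⟨_, h⟩ => ⟨_, h.deriv⟩
  m_a := fun ⟨_, h⟩ => ⟨_, (CH.seq ha).mul h⟩
  m_an := fun ⟨_, h⟩ => h.ev
  m_congr := fun ⟨_, h⟩ h' => ⟨_, h.congr' h'⟩
  n_m := fun h => ⟨_, h⟩
  n_add := fun h h' => h.add h'
  n_mul := fun h ⟨_, h'⟩ => h.mul h'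
  n_der := fun h => h.deriv
  n_congr := fun h h' => CH.congr' h h'
  n_zero := CH.const 0

theorem idlA : Idl l z (CZ l z) (CZ l z) where
  n := fun h => h
  add := fun h h' => h.add h'
  ch := fun h h' => h.mul h'
  congr := fun h h' => CH.congr' h h'

/-- **The linearised equation.** -/
theorem rigA {a0 : ℂ} (ha : Tendsto a l (𝓝 a0)) (d : Dta l z a (Mc l z) (CZ l z) w t X X' ξ τ)
    (hY : AdT l z w t (Mc l z) (CZ l z) (CZ l z) Y Y' η)
    (hH : ∀ s ∈ S, AdT l z w t (Mc l z) (CZ l z) (CZ l z) (H s) (H' s) (h s)) {k n : ℕ} {e : ℂ}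
    (hP : ∀ᶠ p : ℕ × ℂ in l ×ˢ 𝓝 z,
      deriv (X p.1) p.2 ^ n * fV S (fun s => H s p.1) (X p.1) (Y p.1) k 0 p.2 = e)
    (hQ : ∀ᶠ p : ℕ × ℂ in l ×ˢ 𝓝 z,
      deriv (X' p.1) p.2 ^ n * fV S (fun s => H' s p.1) (X' p.1) (Y' p.1) k 0 p.2 = e)
    (hn : 0 < n) (he : e ≠ 0) : deriv τ z = a0 * τ z := by
  have hYj : ∀ j, AdT l z w t (Mc l z) (CZ l z) (CZ l z) (fun m => fY (X m) (Y m) j)
      (fun m => fY (X' m) (Y' m) j) (fY ξ η j) := by
    intro j
    induction j with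
    | zero => exact hY
    | succ j ih =>
      refine ⟨d.ad_Y hY.ad _, ?_⟩
      have h1 := d.er_Y hY.ad j
      have h2 : CZ l z (fun m x => (deriv (Er w t (fun m => fY (X m) (Y m) j)
          (fun m => fY (X' m) (Y' m) j) m) x - a m * Er w t (fun m => fY (X m) (Y m) j)
          (fun m => fY (X' m) (Y' m) j) m x) * (deriv (X m) x)⁻¹) := by
        refine CZ.mul ?_ ((d.hX.deriv d.c d.hw).cP.inv d.hξ)
        refine CH.congr' (CZ.add (CZ.deriv ih.er) (CZ.neg (CZ.mul ih.er (CH.seq ha))))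
          (Eventually.of_forall fun p => ?_)
        ring
      refine CH.congr' (CZ.add h1 h2) (Eventually.of_forall fun p => ?_)
      ring
  have hV := ad_V (S := S) (q := 0) (k := k) d.c idlA (fun j _ => hYj (j + 1)) hH
  have h1 := d.main hV.ad hP hQ
  have h2 : CZ l z (fun m x => (n : ℂ) * e * (deriv (t m) x - a m * t m x)) := by
    refine CH.congr' (CZ.add h1 (CZ.neg (CZ.mul hV.er ((d.hX.deriv d.c d.hw).cP.pow n))))
      (Eventually.of_forall fun p => ?_)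
    ring
  have h3 : CH l z (fun m x => (n : ℂ) * e * (deriv (t m) x - a m * t m x))
      (fun x => (n : ℂ) * e * (deriv τ x - a0 * τ x)) :=
    (CH.const ((n : ℂ) * e)).mul (d.ht.deriv.sub ((CH.seq ha).mul d.ht))
  have h4 := (CH.unique h3 h2).self_of_nhds
  have hn' : (n : ℂ) ≠ 0 := by exact_mod_cast hn.ne'
  exact sub_eq_zero.1 ((mul_eq_zero.1 h4).resolve_left (mul_ne_zero hn' he))

end

/-! ### unbounded weights -/

section

variable {l : Filter ℕ} [l.NeBot] {z : ℂ} {a : ℕ → ℂ} {w t : ℕ → ℂ → ℂ}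
  {X X' Y Y' : ℕ → ℂ → ℂ} {ξ η : ℂ → ℂ} {γ : ℂ}
  {S : Finset (ℕ →₀ ℕ)} {H H' : (ℕ →₀ ℕ) → ℕ → ℂ → ℂ} {h : (ℕ →₀ ℕ) → ℂ → ℂ}
  {F G : ℕ → ℂ → ℂ}

theorem Sm.an (ha : Inf l a) {i : ℤ} (h : Sm l z a i F) :
    ∀ᶠ p : ℕ × ℂ in l ×ˢ 𝓝 z, AnalyticAt ℂ (F p.1) p.2 := by
  filter_upwards [CH.ev h, tendsto_fst.eventually ha.ne] with p h1 h2
  have h3 : AnalyticAt ℂ (fun x => (a p.1 ^ i)⁻¹ * (a p.1 ^ i * F p.1 x)) p.2 :=
    analyticAt_const.mul h1
  refine h3.congr (Eventually.of_forall fun x => ?_)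
  have h4 : a p.1 ^ i ≠ 0 := zpow_ne_zero _ h2
  field_simp

theorem calB (ha : Inf l a) : Cal l z a (Md l z a) (Ng l z a) where
  m_ch := fun {F f} h => ⟨-1, Sm.of_ch ha h⟩
  m_add := fun ⟨i, h⟩ ⟨j, h'⟩ =>
    ⟨min i j, (h.mono ha (min_le_left _ _)).add (h'.mono ha (min_le_right _ _))⟩
  m_mul := fun ⟨i, h⟩ ⟨j, h'⟩ => ⟨i + j, h.mul ha h'⟩
  m_der := fun ⟨i, h⟩ => ⟨i, h.deriv⟩
  m_a := fun ⟨i, h⟩ => ⟨i - 1, h.sa ha⟩
  m_an := fun ⟨i, h⟩ => h.an ha
  m_congr := fun ⟨i, h⟩ h' => ⟨i, h.congr h'⟩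
  n_m := fun h => ⟨0, h 0⟩
  n_add := fun h h' i => (h i).add (h' i)
  n_mul := fun h ⟨j, h'⟩ i => by
    have := (h (i - j)).mul ha h'
    rwa [sub_add_cancel] at this
  n_der := fun h i => (h i).deriv
  n_congr := fun h h' i => (h i).congr h'
  n_zero := fun i => by
    unfold Sm CZ
    simpa using CH.const 0

theorem idlB (ha : Inf l a) (i : ℤ) : Idl l z (Ng l z a) (Sm l z a i) where
  n := fun h => h i
  add := fun h h' => h.add h'
  ch := fun h h' => h.ch h'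
  congr := fun h h' => h.congr h'

theorem Sm.apow (ha : Inf l a) {i : ℤ} (h : Sm l z a i F) (n : ℕ) :
    Sm l z a (i - n) (fun m x => a m ^ n * F m x) := by
  refine CH.congr' h ?_
  filter_upwards [tendsto_fst.eventually ha.ne] with p hp
  have h1 : a p.1 ^ i = a p.1 ^ (i - n) * a p.1 ^ n := by
    rw [← zpow_natCast, ← zpow_add₀ hp, sub_add_cancel]
  rw [h1]
  ring

theorem Sm.of_apow (ha : Inf l a) {i : ℤ} {n : ℕ} (h : Sm l z a i (fun m x => a m ^ n * F m x)) :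
    Sm l z a (i + n) F := by
  refine CH.congr' h ?_
  filter_upwards [tendsto_fst.eventually ha.ne] with p hp
  rw [zpow_add₀ hp, zpow_natCast]
  ring

variable (ha : Inf l a) (d : Dta l z a (Md l z a) (Ng l z a) w t X X' ξ (fun _ => γ))
  (hY : Ad l z w (Md l z a) (Ng l z a) Y Y' η)

include ha d hY in
/-- the normal parts of the derivatives -/
theorem smY {i : ℤ} (hi : Sm l z a i (Er w t Y Y')) (j : ℕ) :
    Sm l z a (i - j) (Er w t (fun m => fY (X m) (Y m) j) (fun m => fY (X' m) (Y' m) j)) := by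
  induction j with
  | zero =>
    rw [Nat.cast_zero, sub_zero]
    exact hi
  | succ j ih =>
    have h1 := d.er_Y hY j (i - (j + 1 : ℕ))
    have h2 := (ih.deriv.mono ha (show i - (j + 1 : ℕ) ≤ i - j by push_cast; omega)).ch
      ((d.hX.deriv d.c d.hw).cP.inv d.hξ)
    have h3 := (ih.sa ha).ch ((d.hX.deriv d.c d.hw).cP.inv d.hξ)
    rw [show i - (j : ℤ) - 1 = i - (j + 1 : ℕ) by push_cast; ring] at h3
    exact (h1.add (h2.sub h3)).congr (Eventually.of_forall fun p => by ring)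

include ha d hY in
theorem smY_top {i : ℤ} (hi : Sm l z a i (Er w t Y Y')) (j : ℕ) :
    Sm l z a (i - j + 1) (fun m x =>
      Er w t (fun m => fY (X m) (Y m) j) (fun m => fY (X' m) (Y' m) j) m x -
        (-a m * (deriv (X m) x)⁻¹) ^ j * Er w t Y Y' m x) := by
  induction j with
  | zero =>
    refine ((calB (z := z) ha).n_zero _).congr (Eventually.of_forall fun p => ?_)
    simp only [pow_zero, one_mul]
    exact (sub_self (Er w t Y Y' p.1 p.2)).symm
  | succ j ih =>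
    have hD := (d.hX.deriv d.c d.hw).cP.inv d.hξ
    have h1 := d.er_Y hY j (i - (j + 1 : ℕ) + 1)
    have h2 := (smY ha d hY hi j).deriv.ch hD
    have h3 := (ih.sa ha).ch hD
    rw [show i - (j : ℤ) + 1 - 1 = i - (j + 1 : ℕ) + 1 by push_cast; ring] at h3
    rw [show i - (j : ℤ) = i - (j + 1 : ℕ) + 1 by push_cast; ring] at h2
    refine (h1.add (h2.sub h3)).congr (Eventually.of_forall fun p => ?_)
    ring

include ha d hY in
theorem sm_V {i : ℤ} (hi : Sm l z a i (Er w t Y Y')) (hS : ∀ s ∈ S,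
    Ad l z w (Md l z a) (Ng l z a) (H s) (H' s) (h s) ∧
      (Sm l z a i (Er w t Y Y') → Sm l z a i (Er w t (H s) (H' s)))) (k q : ℕ) :
    AdT l z w t (Md l z a) (Ng l z a) (Sm l z a (i - (k + 1 : ℕ)))
      (fun m => fV S (fun s => H s m) (X m) (Y m) k q)
      (fun m => fV S (fun s => H' s m) (X' m) (Y' m) k q) (fV S h ξ η k q) := by
  refine ad_V d.c (idlB ha _) k q (fun j hj => ⟨d.ad_Y hY _, ?_⟩) fun s hs => ⟨(hS s hs).1, ?_⟩
  · exact (smY ha d hY hi (j + 1)).mono ha (by push_cast; omega)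
  · exact ((hS s hs).2 hi).mono ha (by push_cast; omega)

include ha d hY in
/-- the leading part of the normal part of a polynomial -/
theorem sm_V_top {i : ℤ} (hi : Sm l z a i (Er w t Y Y')) (hS : ∀ s ∈ S,
    Ad l z w (Md l z a) (Ng l z a) (H s) (H' s) (h s) ∧
      (Sm l z a i (Er w t Y Y') → Sm l z a i (Er w t (H s) (H' s)))) (k q : ℕ) :
    Sm l z a (i - k) (fun m x =>
      Er w t (fun m => fV S (fun s => H s m) (X m) (Y m) k q)
        (fun m => fV S (fun s => H' s m) (X' m) (Y' m) k q) m x -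
      fV S (fun s => H s m) (X m) (Y m) k (q + 1) x *
        ((-a m * (deriv (X m) x)⁻¹) ^ (k + 1) * Er w t Y Y' m x)) := by
  set c := d.c
  have hidl := idlB (z := z) ha (i - k)
  have hA : ∀ s ∈ S, AdT l z w t (Md l z a) (Ng l z a) (Sm l z a (i - k))
      (fun m x => ((s k).descFactorial q : ℂ) * H s m x * fM (X m) (Y m) k s x)
      (fun m x => ((s k).descFactorial q : ℂ) * H' s m x * fM (X' m) (Y' m) k s x)
      (fun x => ((s k).descFactorial q : ℂ) * h s x * fM ξ η k s x) := by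
    intro s hs
    refine ((AdT.const c hidl _).mul c hidl ⟨(hS s hs).1,
      ((hS s hs).2 hi).mono ha (by omega)⟩).mul c hidl (AdT.prod c hidl (Finset.range k)
        fun j hj => AdT.pow c hidl ⟨d.ad_Y hY (j + 1), ?_⟩ (s j))
    exact (smY ha d hY hi (j + 1)).mono ha (by
      have := Finset.mem_range.1 hj
      push_cast
      omega)
  have hYk := d.ad_Y hY (k + 1)
  have htop := smY_top ha d hY hi (k + 1)
  rw [show i - ((k + 1 : ℕ) : ℤ) + 1 = i - k by push_cast; ring] at htop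
  have hterm : ∀ s ∈ S, Sm l z a (i - k) (fun m x =>
      Er w t (fun m => fT (H s m) s (X m) (Y m) k q) (fun m => fT (H' s m) s (X' m) (Y' m) k q) m x -
      fT (H s m) s (X m) (Y m) k (q + 1) x *
        ((-a m * (deriv (X m) x)⁻¹) ^ (k + 1) * Er w t Y Y' m x)) := by
    intro s hs
    have h1 := er_mul (t := t) c (hA s hs).ad (hYk.pow c (s k - q)) (i - k)
    have h2 := (er_pow c d.ht hYk (s k - q) (i - k)).ch (hA s hs).ad.cP
    have h3 := (hA s hs).er.ch (hYk.pow c (s k - q)).cP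
    have h4 := (htop.ch (CH.mul (CH.const ((s k - q : ℕ) : ℂ)) (hYk.cP.pow (s k - q - 1)))).ch
      (hA s hs).ad.cP
    refine (((h1.add h2).add h3).add h4).congr (Eventually.of_forall fun p => ?_)
    have h5 : fT (H s p.1) s (X p.1) (Y p.1) k (q + 1) p.2 =
        ((s k).descFactorial q : ℂ) * H s p.1 p.2 * fM (X p.1) (Y p.1) k s p.2 *
          (((s k - q : ℕ) : ℂ) * fY (X p.1) (Y p.1) (k + 1) p.2 ^ (s k - q - 1)) := by
      unfold fT
      rw [Nat.descFactorial_succ, Nat.sub_sub]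
      push_cast
      ring
    rw [h5]
    have h6 : Er w t (fun m => fT (H s m) s (X m) (Y m) k q)
        (fun m => fT (H' s m) s (X' m) (Y' m) k q) p.1 p.2 =
        Er w t (fun m x => ((s k).descFactorial q : ℂ) * H s m x * fM (X m) (Y m) k s x *
          fY (X m) (Y m) (k + 1) x ^ (s k - q))
          (fun m x => ((s k).descFactorial q : ℂ) * H' s m x * fM (X' m) (Y' m) k s x *
          fY (X' m) (Y' m) (k + 1) x ^ (s k - q)) p.1 p.2 := rfl
    rw [h6]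
    ring
  have hall : Sm l z a (i - k) (fun m x => ∑ s ∈ S,
      (Er w t (fun m => fT (H s m) s (X m) (Y m) k q) (fun m => fT (H' s m) s (X' m) (Y' m) k q) m x -
      fT (H s m) s (X m) (Y m) k (q + 1) x *
        ((-a m * (deriv (X m) x)⁻¹) ^ (k + 1) * Er w t Y Y' m x))) := by
    have := CH.sum S fun s hs => hterm s hs
    simp only [Finset.sum_const_zero] at this
    refine CH.congr' this (Eventually.of_forall fun p => ?_)
    rw [Finset.mul_sum]
  refine hall.congr ?_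
  have hE : ∀ᶠ p : ℕ × ℂ in l ×ˢ 𝓝 z,
      Er w t (fun m => fV S (fun s => H s m) (X m) (Y m) k q)
        (fun m => fV S (fun s => H' s m) (X' m) (Y' m) k q) p.1 p.2 =
      ∑ s ∈ S, Er w t (fun m => fT (H s m) s (X m) (Y m) k q)
        (fun m => fT (H' s m) s (X' m) (Y' m) k q) p.1 p.2 := by
    have han : ∀ s ∈ S, ∀ᶠ p : ℕ × ℂ in l ×ˢ 𝓝 z,
        AnalyticAt ℂ (fT (H s p.1) s (X p.1) (Y p.1) k q) p.2 := fun s hs =>
      (((hA s hs).ad.cP).mul (hYk.cP.pow (s k - q))).ev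
    have han' := (Filter.eventually_all_finset S).2 han
    filter_upwards [han'] with p hp
    unfold Er
    have k1 : deriv (fV S (fun s => H s p.1) (X p.1) (Y p.1) k q) p.2 =
        ∑ s ∈ S, deriv (fT (H s p.1) s (X p.1) (Y p.1) k q) p.2 := by
      have k2 : fV S (fun s => H s p.1) (X p.1) (Y p.1) k q =
          fun x => ∑ s ∈ S, fT (H s p.1) s (X p.1) (Y p.1) k q x := rfl
      rw [k2]
      exact deriv_fun_sum fun s hs => (hp s hs).differentiableAt
    rw [k1, Finset.sum_sub_distrib, ← Finset.mul_sum]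
    congr 1
    unfold dq fV
    rw [← Finset.sum_mul, Finset.sum_sub_distrib]
  filter_upwards [hE] with p hp
  rw [hp, Finset.sum_sub_distrib, ← Finset.sum_mul]
  rfl

end

end Pool.Agent.L7h90.JG
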