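import Pool.Agent.L7h90.JG.Def

/-! Wronskians of linearly independent elements do not vanish. -/

set_option autoImplicit false

namespace Pool.Agent.L7h90.JG

variable {B : Type} [Field B] [Algebra ℂ B] {D : Derivation ℂ B B}

theorem wr_dep (hD : ∀ b, D b = 0 → ∃ c : ℂ, b = algebraMap ℂ B c) : ∀ (n : ℕ) (v : Fin n → B),
    (∀ c : Fin n → ℂ, ∑ j, algebraMap ℂ B (c j) * v j = 0 → c = 0) →
    ∀ e : Fin n → B, (∀ i : Fin n, ∑ j, (D : B → B)^[(i : ℕ)] (v j) * e j = 0) → e = 0 := by
  intro n
  induction n with
  | zero =>
    intro v _ e _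
    funext i
    exact i.elim0
  | succ n ih =>
    intro v hv e he
    have hv' : ∀ c : Fin n → ℂ, ∑ j, algebraMap ℂ B (c j) * v (Fin.castSucc j) = 0 → c = 0 := by
      intro c hc
      have h1 := hv (Fin.snoc c 0) (by
        rw [Fin.sum_univ_castSucc]
        simp only [Fin.snoc_castSucc, Fin.snoc_last, map_zero, zero_mul, add_zero]
        exact hc)
      funext j
      have := congrFun h1 (Fin.castSucc j)
      rwa [Fin.snoc_castSucc] at this
    -- relations with vanishing last coefficient
    have key : ∀ e : Fin (n + 1) → B, e (Fin.last n) = 0 →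
        (∀ i : Fin n, ∑ j, (D : B → B)^[(i : ℕ)] (v j) * e j = 0) → e = 0 := by
      intro e h0 h1
      have h2 := ih (fun j => v (Fin.castSucc j)) hv' (fun j => e (Fin.castSucc j)) (fun i => by
        have := h1 i
        rw [Fin.sum_univ_castSucc, h0, mul_zero, add_zero] at this
        exact this)
      funext j
      refine Fin.lastCases h0 (fun j => ?_) j
      exact congrFun h2 j
    by_cases hl : e (Fin.last n) = 0
    · exact key e hl fun i => he (Fin.castSucc i)
    · exfalso
      set f : Fin (n + 1) → B := fun j => e j / e (Fin.last n) with hf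
      have hf1 : ∀ i : Fin (n + 1), ∑ j, (D : B → B)^[(i : ℕ)] (v j) * f j = 0 := by
        intro i
        have h1 : ∑ j, (D : B → B)^[(i : ℕ)] (v j) * f j =
            (∑ j, (D : B → B)^[(i : ℕ)] (v j) * e j) / e (Fin.last n) := by
          rw [Finset.sum_div]
          refine Finset.sum_congr rfl fun j _ => ?_
          rw [hf]
          ring
        rw [h1, he i, zero_div]
      have hfl : f (Fin.last n) = 1 := div_self hl
      have h2 : (fun j => D (f j)) = 0 := by
        apply key
        · rw [hfl]
          exact D.map_one_eq_zero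
        · intro i
          have h3 := hf1 (Fin.castSucc i)
          have h4 := hf1 i.succ
          have h5 : D (∑ j, (D : B → B)^[((Fin.castSucc i : Fin (n + 1)) : ℕ)] (v j) * f j) = 0 := by
            rw [h3, map_zero]
          rw [map_sum] at h5
          have h6 : ∀ j, D ((D : B → B)^[((Fin.castSucc i : Fin (n + 1)) : ℕ)] (v j) * f j) =
              (D : B → B)^[(i : ℕ)] (v j) * D (f j) +
                (D : B → B)^[((i.succ : Fin (n + 1)) : ℕ)] (v j) * f j := by
            intro j
            rw [D.leibniz, Fin.val_succ, Function.iterate_succ_apply', Fin.val_castSucc]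
            simp only [smul_eq_mul]
            ring
          rw [Finset.sum_congr rfl fun j _ => h6 j, Finset.sum_add_distrib, h4, add_zero] at h5
          exact h5
      have h3 : ∀ j, ∃ c : ℂ, f j = algebraMap ℂ B c := fun j => hD _ (congrFun h2 j)
      choose c hc using h3
      have h4 := hv c (by
        have := hf1 0
        simp only [Fin.val_zero, Function.iterate_zero, id_eq] at this
        rw [← this]
        refine Finset.sum_congr rfl fun j _ => ?_
        rw [hc, mul_comm])
      have h5 := hc (Fin.last n)
      rw [hfl, h4, Pi.zero_apply, map_zero] at h5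
      exact one_ne_zero h5

/-- change of the derivation -/
theorem smul_iter (D : Derivation ℂ B B) (g : B) (i : ℕ) : ∃ L : ℕ → B, L i = g ^ (i + 1) ∧
    ∀ f : B, ((g • D : Derivation ℂ B B) : B → B)^[i + 1] f =
      ∑ k ∈ Finset.range (i + 1), L k * (D : B → B)^[k + 1] f := by
  induction i with
  | zero =>
    refine ⟨fun _ => g, (pow_one g).symm, fun f => ?_⟩
    rw [Finset.sum_range_one]
    rfl
  | succ i ih =>
    obtain ⟨L, h1, h2⟩ := ih
    refine ⟨fun k => (if k ≤ i then g * D (L k) else 0) + (if k = 0 then 0 else g * L (k - 1)),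
      ?_, fun f => ?_⟩
    · simp only
      rw [if_neg (by omega), if_neg (by omega), zero_add, Nat.add_sub_cancel, h1, pow_succ' g (i + 1)]
    · rw [Function.iterate_succ_apply', h2]
      change g * D (∑ k ∈ Finset.range (i + 1), L k * (D : B → B)^[k + 1] f) = _
      rw [map_sum, Finset.mul_sum]
      have h3 : ∀ k, g * D (L k * (D : B → B)^[k + 1] f) =
          g * D (L k) * (D : B → B)^[k + 1] f + g * L k * (D : B → B)^[k + 2] f := by
        intro k
        rw [D.leibniz, Function.iterate_succ_apply' (D : B → B) (k + 1)]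
        simp only [smul_eq_mul]
        ring
      simp only [h3, Finset.sum_add_distrib, add_mul]
      congr 1
      · rw [Finset.sum_range_succ _ (i + 1), if_neg (by omega), zero_mul, add_zero]
        refine Finset.sum_congr rfl fun k hk => ?_
        rw [Finset.mem_range] at hk
        rw [if_pos (by omega)]
      · rw [Finset.sum_range_succ' _ (i + 1), if_pos rfl, zero_mul, add_zero]
        refine Finset.sum_congr rfl fun k _ => ?_
        rw [if_neg (Nat.succ_ne_zero k), Nat.add_sub_cancel]

/-- **The invariance of the Wronskian.** -/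
theorem wr_smul (D : Derivation ℂ B B) (g : B) {n : ℕ} (u : Fin n → B) :
    wr (g • D) u = g ^ (∑ i : Fin n, ((i : ℕ) + 1)) * wr D u := by
  choose L h1 h2 using smul_iter D g
  set Lm : Matrix (Fin n) (Fin n) B := Matrix.of fun i k => if k ≤ i then L i k else 0 with hLm
  have h3 : (Matrix.of fun i j : Fin n => ((g • D : Derivation ℂ B B) : B → B)^[(i : ℕ) + 1] (u j)) =
      Lm * Matrix.of fun i j : Fin n => (D : B → B)^[(i : ℕ) + 1] (u j) := by
    ext i j
    rw [Matrix.mul_apply, Matrix.of_apply, h2]
    simp only [hLm, Matrix.of_apply, ite_mul, zero_mul]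
    have h4 : ∀ k : Fin n, (if k ≤ i then L i k * (D : B → B)^[(k : ℕ) + 1] (u j) else 0) =
        (fun k : ℕ => if k ≤ i then L i k * (D : B → B)^[k + 1] (u j) else 0) k := fun k => rfl
    rw [Finset.sum_congr rfl fun k _ => h4 k, Fin.sum_univ_eq_sum_range
      (fun k : ℕ => if k ≤ i then L i k * (D : B → B)^[k + 1] (u j) else 0) n]
    have h5 : Finset.range ((i : ℕ) + 1) ⊆ Finset.range n :=
      Finset.range_subset_range.2 (by omega)
    rw [← Finset.sum_subset h5 fun k _ hk => ?_]
    · refine Finset.sum_congr rfl fun k hk => ?_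
      rw [Finset.mem_range] at hk
      rw [if_pos (by omega)]
    · rw [Finset.mem_range] at hk
      rw [if_neg (by omega)]
  unfold wr
  rw [h3, Matrix.det_mul, Matrix.det_of_lowerTriangular Lm (by
    intro i j hij
    have hij' : i < j := hij
    rw [hLm, Matrix.of_apply, if_neg (not_le.2 hij')]), ← Finset.prod_pow_eq_pow_sum]
  congr 1
  refine Finset.prod_congr rfl fun i _ => ?_
  rw [hLm, Matrix.of_apply, if_pos le_rfl, h1]

/-- **The Wronskian of linearly independent elements does not vanish.** -/
theorem wr_ne (hD : ∀ b, D b = 0 → ∃ c : ℂ, b = algebraMap ℂ B c) {n : ℕ} {u : Fin n → B}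
    (hu : Indep u) : wr D u ≠ 0 := by
  intro h0
  unfold wr at h0
  obtain ⟨e, he0, he⟩ := Matrix.exists_mulVec_eq_zero_iff.2 h0
  apply he0
  refine wr_dep hD n (fun j => D (u j)) ?_ e ?_
  · intro c hc
    have h1 : D (∑ j, algebraMap ℂ B (c j) * u j) = 0 := by
      rw [map_sum, ← hc]
      refine Finset.sum_congr rfl fun j _ => ?_
      rw [D.leibniz, D.map_algebraMap, smul_zero, add_zero, smul_eq_mul]
    obtain ⟨e, he⟩ := hD _ h1
    exact hu c e he
  · intro i
    have := congrFun he i
    rw [Matrix.mulVec, dotProduct] at this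
    simp only [Matrix.of_apply, Pi.zero_apply] at this
    rw [← this]
    refine Finset.sum_congr rfl fun j _ => ?_
    rw [← Function.iterate_succ_apply]

end Pool.Agent.L7h90.JG
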